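import Mathlib

/-!
[H92 BH XRAM]  Ramsey's theorem for pairs in finite sets of natural numbers.
-/

namespace Pool.Agent.H92.BH

/-- end-homogeneous sets -/
theorem end_hom {K : Type*} (S : Finset K) (n : ℕ) : ∃ M : ℕ, ∀ X : Finset ℕ, M ≤ X.card →
    ∀ χ : ℕ → ℕ → K, (∀ x y, χ x y ∈ S) → ∃ Y ⊆ X, n ≤ Y.card ∧ ∃ g : ℕ → K, (∀ x, g x ∈ S) ∧
      ∀ x ∈ Y, ∀ y ∈ Y, x < y → χ x y = g x := by
  classical
  induction n with
  | zero =>
    refine ⟨0, fun X _ χ hχ => ⟨∅, Finset.empty_subset _, le_rfl, fun x => χ x x,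
      fun x => hχ x x, ?_⟩⟩
    intro x hx
    simp at hx
  | succ n ih =>
    obtain ⟨M, hM⟩ := ih
    refine ⟨S.card * M + 2, fun X hX χ hχ => ?_⟩
    have hXne : X.Nonempty := Finset.card_pos.mp (by omega)
    set x₀ := X.min' hXne with hx₀
    have hx₀X : x₀ ∈ X := X.min'_mem hXne
    have hmin : ∀ y ∈ X.erase x₀, x₀ < y := by
      intro y hy
      obtain ⟨hy1, hy2⟩ := Finset.mem_erase.mp hy
      exact lt_of_le_of_ne (X.min'_le y hy2) (Ne.symm hy1)
    have hcard : S.card * M < (X.erase x₀).card := by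
      rw [Finset.card_erase_of_mem hx₀X]
      omega
    obtain ⟨t, ht, htM⟩ := Finset.exists_lt_card_fiber_of_mul_lt_card_of_maps_to
      (f := fun y => χ x₀ y) (s := X.erase x₀) (t := S) (n := M) (fun y _ => hχ x₀ y) hcard
    obtain ⟨Y, hY, hYn, g, hgS, hg⟩ := hM ((X.erase x₀).filter (fun y => χ x₀ y = t)) htM.le χ hχ
    have hx₀Y : x₀ ∉ Y := by
      intro h
      have := (Finset.mem_filter.mp (hY h)).1
      exact (Finset.mem_erase.mp this).1 rfl
    refine ⟨insert x₀ Y, ?_, ?_, Function.update g x₀ t, ?_, ?_⟩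
    · intro y hy
      rcases Finset.mem_insert.mp hy with rfl | hy
      · exact hx₀X
      · exact Finset.mem_of_mem_erase (Finset.mem_filter.mp (hY hy)).1
    · rw [Finset.card_insert_of_notMem hx₀Y]
      omega
    · intro x
      by_cases h : x = x₀
      · subst h
        rw [Function.update_self]
        exact ht
      · rw [Function.update_of_ne h]
        exact hgS x
    · intro x hx y hy hxy
      have hyY : y ∈ Y := by
        rcases Finset.mem_insert.mp hy with h | h
        · exfalso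
          rcases Finset.mem_insert.mp hx with h' | h'
          · omega
          · have := hmin x (Finset.mem_filter.mp (hY h')).1
            omega
        · exact h
      rcases Finset.mem_insert.mp hx with h | h
      · subst h
        rw [Function.update_self]
        exact (Finset.mem_filter.mp (hY hyY)).2
      · have hne : x ≠ x₀ := fun h' => hx₀Y (h' ▸ h)
        rw [Function.update_of_ne hne]
        exact hg x h y hyY hxy

/-- Ramsey's theorem for pairs -/
theorem ramsey_pairs {K : Type*} (S : Finset K) (k : ℕ) : ∃ M : ℕ, ∀ X : Finset ℕ, M ≤ X.card →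
    ∀ χ : ℕ → ℕ → K, (∀ x y, χ x y ∈ S) → ∃ Y ⊆ X, k ≤ Y.card ∧ ∃ t ∈ S,
      ∀ x ∈ Y, ∀ y ∈ Y, x < y → χ x y = t := by
  classical
  obtain ⟨M, hM⟩ := end_hom S (S.card * k + 1)
  refine ⟨M, fun X hX χ hχ => ?_⟩
  obtain ⟨Y, hYX, hYc, g, hgS, hg⟩ := hM X hX χ hχ
  obtain ⟨t, ht, htk⟩ := Finset.exists_lt_card_fiber_of_mul_lt_card_of_maps_to
      (f := g) (s := Y) (t := S) (n := k) (fun y _ => hgS y) (by omega)
  refine ⟨Y.filter (fun y => g y = t), (Finset.filter_subset _ _).trans hYX, htk.le, t, ht, ?_⟩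
  intro x hx y hy hxy
  rw [hg x (Finset.mem_filter.mp hx).1 y (Finset.mem_filter.mp hy).1 hxy]
  exact (Finset.mem_filter.mp hx).2

end Pool.Agent.H92.BH
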