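import Pool.Agent.H21.MT.SieveR
import Pool.Agent.H21.MT.Pz
import Pool.Agent.H21.MT.Lim

/-!
[H92 BH XCORE3]  Blocks of shifts: as core3 of helper21 (H21/MT/Core3.lean, adapted), with no two
neighbours of the block in `B` in infinitely many of the rich blocks.
-/

namespace Pool.Agent.H92.BH

open Finset Filter Pool.Agent.H21.MT

/-- weight of a block -/
noncomputable def c3be (j : ℕ) : ℝ := (1 / 20) * (1 / 2) ^ j

noncomputable def c3ta (l : ℕ → ℕ) (j : ℕ) : ℝ := c3be j / (2 ^ l j * ((l j : ℝ) + 1))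

private theorem c3be_pos (j : ℕ) : 0 < c3be j := by
  unfold c3be
  positivity

private theorem c3be_le (j : ℕ) : c3be j ≤ 1 / 20 := by
  unfold c3be
  have : (1 / 2 : ℝ) ^ j ≤ 1 := pow_le_one₀ (by norm_num) (by norm_num)
  linarith

theorem c3ta_pos (l : ℕ → ℕ) (j : ℕ) : 0 < c3ta l j := by
  unfold c3ta
  have := c3be_pos j
  positivity

private theorem c3ta_mul (l : ℕ → ℕ) (j : ℕ) :
    (2 : ℝ) ^ l j * c3ta l j * ((l j : ℝ) + 1) = c3be j := by
  unfold c3ta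
  field_simp

private theorem c3sum (m : ℕ) : ∑ j ∈ range m, c3be j = 1 / 10 - (1 / 10) * (1 / 2) ^ m := by
  induction m with
  | zero => simp
  | succ m ih =>
    rw [sum_range_succ, ih]
    unfold c3be
    rw [pow_succ]
    ring

private theorem c3Y (l : ℕ → ℕ) (j : ℕ) :
    c3be j * ((l j : ℝ) + 1) ≤ (2 : ℝ) ^ l j * (c3ta l j * ((l j : ℝ) + 2) ^ 2) := by
  have h1 := c3ta_mul l j
  have h2 := c3ta_pos l j
  rw [← h1]
  have h3 : (0 : ℝ) ≤ (2 : ℝ) ^ l j * c3ta l j := by positivity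
  have h4 : ((l j : ℝ) + 1) * ((l j : ℝ) + 1) ≤ ((l j : ℝ) + 2) ^ 2 := by
    have : (0 : ℝ) ≤ l j := Nat.cast_nonneg _
    nlinarith
  calc (2 : ℝ) ^ l j * c3ta l j * ((l j : ℝ) + 1) * ((l j : ℝ) + 1) =
        ((2 : ℝ) ^ l j * c3ta l j) * (((l j : ℝ) + 1) * ((l j : ℝ) + 1)) := by ring
    _ ≤ ((2 : ℝ) ^ l j * c3ta l j) * ((l j : ℝ) + 2) ^ 2 := mul_le_mul_of_nonneg_left h4 h3
    _ = _ := by ring

theorem c3Y1 (l : ℕ → ℕ) (j : ℕ) (hl : 20 * 2 ^ j ≤ l j) :
    1 ≤ (2 : ℝ) ^ l j * (c3ta l j * ((l j : ℝ) + 2) ^ 2) := by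
  refine le_trans ?_ (c3Y l j)
  have h1 : (20 : ℝ) * 2 ^ j ≤ l j := by exact_mod_cast hl
  have h2 : c3be j * (20 * 2 ^ j) = 1 := by
    unfold c3be
    rw [one_div, one_div, inv_pow]
    field_simp
  have h3 := c3be_pos j
  nlinarith

private theorem c3sq (n : ℕ) : ((n : ℝ) + 322) ^ 2 ≤ 2 ^ (n + 120) := by
  induction n with
  | zero => norm_num
  | succ n ih =>
    have h0 : (2 : ℝ) ^ (n + 1 + 120) = 2 * 2 ^ (n + 120) := by
      rw [show n + 1 + 120 = (n + 120) + 1 from rfl, pow_succ]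
      ring
    rw [h0]
    push_cast
    have h1 : (0 : ℝ) ≤ n := Nat.cast_nonneg _
    nlinarith

private theorem c3small (l : ℕ → ℕ) (j : ℕ) (hl : 320 * 2 ^ j ≤ l j) :
    (2 : ℝ) ^ l j * (128 * (c3ta l j * ((l j : ℝ) + 2) ^ 2) ^ 2) ≤ 9 / 10 ^ 24 := by
  have hl1 : 320 ≤ l j := by
    have : 1 ≤ 2 ^ j := Nat.one_le_two_pow
    omega
  obtain ⟨n, hn⟩ := Nat.exists_eq_add_of_le hl1
  have hl0 : (0 : ℝ) ≤ l j := Nat.cast_nonneg _
  have h3 : ((l j : ℝ) + 2) ^ 2 ≤ 2 ^ (l j) / 2 ^ 200 := by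
    rw [le_div_iff₀ (by positivity)]
    have h4 := c3sq n
    have h5 : (2 : ℝ) ^ (l j) = 2 ^ (n + 120) * 2 ^ 200 := by
      rw [← pow_add, hn]
      congr 1
      omega
    rw [h5]
    refine mul_le_mul_of_nonneg_right ?_ (by positivity)
    rw [hn]
    push_cast
    refine le_trans (le_of_eq ?_) h4
    ring
  have hth0 : 0 ≤ c3ta l j * ((l j : ℝ) + 2) ^ 2 := by
    have := c3ta_pos l j
    positivity
  have hth : (2 : ℝ) ^ l j * (c3ta l j * ((l j : ℝ) + 2) ^ 2) ≤ ((l j : ℝ) + 2) / 10 := by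
    have h1 := c3ta_mul l j
    have h2 := c3ta_pos l j
    have h4 := c3be_le j
    have h5 : (0 : ℝ) ≤ (2 : ℝ) ^ l j * c3ta l j := by positivity
    have h6 : (2 : ℝ) ^ l j * c3ta l j * (((l j : ℝ) + 2) ^ 2) ≤
        (2 : ℝ) ^ l j * c3ta l j * (2 * (((l j : ℝ) + 1) * ((l j : ℝ) + 2))) := by
      refine mul_le_mul_of_nonneg_left ?_ h5
      nlinarith
    calc (2 : ℝ) ^ l j * (c3ta l j * ((l j : ℝ) + 2) ^ 2) =
        (2 : ℝ) ^ l j * c3ta l j * (((l j : ℝ) + 2) ^ 2) := by ring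
      _ ≤ _ := h6
      _ = ((2 : ℝ) ^ l j * c3ta l j * ((l j : ℝ) + 1)) * (2 * ((l j : ℝ) + 2)) := by ring
      _ = c3be j * (2 * ((l j : ℝ) + 2)) := by rw [h1]
      _ ≤ (1 / 20) * (2 * ((l j : ℝ) + 2)) := mul_le_mul_of_nonneg_right h4 (by positivity)
      _ = _ := by ring
  have h2l : (0 : ℝ) < (2 : ℝ) ^ l j := by positivity
  have hth2 : (c3ta l j * ((l j : ℝ) + 2) ^ 2) ≤ ((l j : ℝ) + 2) / 10 / 2 ^ l j := by
    rw [le_div_iff₀ h2l, mul_comm]
    exact hth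
  calc (2 : ℝ) ^ l j * (128 * (c3ta l j * ((l j : ℝ) + 2) ^ 2) ^ 2) =
      128 * ((2 : ℝ) ^ l j * (c3ta l j * ((l j : ℝ) + 2) ^ 2)) *
        (c3ta l j * ((l j : ℝ) + 2) ^ 2) := by ring
    _ ≤ 128 * (((l j : ℝ) + 2) / 10) * (((l j : ℝ) + 2) / 10 / 2 ^ l j) := by
        refine mul_le_mul (mul_le_mul_of_nonneg_left hth (by norm_num)) hth2 hth0 (by positivity)
    _ = (128 / 100) * (((l j : ℝ) + 2) ^ 2 / 2 ^ l j) := by ring
    _ ≤ (128 / 100) * (1 / 2 ^ 200) := by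
        refine mul_le_mul_of_nonneg_left ?_ (by norm_num)
        rw [div_le_iff₀ h2l]
        calc ((l j : ℝ) + 2) ^ 2 ≤ 2 ^ (l j) / 2 ^ 200 := h3
          _ = _ := by ring
    _ ≤ 9 / 10 ^ 24 := by norm_num

open Classical in
/-- the sieve and the second moment for the first `n + 1` blocks -/
theorem c3step (H : ℕ → Finset ℕ) (l : ℕ → ℕ) (hcard : ∀ j, (H j).card = 2 ^ l j)
    (hdisj : ∀ i j, i ≠ j → Disjoint (H i) (H j)) (hl' : ∀ j, 320 * 2 ^ j ≤ l j)
    (hadm : ∀ p : ℕ, p.Prime → ∃ a : ℕ, ∀ j, ∀ h ∈ H j, ¬ p ∣ a + h) (n : ℕ) :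
    ∃ (T : Finset ℕ) (μ : ℕ → ℝ), (∀ N ∈ T, n < N) ∧ (∀ N ∈ T, ∀ g ≤ n, (∀ j, g ∉ H j) →
      ¬ (N + g).Prime) ∧ (∀ N, 0 ≤ μ N) ∧ ∑ N ∈ T, μ N = 1 ∧
      ∀ j ≤ n, (1 / 10 ^ 24 : ℝ) ≤ ∑ N ∈ T.filter (fun N => (1 / 10 ^ 10) / 2 *
        ((2 : ℝ) ^ l j * (c3ta l j * ((l j : ℝ) + 2) ^ 2)) ≤
          (((H j).filter (fun a => (N + a).Prime)).card : ℝ) ∧
          ∀ a ∈ H j, ∀ b ∈ H j, a < b → (∀ z ∈ H j, ¬ (a < z ∧ z < b)) →
            ¬ ((N + a).Prime ∧ (N + b).Prime)), μ N := by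
  have hl : ∀ j, 20 * 2 ^ j ≤ l j := fun j => by
    have := hl' j
    omega
  let I : Type := Σ j : Fin (n + 1), {h // h ∈ H j.val}
  have hne : Nonempty I := by
    have h0 : (H 0).Nonempty := by
      rw [← card_pos, hcard]
      positivity
    obtain ⟨a, ha⟩ := h0
    exact ⟨⟨⟨0, by omega⟩, ⟨a, ha⟩⟩⟩
  let hh : I → ℕ := fun i => i.2.val
  have hinj : Function.Injective hh := by
    rintro ⟨j, a, ha⟩ ⟨j', a', ha'⟩ h
    have h1 : a = a' := h
    subst h1
    have h2 : j = j' := by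
      by_contra h3
      have h4 := hdisj j.val j'.val (fun h5 => h3 (Fin.ext h5))
      exact (disjoint_left.1 h4 ha) ha'
    subst h2
    rfl
  obtain ⟨Q, b₀, hQ, hcopQ, hkill⟩ := kill
    ((Finset.range (n + 1)).filter (fun g => ∀ j, g ∉ H j)) ((Finset.range (n + 1)).biUnion H) (by
      rw [Finset.disjoint_left]
      intro g hg hg'
      obtain ⟨j, _, hj⟩ := Finset.mem_biUnion.1 hg'
      exact (Finset.mem_filter.1 hg).2 j hj)
  obtain ⟨T, μ, hT, hμ0, hμ1, hlow, hup⟩ := sieveR (I := I) hh hinj (by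
    intro p hp
    obtain ⟨a, ha⟩ := hadm p hp
    exact ⟨a, fun i => ha i.1.val i.2.val i.2.2⟩) (fun i => c3ta l i.1.val) (fun i => l i.1.val)
    (fun i => c3ta_pos l _) (fun i => by
      have h1 := c3ta_mul l i.1.val
      have h2 := c3be_le i.1.val
      have h3 : (0 : ℝ) ≤ (2 : ℝ) ^ l i.1.val * c3ta l i.1.val := by
        have := c3ta_pos l i.1.val
        positivity
      have h4 : (0 : ℝ) ≤ l i.1.val := Nat.cast_nonneg _
      have h5 : (0 : ℝ) ≤ (2 : ℝ) ^ l i.1.val * c3ta l i.1.val * (l i.1.val) := mul_nonneg h3 h4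
      nlinarith) (by
      rw [Fintype.sum_sigma]
      have h1 : ∀ j : Fin (n + 1), ∑ _a : {h // h ∈ H j.val}, ((l j.val : ℝ) + 1) * c3ta l j.val =
          c3be j.val := by
        intro j
        rw [sum_const, card_univ, Fintype.card_coe, hcard, nsmul_eq_mul]
        push_cast
        rw [← c3ta_mul l j.val]
        ring
      rw [Finset.sum_congr rfl (fun j _ => h1 j), Fin.sum_univ_eq_sum_range (fun j => c3be j),
        c3sum]
      have : (0 : ℝ) < (1 / 2) ^ (n + 1) := by positivity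
      linarith) Q b₀ hQ (fun i => hcopQ _ (Finset.mem_biUnion.2
        ⟨i.1.val, Finset.mem_range.2 i.1.2, i.2.2⟩)) (n + Q)
  refine ⟨T, μ, fun N hN => by
    have := (hT N hN).1
    omega, ?_, hμ0, hμ1, ?_⟩
  · intro N hN g hg hgH
    exact hkill N (by have := (hT N hN).1; omega) (hT N hN).2 g (Finset.mem_filter.2
      ⟨Finset.mem_range.2 (by omega), hgH⟩)
  intro j hj
  let e : {h // h ∈ H j} ↪ I := ⟨fun a => ⟨⟨j, by omega⟩, a⟩, by
    intro a b hab
    have h1 : (⟨⟨j, by omega⟩, a⟩ : I) = ⟨⟨j, by omega⟩, b⟩ := hab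
    exact eq_of_heq (Sigma.mk.inj_iff.1 h1).2⟩
  set S : Finset I := (univ : Finset {h // h ∈ H j}).map e with hS
  have hSc : S.card = 2 ^ l j := by
    rw [hS, card_map, card_univ, Fintype.card_coe, hcard]
  have hSm : ∀ i ∈ S, i.1.val = j := by
    intro i hi
    rw [hS, Finset.mem_map] at hi
    obtain ⟨a, _, rfl⟩ := hi
    rfl
  have hcnt : ∀ N : ℕ, (S.filter (fun i => (N + hh i).Prime)).card =
      ((H j).filter (fun a => (N + a).Prime)).card := by
    intro N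
    symm
    apply Finset.card_bij (fun a ha => (e ⟨a, (mem_filter.1 ha).1⟩))
    · intro a ha
      rw [mem_filter]
      refine ⟨?_, (mem_filter.1 ha).2⟩
      rw [hS]
      exact mem_map_of_mem e (mem_univ _)
    · intro a ha b hb hab
      exact congrArg Subtype.val (e.injective hab)
    · intro i hi
      rw [mem_filter, hS, Finset.mem_map] at hi
      obtain ⟨⟨a, _, rfl⟩, hp⟩ := hi
      exact ⟨a.val, mem_filter.2 ⟨a.2, hp⟩, rfl⟩
  have hpz := pz T μ hμ0 hμ1 S (fun i N => (N + hh i).Prime)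
    (c3ta l j * ((l j : ℝ) + 2) ^ 2) (by
      have := c3ta_pos l j
      positivity) (by
      rw [hSc]
      push_cast
      exact c3Y1 l j (hl j)) (by
      intro i hi
      have h1 := hlow i
      rw [hSm i hi] at h1
      exact h1) (by
      intro i hi i' hi' hii
      have h1 := hup {i, i'} (by simp)
      have h2 : ∏ k ∈ ({i, i'} : Finset I), ((({i, i'} : Finset I).card : ℝ) *
          (c3ta l k.1.val * ((l k.1.val : ℝ) + 2) ^ 2)) =
          4 * (c3ta l j * ((l j : ℝ) + 2) ^ 2) ^ 2 := by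
        rw [prod_pair hii, card_pair hii, hSm i hi, hSm i' hi']
        push_cast
        ring
      rw [h2] at h1
      have h3 : T.filter (fun N => ∀ k ∈ ({i, i'} : Finset I), (N + hh k).Prime) =
          T.filter (fun N => (N + hh i).Prime ∧ (N + hh i').Prime) := by
        apply filter_congr
        intro N _
        simp
      rw [h3] at h1
      linarith)
  have hpz2 : (1 / 10 ^ 23 : ℝ) ≤ ∑ N ∈ T.filter (fun N => (1 / 10 ^ 10) / 2 *
        ((2 : ℝ) ^ l j * (c3ta l j * ((l j : ℝ) + 2) ^ 2)) ≤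
          (((H j).filter (fun a => (N + a).Prime)).card : ℝ)), μ N := by
    refine hpz.trans (le_of_eq ?_)
    apply Finset.sum_congr _ (fun _ _ => rfl)
    apply filter_congr
    intro N _
    rw [hSc]
    have h5 := hcnt N
    constructor
    · intro h
      rw [← h5]
      push_cast at h
      exact h
    · intro h
      rw [← h5] at h
      push_cast
      exact h
  -- neighbours in the block
  set nb : ℕ → ℕ → Prop := fun a b => a < b ∧ ∀ z ∈ H j, ¬ (a < z ∧ z < b) with hnb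
  have hpair : ∀ a ∈ H j, ∀ b ∈ H j, a < b →
      ∑ N ∈ T.filter (fun N => (N + a).Prime ∧ (N + b).Prime), μ N ≤
        128 * (c3ta l j * ((l j : ℝ) + 2) ^ 2) ^ 2 := by
    intro a ha b hb hab
    have hne : e ⟨a, ha⟩ ≠ e ⟨b, hb⟩ := by
      intro h
      have := congrArg Subtype.val (e.injective h)
      simp only at this
      omega
    have h1 := hup {e ⟨a, ha⟩, e ⟨b, hb⟩} (by simp)
    have hm1 : (e ⟨a, ha⟩).1.val = j := rfl
    have hm2 : (e ⟨b, hb⟩).1.val = j := rfl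
    rw [prod_pair hne, card_pair hne, hm1, hm2] at h1
    refine (le_of_eq ?_).trans (h1.trans (le_of_eq ?_))
    · apply Finset.sum_congr _ (fun _ _ => rfl)
      apply filter_congr
      intro N _
      simp only [Finset.mem_insert, Finset.mem_singleton, forall_eq_or_imp, forall_eq]
      exact Iff.rfl
    · push_cast
      ring
  have hbadle : ∑ N ∈ T.filter (fun N => ∃ a ∈ H j, ∃ b ∈ H j, nb a b ∧
      (N + a).Prime ∧ (N + b).Prime), μ N ≤
      (2 : ℝ) ^ l j * (128 * (c3ta l j * ((l j : ℝ) + 2) ^ 2) ^ 2) := by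
    have h1 : ∀ a ∈ H j, ∑ N ∈ T.filter (fun N => ∃ b ∈ H j, nb a b ∧
        (N + a).Prime ∧ (N + b).Prime), μ N ≤ 128 * (c3ta l j * ((l j : ℝ) + 2) ^ 2) ^ 2 := by
      intro a ha
      by_cases hex : ∃ b ∈ H j, nb a b
      · obtain ⟨b, hb, hab⟩ := hex
        refine le_trans ?_ (hpair a ha b hb hab.1)
        refine Finset.sum_le_sum_of_subset_of_nonneg ?_ (fun _ _ _ => hμ0 _)
        intro N hN
        rw [mem_filter] at hN ⊢
        obtain ⟨hNT, b', hb', hab', hp1, hp2⟩ := hN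
        have hbb : b' = b := by
          rcases lt_trichotomy b' b with h | h | h
          · exact absurd ⟨hab'.1, h⟩ (hab.2 b' hb')
          · exact h
          · exact absurd ⟨hab.1, h⟩ (hab'.2 b hb)
        rw [hbb] at hp2
        exact ⟨hNT, hp1, hp2⟩
      · have h2 : T.filter (fun N => ∃ b ∈ H j, nb a b ∧ (N + a).Prime ∧ (N + b).Prime) = ∅ := by
          rw [Finset.filter_eq_empty_iff]
          rintro N _ ⟨b, hb, hab, _⟩
          exact hex ⟨b, hb, hab⟩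
        rw [h2, Finset.sum_empty]
        positivity
    calc ∑ N ∈ T.filter (fun N => ∃ a ∈ H j, ∃ b ∈ H j, nb a b ∧
          (N + a).Prime ∧ (N + b).Prime), μ N
        ≤ ∑ a ∈ H j, ∑ N ∈ T.filter (fun N => ∃ b ∈ H j, nb a b ∧
          (N + a).Prime ∧ (N + b).Prime), μ N := by
          rw [Finset.sum_filter]
          have h3 : ∀ a ∈ H j, ∑ N ∈ T.filter (fun N => ∃ b ∈ H j, nb a b ∧
              (N + a).Prime ∧ (N + b).Prime), μ N = ∑ N ∈ T, if (∃ b ∈ H j, nb a b ∧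
              (N + a).Prime ∧ (N + b).Prime) then μ N else 0 := fun a _ => Finset.sum_filter _ _
          rw [Finset.sum_congr rfl h3, Finset.sum_comm]
          refine Finset.sum_le_sum fun N _ => ?_
          by_cases h4 : ∃ a ∈ H j, ∃ b ∈ H j, nb a b ∧ (N + a).Prime ∧ (N + b).Prime
          · rw [if_pos h4]
            obtain ⟨a, ha, h5⟩ := h4
            have h6 : (if (∃ b ∈ H j, nb a b ∧ (N + a).Prime ∧ (N + b).Prime) then μ N else 0) ≤
                ∑ a ∈ H j, if (∃ b ∈ H j, nb a b ∧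
                  (N + a).Prime ∧ (N + b).Prime) then μ N else 0 := by
              refine Finset.single_le_sum (f := fun a => if (∃ b ∈ H j, nb a b ∧
                (N + a).Prime ∧ (N + b).Prime) then μ N else 0) (fun a _ => ?_) ha
              have := hμ0 N
              split_ifs
              · exact this
              · exact le_rfl
            rw [if_pos h5] at h6
            exact h6
          · rw [if_neg h4]
            refine Finset.sum_nonneg fun a _ => ?_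
            have := hμ0 N
            split_ifs
            · exact this
            · exact le_rfl
      _ ≤ ∑ a ∈ H j, 128 * (c3ta l j * ((l j : ℝ) + 2) ^ 2) ^ 2 := Finset.sum_le_sum h1
      _ = _ := by
          rw [Finset.sum_const, hcard, nsmul_eq_mul]
          push_cast
          rfl
  have hsmall := c3small l j (hl' j)
  have hsplit : ∑ N ∈ T.filter (fun N => (1 / 10 ^ 10) / 2 *
        ((2 : ℝ) ^ l j * (c3ta l j * ((l j : ℝ) + 2) ^ 2)) ≤
          (((H j).filter (fun a => (N + a).Prime)).card : ℝ)), μ N ≤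
      ∑ N ∈ T.filter (fun N => (1 / 10 ^ 10) / 2 *
        ((2 : ℝ) ^ l j * (c3ta l j * ((l j : ℝ) + 2) ^ 2)) ≤
          (((H j).filter (fun a => (N + a).Prime)).card : ℝ) ∧
          ∀ a ∈ H j, ∀ b ∈ H j, a < b → (∀ z ∈ H j, ¬ (a < z ∧ z < b)) →
            ¬ ((N + a).Prime ∧ (N + b).Prime)), μ N +
      ∑ N ∈ T.filter (fun N => ∃ a ∈ H j, ∃ b ∈ H j, nb a b ∧
      (N + a).Prime ∧ (N + b).Prime), μ N := by
    rw [Finset.sum_filter, Finset.sum_filter, Finset.sum_filter, ← Finset.sum_add_distrib]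
    refine Finset.sum_le_sum fun N _ => ?_
    have h0 := hμ0 N
    by_cases h6 : (1 / 10 ^ 10) / 2 * ((2 : ℝ) ^ l j * (c3ta l j * ((l j : ℝ) + 2) ^ 2)) ≤
          (((H j).filter (fun a => (N + a).Prime)).card : ℝ)
    · by_cases h7 : ∃ a ∈ H j, ∃ b ∈ H j, nb a b ∧ (N + a).Prime ∧ (N + b).Prime
      · rw [if_pos h6, if_pos h7]
        split_ifs <;> linarith
      · rw [if_pos h6, if_neg h7, if_pos ⟨h6, fun a ha b hb hab hz hp =>
          h7 ⟨a, ha, b, hb, ⟨hab, hz⟩, hp⟩⟩]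
        linarith
    · rw [if_neg h6]
      split_ifs <;> linarith
  have h8 : (1 / 10 ^ 24 : ℝ) + 9 / 10 ^ 24 ≤ 1 / 10 ^ 23 := by norm_num
  linarith

open Classical in
theorem core3n (H : ℕ → Finset ℕ) (l : ℕ → ℕ) (hcard : ∀ j, (H j).card = 2 ^ l j)
    (hdisj : ∀ i j, i ≠ j → Disjoint (H i) (H j)) (hl : ∀ j, 320 * 2 ^ j ≤ l j)
    (hadm : ∀ p : ℕ, p.Prime → ∃ a : ℕ, ∀ j, ∀ h ∈ H j, ¬ p ∣ a + h) :
    ∃ B : Set ℕ, (∀ a ∈ B, ∃ j, a ∈ H j) ∧ (∀ F : Finset ℕ, {N : ℕ | ∀ a ∈ F, (N + a).Prime ↔ a ∈ B}.Infinite) ∧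
      {j : ℕ | (1 / 10 ^ 12 : ℝ) * (l j / 2 ^ j) ≤ ((H j).filter (fun a => a ∈ B)).card ∧
        ∀ a ∈ H j, ∀ b ∈ H j, a < b → (∀ z ∈ H j, ¬ (a < z ∧ z < b)) →
          ¬ (a ∈ B ∧ b ∈ B)}.Infinite := by
  choose T μ hT hTk hμ0 hμ1 hE using c3step H l hcard hdisj hl hadm
  obtain ⟨E, hEdef⟩ : ∃ E : ℕ → Set ℕ, ∀ j N, N ∈ E j ↔ ((1 / 10 ^ 10) / 2 *
        ((2 : ℝ) ^ l j * (c3ta l j * ((l j : ℝ) + 2) ^ 2)) ≤
          (((H j).filter (fun a => (N + a).Prime)).card : ℝ) ∧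
          (∀ a ∈ H j, ∀ b ∈ H j, a < b → (∀ z ∈ H j, ¬ (a < z ∧ z < b)) →
            ¬ ((N + a).Prime ∧ (N + b).Prime)) ∧ ∀ g ≤ j, (∀ i, g ∉ H i) → ¬ (N + g).Prime) :=
      ⟨fun j => {N : ℕ | (1 / 10 ^ 10) / 2 *
        ((2 : ℝ) ^ l j * (c3ta l j * ((l j : ℝ) + 2) ^ 2)) ≤
          (((H j).filter (fun a => (N + a).Prime)).card : ℝ) ∧
          (∀ a ∈ H j, ∀ b ∈ H j, a < b → (∀ z ∈ H j, ¬ (a < z ∧ z < b)) →
            ¬ ((N + a).Prime ∧ (N + b).Prime)) ∧ ∀ g ≤ j, (∀ i, g ∉ H i) → ¬ (N + g).Prime},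
        fun _ _ => Iff.rfl⟩
  obtain ⟨V, hV, hinf⟩ := lim_ultra T μ hT hμ0 hμ1 E (1 / 10 ^ 24) (by positivity) (by
    intro n j hj
    refine (hE n j hj).trans (le_of_eq ?_)
    refine Finset.sum_congr ?_ (fun _ _ => rfl)
    ext N
    rw [mem_filter, mem_filter, hEdef]
    constructor
    · rintro ⟨h1, h2, h3⟩
      exact ⟨h1, h2, h3, fun g hg hgH => hTk n N h1 g (hg.trans hj) hgH⟩
    · rintro ⟨h1, h2, h3, _⟩
      exact ⟨h1, h2, h3⟩)
  set B : Set ℕ := {a | {N : ℕ | (N + a).Prime} ∈ V} with hB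
  have hVinf : ∀ X : Set ℕ, X ∈ V → X.Infinite := by
    intro X hX hfin
    have h1 : Xᶜ ∈ (V : Filter ℕ) := hV (by
      rw [Filter.mem_cofinite, compl_compl]
      exact hfin)
    exact (Ultrafilter.compl_mem_iff_notMem.1 h1) hX
  set G : ℕ → Set ℕ := fun a => {N : ℕ | (N + a).Prime ↔ a ∈ B} with hG
  have hGV : ∀ a, G a ∈ (V : Filter ℕ) := by
    intro a
    by_cases hab : a ∈ B
    · have h1 : {N : ℕ | (N + a).Prime} ∈ (V : Filter ℕ) := hab
      filter_upwards [h1] with N hN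
      exact ⟨fun _ => hab, fun _ => hN⟩
    · have h1 : {N : ℕ | (N + a).Prime}ᶜ ∈ (V : Filter ℕ) :=
        Ultrafilter.compl_mem_iff_notMem.2 hab
      filter_upwards [h1] with N hN
      exact ⟨fun h => absurd h hN, fun h => absurd h hab⟩
  refine ⟨B, ?_, ?_, ?_⟩
  · intro a ha
    by_contra hcon
    push Not at hcon
    obtain ⟨j, hj, haj⟩ := hinf.exists_gt a
    have h1 : E j ∩ {N : ℕ | (N + a).Prime} ∈ (V : Filter ℕ) := Filter.inter_mem hj ha
    obtain ⟨N, hN1, hN2⟩ := Filter.nonempty_of_mem h1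
    exact ((hEdef j N).1 hN1).2.2 a haj.le hcon hN2
  · intro F
    apply hVinf
    have h1 : (⋂ a ∈ F, G a) ∈ (V : Filter ℕ) := (Filter.biInter_finset_mem F).2 (fun a _ => hGV a)
    refine Filter.mem_of_superset h1 ?_
    intro N hN a ha
    rw [Set.mem_iInter₂] at hN
    exact hN a ha
  · refine hinf.mono ?_
    intro j hj
    have hj : E j ∈ V := hj
    rw [Set.mem_ofPred_eq]
    have hcap : E j ∩ ⋂ a ∈ H j, G a ∈ (V : Filter ℕ) :=
      Filter.inter_mem hj ((Filter.biInter_finset_mem (H j)).2 (fun a _ => hGV a))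
    obtain ⟨N, hN1, hN2⟩ := Filter.nonempty_of_mem hcap
    rw [Set.mem_iInter₂] at hN2
    have hfil : ∀ inst : DecidablePred (fun a => a ∈ B), @Finset.filter ℕ (fun a => a ∈ B) inst
        (H j) = (H j).filter (fun a => (N + a).Prime) := by
      intro inst
      apply filter_congr
      intro a ha
      exact (hN2 a ha).symm
    obtain ⟨hN1, haN, _⟩ := (hEdef j N).1 hN1
    refine ⟨?_, fun a ha b hb hab hz h =>
      haN a ha b hb hab hz ⟨(hN2 a ha).2 h.1, (hN2 b hb).2 h.2⟩⟩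
    rw [hfil]
    have h2 : (1 / 10 ^ 10) / 2 * ((2 : ℝ) ^ l j * (c3ta l j * ((l j : ℝ) + 2) ^ 2)) ≤
          (((H j).filter (fun a => (N + a).Prime)).card : ℝ) := hN1
    refine le_trans ?_ h2
    have h3 := c3Y l j
    have h4 : c3be j * (l j) = (1 / 20) * (l j / 2 ^ j) := by
      unfold c3be
      rw [one_div, one_div, inv_pow]
      ring
    have h5 := c3be_pos j
    have h6 : (0 : ℝ) ≤ l j / 2 ^ j := by positivity
    have h7 : c3be j * ((l j : ℝ) + 1) = (1 / 20) * (l j / 2 ^ j) + c3be j := by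
      rw [← h4]
      ring
    rw [h7] at h3
    have h8 : (1 / 10 ^ 12 : ℝ) * (l j / 2 ^ j) ≤
        (1 / 10 ^ 10) / 2 * ((1 / 20) * (l j / 2 ^ j)) := by
      have h9 : (1 / 10 ^ 10) / 2 * ((1 / 20) * (l j / 2 ^ j)) =
          (1 / (4 * 10 ^ 11) : ℝ) * (l j / 2 ^ j) := by ring
      rw [h9]
      apply mul_le_mul_of_nonneg_right _ h6
      norm_num
    refine h8.trans ?_
    apply mul_le_mul_of_nonneg_left _ (by norm_num)
    linarith

end Pool.Agent.H92.BH
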