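import Pool.Agent.H92.BH.RUd

/-!
MP_8923e7_nt, theorem T2 with exact patterns.  Stages for a general predicate on finite sets.
-/

namespace Pool.Agent.H92.BH

open Filter

/-- the stages of the coinductive notion of a richly extendable finite set -/
def Sg (P : Finset ℕ → Prop) (α : Ordinal.{0}) (F : Finset ℕ) : Prop :=
  P F ∧ ∀ β : Ordinal.{0}, ∀ _h : β < α, UD {y | Sg P β (insert y F)}
termination_by α

lemma Sg_iff (P : Finset ℕ → Prop) (α : Ordinal.{0}) (F : Finset ℕ) :
    Sg P α F ↔ P F ∧ ∀ β < α, UD {y | Sg P β (insert y F)} := by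
  rw [Sg]

lemma Sg_anti (P : Finset ℕ → Prop) {α β : Ordinal.{0}} (h : β ≤ α) {F : Finset ℕ}
    (hF : Sg P α F) : Sg P β F := by
  rw [Sg_iff] at hF ⊢
  exact ⟨hF.1, fun γ hγ => hF.2 γ (hγ.trans_le h)⟩

/-- a set which survives all stages lies in a family closed under extensions of positive upper density -/
lemma fam_of_Sg (P : Finset ℕ → Prop) (F₀ : Finset ℕ) (hh : ∀ α, Sg P α F₀) :
    ∃ 𝓕 : Set (Finset ℕ), F₀ ∈ 𝓕 ∧ ∀ F ∈ 𝓕, P F ∧ UD {y | insert y F ∈ 𝓕} := by
  classical
  have hst : ∃ α₀ : Ordinal.{0}, ∀ F : Finset ℕ, Sg P α₀ F → ∀ α, Sg P α F := by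
    let f : Finset ℕ → Ordinal.{0} := fun F => if hF : ∃ α, ¬ Sg P α F then hF.choose else 0
    refine ⟨⨆ F, f F, fun F hF α => ?_⟩
    by_contra hnot
    have hex : ∃ α, ¬ Sg P α F := ⟨α, hnot⟩
    have h1 : f F = hex.choose := dif_pos hex
    have h2 : f F ≤ ⨆ F, f F := Ordinal.le_iSup f F
    have h3 := Sg_anti P h2 hF
    rw [h1] at h3
    exact hex.choose_spec h3
  obtain ⟨α₀, hα₀⟩ := hst
  refine ⟨{F | Sg P α₀ F}, hh α₀, fun F hF => ?_⟩
  have h1 := (Sg_iff P _ _).mp (hα₀ F hF (Order.succ α₀))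
  exact ⟨h1.1, h1.2 α₀ (Order.lt_succ α₀)⟩

/-- translation -/
lemma Sg_shift (P P' : Finset ℕ → Prop)
    (x : ℕ) (hP : ∀ F : Finset ℕ, P' (F.image (fun a => a + x)) → P F) (α : Ordinal.{0}) :
    ∀ F : Finset ℕ, Sg P' α (F.image (fun a => a + x)) → Sg P α F := by
  induction α using WellFoundedLT.induction with
  | _ α ih =>
    intro F hF
    rw [Sg_iff] at hF ⊢
    refine ⟨hP F hF.1, fun β hβ => ?_⟩
    have h1 := UD_shift' x (hF.2 β hβ)
    refine UD_mono ?_ h1
    intro y hy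
    have hy : Sg P' β (insert (y + x) (F.image (fun a => a + x))) := hy
    refine ih β hβ (insert y F) ?_
    rw [Finset.image_insert]
    exact hy

/-- all patterns on `F`, with nothing else in `[x, y]`, are realised infinitely often by the primes of
colour `i` -/
def ShX {r : ℕ} (c : ℕ → Fin r) (i : Fin r) (x y : ℕ) (F : Finset ℕ) : Prop :=
  ∀ F' : Finset ℕ, F' ⊆ F →
    {N : ℕ | ∀ a, (a ∈ F ∨ (x ≤ a ∧ a ≤ y)) →
      (((N + a).Prime ∧ c (N + a) = i) ↔ a ∈ F')}.Infinite

lemma ShX_shift {r : ℕ} (c : ℕ → Fin r) (i : Fin r) (s x y : ℕ) (F : Finset ℕ)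
    (hF : ShX c i (x + s) (y + s) (F.image (fun a => a + s))) : ShX c i x y F := by
  classical
  intro F' hF'
  refine Set.infinite_of_injOn_mapsTo (f := fun N => N + s)
    (fun a _ b _ hab => Nat.add_right_cancel hab) ?_
    (hF (F'.image (fun a => a + s)) (Finset.image_subset_image hF'))
  intro N hN a ha
  have h2 := hN (a + s) (ha.imp (fun h => Finset.mem_image_of_mem _ h) (fun h => by omega))
  have h3 : N + (a + s) = N + s + a := by ring
  rw [h3] at h2
  refine h2.trans ?_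
  rw [Finset.mem_image]
  constructor
  · rintro ⟨b, hb, hbx⟩
    have : b = a := Nat.add_right_cancel hbx
    rw [← this]
    exact hb
  · exact fun h => ⟨a, h, rfl⟩

/-- `{0, h}` belongs to a family of finite sets, all exact patterns on which, with nothing else in `[0, h]`,
occur infinitely often for the primes of colour `i`, and each of which has extensions by a set of positive
upper density -/
def FamSh {r : ℕ} (c : ℕ → Fin r) (h : ℕ) : Prop :=
  ∃ (i : Fin r) (𝓕 : Set (Finset ℕ)), {0, h} ∈ 𝓕 ∧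
    ∀ F ∈ 𝓕, ShX c i 0 h F ∧ UD {y | insert y F ∈ 𝓕}

/-- the differences without such a family, with sign -/
def badX {r : ℕ} (c : ℕ → Fin r) : Set ℤ := {d | d ≠ 0 ∧ ¬ FamSh c d.natAbs}

end Pool.Agent.H92.BH
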