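import Pool.Agent.H92.BH.XRam

/-!
[H92 BH XFUSE]  Fusion with pairs in one block.
-/

namespace Pool.Agent.H92.BH

/-- `J` has arbitrarily large intersections with the blocks -/
def Lrg (H : ℕ → Finset ℕ) (J : Set ℕ) : Prop :=
  ∀ K : ℕ, ∃ j, K ≤ j ∧ ∃ X : Finset ℕ, X ⊆ H j ∧ ↑X ⊆ J ∧ K ≤ X.card

/-- in, out, in, out on `J` in the block `j` -/
def Alt (H : ℕ → Finset ℕ) (ω J : Set ℕ) (j : ℕ) : Prop :=
  ∃ x1 x2 x3 x4 : ℕ, x1 < x2 ∧ x2 < x3 ∧ x3 < x4 ∧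
    (x1 ∈ H j ∧ x2 ∈ H j ∧ x3 ∈ H j ∧ x4 ∈ H j) ∧ (x1 ∈ J ∧ x2 ∈ J ∧ x3 ∈ J ∧ x4 ∈ J) ∧
    x1 ∈ ω ∧ x2 ∉ ω ∧ x3 ∈ ω ∧ x4 ∉ ω

/-- this happens in infinitely many blocks -/
def PP (H : ℕ → Finset ℕ) (ω J : Set ℕ) : Prop := ∀ m : ℕ, ∃ j, m ≤ j ∧ Alt H ω J j

/-- every pattern on `s`, with nothing in `U`, is compatible with splitting all large subsets of `J` -/
def GoodP (H : ℕ → Finset ℕ) (Ω : Set (Set ℕ)) (U s : Finset ℕ) (J : Set ℕ) : Prop :=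
  ∀ F : Finset ℕ, F ⊆ s → ∀ J' : Set ℕ, J' ⊆ J → Lrg H J' →
    ∃ ω ∈ Ω, (∀ a ∈ s, a ∈ ω ↔ a ∈ F) ∧ (∀ a ∈ U, a ∉ ω) ∧ PP H ω J'

lemma Alt_mono {H : ℕ → Finset ℕ} {ω J J' : Set ℕ} {j : ℕ} (h : J' ⊆ J) (hA : Alt H ω J' j) :
    Alt H ω J j := by
  obtain ⟨x1, x2, x3, x4, h1, h2, h3, h4, ⟨a1, a2, a3, a4⟩, h5⟩ := hA
  exact ⟨x1, x2, x3, x4, h1, h2, h3, h4, ⟨h a1, h a2, h a3, h a4⟩, h5⟩

lemma PP_mono {H : ℕ → Finset ℕ} {ω J J' : Set ℕ} (h : J' ⊆ J) (hA : PP H ω J') : PP H ω J := by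
  intro m
  obtain ⟨j, hj, hj2⟩ := hA m
  exact ⟨j, hj, Alt_mono h hj2⟩

lemma Lrg_cut {H : ℕ → Finset ℕ} (hdisj : ∀ i j, i ≠ j → Disjoint (H i) (H j)) {J : Set ℕ}
    (hJ : Lrg H J) (m : ℕ) : Lrg H (J ∩ {x | ∀ i ≤ m, x ∉ H i}) := by
  intro K
  obtain ⟨j, hj, X, hX1, hX2, hX3⟩ := hJ (max K (m + 1))
  refine ⟨j, (le_max_left _ _).trans hj, X, hX1, ?_, (le_max_left _ _).trans hX3⟩
  intro x hx
  refine ⟨hX2 hx, fun i hi hxi => ?_⟩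
  have h1 : m + 1 ≤ j := (le_max_right _ _).trans hj
  exact Finset.disjoint_left.mp (hdisj i j (by omega)) hxi (hX1 hx)

lemma shrink {H : ℕ → Finset ℕ} (Ω : Set (Set ℕ)) (s : Finset ℕ) (J : Set ℕ)
    (Uf : ℕ × ℕ → Finset ℕ) (E : Finset (ℕ × ℕ))
    (hE : ∀ e ∈ E, ∀ K ⊆ J, Lrg H K → ¬ GoodP H Ω (Uf e) (s ∪ {e.1, e.2}) K) :
    ∀ K ⊆ J, Lrg H K → ∃ K' ⊆ K, Lrg H K' ∧ ∃ F : ℕ × ℕ → Finset ℕ, ∀ e ∈ E,
      F e ⊆ s ∪ {e.1, e.2} ∧ ¬ ∃ ω ∈ Ω, (∀ a ∈ s ∪ {e.1, e.2}, a ∈ ω ↔ a ∈ F e) ∧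
        (∀ a ∈ Uf e, a ∉ ω) ∧ PP H ω K' := by
  classical
  induction E using Finset.induction_on with
  | empty =>
    intro K _ hK
    exact ⟨K, subset_rfl, hK, fun _ => ∅, by simp⟩
  | insert e E he ih =>
    intro K hKJ hK
    obtain ⟨K₁, hK₁K, hK₁, F, hF⟩ := ih (fun e' he' => hE e' (Finset.mem_insert_of_mem he')) K hKJ hK
    have hbad := hE e (Finset.mem_insert_self _ _) K₁ (hK₁K.trans hKJ) hK₁
    unfold GoodP at hbad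
    push Not at hbad
    obtain ⟨F₀, hF₀, K₂, hK₂, hK₂L, hno⟩ := hbad
    refine ⟨K₂, hK₂.trans hK₁K, hK₂L, Function.update F e F₀, ?_⟩
    intro e' he'
    by_cases h : e' = e
    · subst h
      rw [Function.update_self]
      refine ⟨hF₀, ?_⟩
      rintro ⟨ω, hω, h1, h2, h3⟩
      exact hno ω hω h1 h2 h3
    · rw [Function.update_of_ne h]
      have hF' := hF e' ((Finset.mem_insert.mp he').resolve_left h)
      refine ⟨hF'.1, ?_⟩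
      rintro ⟨ω, hω, h1, h2, h3⟩
      exact hF'.2 ⟨ω, hω, h1, h2, PP_mono hK₂ h3⟩

lemma stage {H : ℕ → Finset ℕ} (hdisj : ∀ i j, i ≠ j → Disjoint (H i) (H j))
    (Ω : Set (Set ℕ)) (s : Finset ℕ) (J : Set ℕ) (Uf : ℕ × ℕ → Finset ℕ)
    (hbad : ∀ j, ∀ x ∈ H j, ∀ y ∈ H j, x ∈ J → y ∈ J → x < y → ∀ K ⊆ J, Lrg H K →
      ¬ GoodP H Ω (Uf (x, y)) (s ∪ {x, y}) K) (K : Set ℕ) (hKJ : K ⊆ J) (hK : Lrg H K) (n : ℕ) :
    ∃ (j : ℕ) (X : Finset ℕ) (K' : Set ℕ) (τ : Finset ℕ × Bool × Bool), n ≤ j ∧ X ⊆ H j ∧ ↑X ⊆ K ∧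
      n ≤ X.card ∧ K' ⊆ K ∧ Lrg H K' ∧ (∀ x ∈ K', ∀ i ≤ j, x ∉ H i) ∧ τ.1 ⊆ s ∧
      ∀ x ∈ X, ∀ y ∈ X, x < y → ¬ ∃ ω ∈ Ω, (∀ a ∈ s, a ∈ ω ↔ a ∈ τ.1) ∧
        (x ∈ ω ↔ τ.2.1 = true) ∧ (y ∈ ω ↔ τ.2.2 = true) ∧ (∀ a ∈ Uf (x, y), a ∉ ω) ∧
        PP H ω K' := by
  classical
  obtain ⟨M, hM⟩ := ramsey_pairs (s.powerset ×ˢ (Finset.univ : Finset (Bool × Bool))) n
  obtain ⟨j, hj, X₀, hX₀H, hX₀K, hX₀c⟩ := hK (max n M)
  obtain ⟨K₁, hK₁K, hK₁, F, hF⟩ := shrink Ω s J Uf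
    ((X₀ ×ˢ X₀).filter (fun p => p.1 < p.2)) (by
      intro p hp K' hK' hK'L
      obtain ⟨hp1, hp2⟩ := Finset.mem_filter.mp hp
      obtain ⟨hp3, hp4⟩ := Finset.mem_product.mp hp1
      exact hbad j p.1 (hX₀H hp3) p.2 (hX₀H hp4) (hKJ (hX₀K hp3)) (hKJ (hX₀K hp4)) hp2 K' hK' hK'L)
    K hKJ hK
  obtain ⟨X, hXX₀, hXc, τ, hτ, hXτ⟩ := hM X₀ ((le_max_right _ _).trans hX₀c)
    (fun x y => (F (x, y) ∩ s, decide (x ∈ F (x, y)), decide (y ∈ F (x, y)))) (by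
      intro x y
      rw [Finset.mem_product]
      exact ⟨Finset.mem_powerset.mpr Finset.inter_subset_right, Finset.mem_univ _⟩)
  refine ⟨j, X, K₁ ∩ {x | ∀ i ≤ j, x ∉ H i}, τ, (le_max_left _ _).trans hj, hXX₀.trans hX₀H,
    ?_, hXc, Set.inter_subset_left.trans hK₁K, Lrg_cut hdisj hK₁ j, fun x hx => hx.2,
    Finset.mem_powerset.mp (Finset.mem_product.mp hτ).1, ?_⟩
  · intro x hx
    exact hX₀K (hXX₀ hx)
  · intro x hx y hy hxy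
    have hχ := hXτ x hx y hy hxy
    have hFxy := hF (x, y) (Finset.mem_filter.mpr
      ⟨Finset.mem_product.mpr ⟨hXX₀ hx, hXX₀ hy⟩, hxy⟩)
    rintro ⟨ω, hω, h1, h2, h3, h5, h4⟩
    rw [← hχ] at h1 h2 h3
    simp only [decide_eq_true_eq] at h2 h3
    refine hFxy.2 ⟨ω, hω, ?_, h5, PP_mono Set.inter_subset_left h4⟩
    intro a ha
    rcases Finset.mem_union.mp ha with ha | ha
    · rw [h1 a ha, Finset.mem_inter]
      exact ⟨fun h => h.1, fun h => ⟨h, ha⟩⟩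
    · rcases Finset.mem_insert.mp ha with rfl | ha
      · exact h2
      · rw [Finset.mem_singleton.mp ha]
        exact h3

/-- if all pairs are bad there is a homogeneous sequence of bad blocks -/
theorem bad_seq {H : ℕ → Finset ℕ} (hdisj : ∀ i j, i ≠ j → Disjoint (H i) (H j))
    (Ω : Set (Set ℕ)) (s : Finset ℕ) (J : Set ℕ) (hJ : Lrg H J) (Uf : ℕ × ℕ → Finset ℕ)
    (hbad : ∀ j, ∀ x ∈ H j, ∀ y ∈ H j, x ∈ J → y ∈ J → x < y → ∀ K ⊆ J, Lrg H K →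
      ¬ GoodP H Ω (Uf (x, y)) (s ∪ {x, y}) K) :
    ∃ (j : ℕ → ℕ) (X : ℕ → Finset ℕ) (K : ℕ → Set ℕ) (τ : Finset ℕ × Bool × Bool) (I : Set ℕ),
      I.Infinite ∧ (∀ n m, n < m → j n < j m) ∧ (∀ n, n ≤ j n) ∧ (∀ n, X n ⊆ H (j n)) ∧
      (∀ n, n ≤ (X n).card) ∧ (∀ n m, n ≤ m → ↑(X m) ⊆ K n) ∧ (∀ n, K n ⊆ J) ∧ τ.1 ⊆ s ∧
      ∀ n ∈ I, ∀ x ∈ X n, ∀ y ∈ X n, x < y → ¬ ∃ ω ∈ Ω, (∀ a ∈ s, a ∈ ω ↔ a ∈ τ.1) ∧
        (x ∈ ω ↔ τ.2.1 = true) ∧ (y ∈ ω ↔ τ.2.2 = true) ∧ (∀ a ∈ Uf (x, y), a ∉ ω) ∧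
        PP H ω (K (n + 1)) := by
  classical
  have hst := fun (K : {K : Set ℕ // K ⊆ J ∧ Lrg H K}) (n : ℕ) =>
    stage hdisj Ω s J Uf hbad K.1 K.2.1 K.2.2 n
  choose jf Xf Kf τf h1 h2 h3 h4 h5 h6 h7 h8 h9 using hst
  let K : ℕ → {K : Set ℕ // K ⊆ J ∧ Lrg H K} := fun n =>
    Nat.rec ⟨J, subset_rfl, hJ⟩ (fun n K => ⟨Kf K n, (h5 K n).trans K.2.1, h6 K n⟩) n
  have hK : ∀ n, (K (n + 1)).1 = Kf (K n) n := fun n => rfl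
  have hmono : ∀ n m, n ≤ m → (K m).1 ⊆ (K n).1 := by
    intro n m hnm
    induction hnm with
    | refl => exact subset_rfl
    | step _ ih =>
      refine Set.Subset.trans ?_ ih
      rw [Nat.succ_eq_add_one, hK]
      exact h5 _ _
  obtain ⟨j, hj⟩ : ∃ j : ℕ → ℕ, ∀ n, j n = jf (K n) n := ⟨fun n => jf (K n) n, fun _ => rfl⟩
  obtain ⟨X, hX⟩ : ∃ X : ℕ → Finset ℕ, ∀ n, X n = Xf (K n) n := ⟨fun n => Xf (K n) n, fun _ => rfl⟩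
  obtain ⟨τ, hτ⟩ : ∃ τ : ℕ → Finset ℕ × Bool × Bool, ∀ n, τ n = τf (K n) n :=
    ⟨fun n => τf (K n) n, fun _ => rfl⟩
  have hXH : ∀ n, X n ⊆ H (j n) := fun n => by rw [hX, hj]; exact h2 _ _
  have hXK : ∀ n, ↑(X n) ⊆ (K n).1 := fun n => by rw [hX]; exact h3 _ _
  have hXc : ∀ n, n ≤ (X n).card := fun n => by rw [hX]; exact h4 _ _
  have hnj : ∀ n, n ≤ j n := fun n => by rw [hj]; exact h1 _ _
  have hXn : ∀ n, 1 ≤ n → (X n).Nonempty := fun n hn =>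
    Finset.card_pos.mp (lt_of_lt_of_le (by omega) (hXc n))
  have hjlt : ∀ n m, n < m → j n < j m := by
    intro n m hnm
    obtain ⟨x, hx⟩ := hXn m (by omega)
    have hx1 : x ∈ Kf (K n) n := by
      rw [← hK]
      exact hmono (n + 1) m hnm (hXK m hx)
    by_contra hle
    have hle : j m ≤ j n := not_lt.mp hle
    rw [hj n] at hle
    exact h7 (K n) n x hx1 (j m) hle (hXH m hx)
  -- pigeonhole
  have hτS : ∀ n, τ n ∈ s.powerset ×ˢ (Finset.univ : Finset (Bool × Bool)) := by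
    intro n
    rw [Finset.mem_product, hτ]
    exact ⟨Finset.mem_powerset.mpr (h8 _ _), Finset.mem_univ _⟩
  obtain ⟨⟨τ₀, hτ₀⟩, hinf⟩ := Finite.exists_infinite_fiber
    (fun n : ℕ => (⟨τ n, hτS n⟩ : {t // t ∈ s.powerset ×ˢ (Finset.univ : Finset (Bool × Bool))}))
  have hI : {n : ℕ | τ n = τ₀}.Infinite := by
    have := Set.infinite_coe_iff.mp hinf
    refine this.mono ?_
    intro n hn
    exact congrArg Subtype.val (Set.mem_singleton_iff.mp hn)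
  refine ⟨j, X, fun n => (K n).1, τ₀, {n : ℕ | τ n = τ₀}, hI, hjlt, hnj, hXH, hXc,
    fun n m hnm => (hXK m).trans (hmono n m hnm), fun n => (K n).2.1,
    Finset.mem_powerset.mp (Finset.mem_product.mp hτ₀).1, ?_⟩
  intro n hn x hx y hy hxy
  have hn : τ n = τ₀ := hn
  rw [hX] at hx hy
  rw [hτ] at hn
  rw [← hn]
  exact h9 (K n) n x hx y hy hxy

/-- the union of the chosen blocks -/
private lemma union_lrg {H : ℕ → Finset ℕ} {j : ℕ → ℕ} {X : ℕ → Finset ℕ} {I : Set ℕ}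
    (hI : I.Infinite) (hnj : ∀ n, n ≤ j n) (hXH : ∀ n, X n ⊆ H (j n)) (hXc : ∀ n, n ≤ (X n).card) :
    Lrg H {x | ∃ n ∈ I, x ∈ X n} := by
  intro m
  obtain ⟨n, hn, hmn⟩ := hI.exists_gt m
  exact ⟨j n, hmn.le.trans (hnj n), X n, hXH n, fun x hx => ⟨n, hn, hx⟩, hmn.le.trans (hXc n)⟩

private lemma in_block {H : ℕ → Finset ℕ} (hdisj : ∀ i j, i ≠ j → Disjoint (H i) (H j))
    {j : ℕ → ℕ} {X : ℕ → Finset ℕ} {I : Set ℕ} (hjlt : ∀ n m, n < m → j n < j m)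
    (hXH : ∀ n, X n ⊆ H (j n)) {n x : ℕ} (hx : x ∈ {x | ∃ n ∈ I, x ∈ X n}) (hxn : x ∈ H (j n)) :
    x ∈ X n := by
  obtain ⟨n', _, hx'⟩ := hx
  rcases lt_trichotomy n' n with h | h | h
  · have h1 := hjlt n' n h
    exact absurd hxn (Finset.disjoint_left.mp (hdisj _ _ h1.ne) (hXH n' hx'))
  · rw [← h]
    exact hx'
  · have h1 := hjlt n n' h
    exact absurd hxn (Finset.disjoint_left.mp (hdisj _ _ h1.ne') (hXH n' hx'))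

private lemma pp_later {H : ℕ → Finset ℕ} (hdisj : ∀ i j, i ≠ j → Disjoint (H i) (H j))
    {j : ℕ → ℕ} {X : ℕ → Finset ℕ} {K : ℕ → Set ℕ} {I : Set ℕ} (hjlt : ∀ n m, n < m → j n < j m)
    (hXH : ∀ n, X n ⊆ H (j n)) (hXK : ∀ n m, n ≤ m → ↑(X m) ⊆ K n) {ω : Set ℕ}
    (hP : PP H ω {x | ∃ n ∈ I, x ∈ X n}) (n : ℕ) : PP H ω (K (n + 1)) := by
  intro m'
  obtain ⟨j', hj', y1, y2, y3, y4, p1, p2, p3, ⟨q1, q2, q3, q4⟩, ⟨r1, r2, r3, r4⟩, o⟩ :=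
    hP (max m' (j n + 1))
  have hj'n : j n < j' := lt_of_lt_of_le (Nat.lt_succ_self _) ((le_max_right _ _).trans hj')
  have hmem : ∀ y ∈ {x | ∃ n ∈ I, x ∈ X n}, y ∈ H j' → y ∈ K (n + 1) := by
    rintro y ⟨n', hn', hyn'⟩ hyj
    have hn'j : j n' = j' := by
      by_contra hne
      exact Finset.disjoint_left.mp (hdisj _ _ hne) (hXH n' hyn') hyj
    have hlt : n < n' := by
      by_contra hle
      rcases Nat.lt_or_eq_of_le (not_lt.mp hle) with h | h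
      · have := hjlt n' n h
        omega
      · rw [h] at hn'j
        omega
    exact hXK (n + 1) n' hlt hyn'
  exact ⟨j', (le_max_left _ _).trans hj', y1, y2, y3, y4, p1, p2, p3, ⟨q1, q2, q3, q4⟩,
    ⟨hmem y1 r1 q1, hmem y2 r2 q2, hmem y3 r3 q3, hmem y4 r4 q4⟩, o⟩

/-- the first pair: nothing between its two elements -/
theorem pair_first {H : ℕ → Finset ℕ} (hinc : ∀ i j, i < j → ∀ x ∈ H i, ∀ y ∈ H j, x < y)
    (Ω : Set (Set ℕ)) (J : Set ℕ) (hJ : Lrg H J)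
    (hΩ : ∀ J' ⊆ J, Lrg H J' → ∃ ω ∈ Ω, ω ⊆ J' ∧ PP H ω J') :
    ∃ j, ∃ x ∈ H j, ∃ y ∈ H j, x ∈ J ∧ y ∈ J ∧ x < y ∧ ∃ J' ⊆ J, Lrg H J' ∧
      (∀ z ∈ J', ∀ i ≤ j, z ∉ H i) ∧ GoodP H Ω (Finset.Ioo x y) {x, y} J' := by
  classical
  have hdisj : ∀ i j, i ≠ j → Disjoint (H i) (H j) := by
    intro i j hij
    rw [Finset.disjoint_left]
    intro x hx hx'
    rcases lt_or_gt_of_ne hij with h | h
    · exact lt_irrefl _ (hinc i j h x hx x hx')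
    · exact lt_irrefl _ (hinc j i h x hx' x hx)
  by_contra hcon
  have hbad : ∀ j, ∀ x ∈ H j, ∀ y ∈ H j, x ∈ J → y ∈ J → x < y → ∀ K ⊆ J, Lrg H K →
      ¬ GoodP H Ω ((fun p : ℕ × ℕ => Finset.Ioo p.1 p.2) (x, y)) (∅ ∪ {x, y}) K := by
    intro j x hx y hy hxJ hyJ hxy K hKJ hK hg
    rw [Finset.empty_union] at hg
    refine hcon ⟨j, x, hx, y, hy, hxJ, hyJ, hxy, K ∩ {x | ∀ i ≤ j, x ∉ H i},
      Set.inter_subset_left.trans hKJ, Lrg_cut hdisj hK j, fun z hz => hz.2, ?_⟩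
    intro F hF J' hJ' hJ'L
    exact hg F hF J' (hJ'.trans Set.inter_subset_left) hJ'L
  obtain ⟨j, X, K, τ, I, hI, hjlt, hnj, hXH, hXc, hXK, hKJ, hτs, hno⟩ :=
    bad_seq hdisj Ω ∅ J hJ (fun p : ℕ × ℕ => Finset.Ioo p.1 p.2) hbad
  have hXJ : {x | ∃ n ∈ I, x ∈ X n} ⊆ J := by
    rintro x ⟨n, _, hx⟩
    exact hKJ n (hXK n n le_rfl hx)
  obtain ⟨ω, hω, hωX, hωP⟩ := hΩ _ hXJ (union_lrg hI hnj hXH hXc)
  obtain ⟨m, -, x1, x2, x3, x4, l1, l2, l3, ⟨b1, b2, b3, b4⟩, ⟨a1, a2, a3, a4⟩, o1, o2, o3, o4⟩ :=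
    hωP 0
  obtain ⟨n, hn, c1⟩ := a1
  have hmn : j n = m := by
    by_contra hne
    exact Finset.disjoint_left.mp (hdisj _ _ hne) (hXH n c1) b1
  subst hmn
  have c2 := in_block hdisj hjlt hXH a2 b2
  have c3 := in_block hdisj hjlt hXH a3 b3
  have hbetween : ∀ x ∈ X n, ∀ y ∈ X n, ∀ z ∈ ω, x < z → z < y → z ∈ X n := by
    intro x hx y hy z hz hxz hzy
    obtain ⟨n', hn', hzn'⟩ := hωX hz
    rcases lt_trichotomy n' n with h | h | h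
    · have := hinc _ _ (hjlt n' n h) z (hXH n' hzn') x (hXH n hx)
      omega
    · rw [← h]
      exact hzn'
    · have := hinc _ _ (hjlt n n' h) y (hXH n hy) z (hXH n' hzn')
      omega
  have hfin : ∀ x ∈ X n, ∀ y ∈ X n, x < y → (x ∈ ω ↔ τ.2.1 = true) → (y ∈ ω ↔ τ.2.2 = true) →
      (∀ z ∈ X n, x < z → z < y → z ∉ ω) → False := by
    intro x hx y hy hxy hxω hyω hz
    refine hno n hn x hx y hy hxy ⟨ω, hω, by simp, hxω, hyω, ?_,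
      pp_later hdisj hjlt hXH hXK hωP n⟩
    intro a ha haω
    obtain ⟨h1, h2⟩ := Finset.mem_Ioo.mp ha
    exact hz a (hbetween x hx y hy a haω h1 h2) h1 h2 haω
  -- the last element of `ω` below `u` and the first one above `u`
  have hlast : ∀ u ∈ X n, (∃ x ∈ X n, x ∈ ω ∧ x < u) → ∃ x ∈ X n, x ∈ ω ∧ x < u ∧
      ∀ z ∈ X n, x < z → z < u → z ∉ ω := by
    rintro u hu ⟨x, hx, hxω, hxu⟩
    have hne : ((X n).filter (fun z => z ∈ ω ∧ z < u)).Nonempty :=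
      ⟨x, Finset.mem_filter.mpr ⟨hx, hxω, hxu⟩⟩
    obtain ⟨h1, h2, h3⟩ := Finset.mem_filter.mp (Finset.max'_mem _ hne)
    refine ⟨_, h1, h2, h3, ?_⟩
    intro z hz hz1 hz2 hzω
    have := Finset.le_max' ((X n).filter (fun z => z ∈ ω ∧ z < u)) z
      (Finset.mem_filter.mpr ⟨hz, hzω, hz2⟩)
    omega
  have hfirst : ∀ u ∈ X n, (∃ x ∈ X n, x ∈ ω ∧ u < x) → ∃ x ∈ X n, x ∈ ω ∧ u < x ∧
      ∀ z ∈ X n, u < z → z < x → z ∉ ω := by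
    rintro u hu ⟨x, hx, hxω, hxu⟩
    have hne : ((X n).filter (fun z => z ∈ ω ∧ u < z)).Nonempty :=
      ⟨x, Finset.mem_filter.mpr ⟨hx, hxω, hxu⟩⟩
    obtain ⟨h1, h2, h3⟩ := Finset.mem_filter.mp (Finset.min'_mem _ hne)
    refine ⟨_, h1, h2, h3, ?_⟩
    intro z hz hz1 hz2 hzω
    have := Finset.min'_le ((X n).filter (fun z => z ∈ ω ∧ u < z)) z
      (Finset.mem_filter.mpr ⟨hz, hzω, hz1⟩)
    omega
  rcases hb1 : τ.2.1 with _ | _ <;> rcases hb2 : τ.2.2 with _ | _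
  · -- out, out: delete one block
    obtain ⟨n₀, hn₀, hn₀2⟩ := hI.exists_gt 1
    have hI' : (I \ {n₀}).Infinite := hI.sdiff (Set.finite_singleton n₀)
    obtain ⟨ω', hω', hωX', hωP'⟩ := hΩ {x | ∃ n ∈ I \ {n₀}, x ∈ X n} (by
      rintro x ⟨n, _, hx⟩
      exact hKJ n (hXK n n le_rfl hx)) (union_lrg hI' hnj hXH hXc)
    have hout : ∀ z ∈ X n₀, z ∉ ω' := by
      intro z hz hzω
      obtain ⟨n', hn', hzn'⟩ := hωX' hzω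
      have hne : j n₀ ≠ j n' := by
        intro h
        rcases lt_trichotomy n₀ n' with h1 | h1 | h1
        · have := hjlt _ _ h1
          omega
        · exact hn'.2 (Set.mem_singleton_iff.mpr h1.symm)
        · have := hjlt _ _ h1
          omega
      exact Finset.disjoint_left.mp (hdisj _ _ hne) (hXH n₀ hz) (hXH n' hzn')
    obtain ⟨x, y, hx, hy, hxy⟩ : ∃ x y, x ∈ X n₀ ∧ y ∈ X n₀ ∧ x < y := by
      have h2 : 1 < (X n₀).card := lt_of_lt_of_le hn₀2 (hXc n₀)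
      obtain ⟨x, hx, y, hy, hxy⟩ := Finset.one_lt_card.mp h2
      rcases lt_or_gt_of_ne hxy with h | h
      · exact ⟨x, y, hx, hy, h⟩
      · exact ⟨y, x, hy, hx, h⟩
    refine hno n₀ hn₀ x hx y hy hxy ⟨ω', hω', by simp, by rw [hb1]; simp [hout x hx],
      by rw [hb2]; simp [hout y hy], ?_, pp_later hdisj hjlt hXH hXK hωP' n₀⟩
    intro a ha haω
    obtain ⟨h1, h2⟩ := Finset.mem_Ioo.mp ha
    obtain ⟨n', hn', han'⟩ := hωX' haω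
    rcases lt_trichotomy n' n₀ with h | h | h
    · have := hinc _ _ (hjlt n' n₀ h) a (hXH n' han') x (hXH n₀ hx)
      omega
    · exact hn'.2 (Set.mem_singleton_iff.mpr h)
    · have := hinc _ _ (hjlt n₀ n' h) y (hXH n₀ hy) a (hXH n' han')
      omega
  · -- out, in
    obtain ⟨y, hy, hyω, hxy, hz⟩ := hfirst x2 c2 ⟨x3, c3, o3, l2⟩
    exact hfin x2 c2 y hy hxy (by rw [hb1]; simp [o2]) (by rw [hb2]; simp [hyω]) hz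
  · -- in, out
    obtain ⟨x, hx, hxω, hxy, hz⟩ := hlast x2 c2 ⟨x1, c1, o1, l1⟩
    exact hfin x hx x2 c2 hxy (by rw [hb1]; simp [hxω]) (by rw [hb2]; simp [o2]) hz
  · -- in, in
    obtain ⟨x, hx, hxω, hxy, hz⟩ := hlast x3 c3 ⟨x1, c1, o1, l1.trans l2⟩
    exact hfin x hx x3 c3 hxy (by rw [hb1]; simp [hxω]) (by rw [hb2]; simp [o3]) hz

/-- the following pairs -/
theorem pair_next {H : ℕ → Finset ℕ} (hdisj : ∀ i j, i ≠ j → Disjoint (H i) (H j))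
    (Ω : Set (Set ℕ)) (U s : Finset ℕ) (J : Set ℕ) (hJ : Lrg H J) (hgood : GoodP H Ω U s J) :
    ∃ j, ∃ x ∈ H j, ∃ y ∈ H j, x ∈ J ∧ y ∈ J ∧ x < y ∧ ∃ J' ⊆ J, Lrg H J' ∧
      (∀ z ∈ J', ∀ i ≤ j, z ∉ H i) ∧ GoodP H Ω U (s ∪ {x, y}) J' := by
  classical
  by_contra hcon
  have hbad : ∀ j, ∀ x ∈ H j, ∀ y ∈ H j, x ∈ J → y ∈ J → x < y → ∀ K ⊆ J, Lrg H K →
      ¬ GoodP H Ω ((fun _ : ℕ × ℕ => U) (x, y)) (s ∪ {x, y}) K := by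
    intro j x hx y hy hxJ hyJ hxy K hKJ hK hg
    refine hcon ⟨j, x, hx, y, hy, hxJ, hyJ, hxy, K ∩ {x | ∀ i ≤ j, x ∉ H i},
      Set.inter_subset_left.trans hKJ, Lrg_cut hdisj hK j, fun z hz => hz.2, ?_⟩
    intro F hF J' hJ' hJ'L
    exact hg F hF J' (hJ'.trans Set.inter_subset_left) hJ'L
  obtain ⟨j, X, K, τ, I, hI, hjlt, hnj, hXH, hXc, hXK, hKJ, hτs, hno⟩ :=
    bad_seq hdisj Ω s J hJ (fun _ : ℕ × ℕ => U) hbad
  have hXJ : {x | ∃ n ∈ I, x ∈ X n} ⊆ J := by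
    rintro x ⟨n, _, hx⟩
    exact hKJ n (hXK n n le_rfl hx)
  obtain ⟨ω, hω, hωs, hωU, hωP⟩ := hgood τ.1 hτs _ hXJ (union_lrg hI hnj hXH hXc)
  obtain ⟨m, -, x1, x2, x3, x4, l1, l2, l3, ⟨b1, b2, b3, b4⟩, ⟨a1, a2, a3, a4⟩, o1, o2, o3, o4⟩ :=
    hωP 0
  obtain ⟨n, hn, c1⟩ := a1
  have hmn : j n = m := by
    by_contra hne
    exact Finset.disjoint_left.mp (hdisj _ _ hne) (hXH n c1) b1
  subst hmn
  have c2 := in_block hdisj hjlt hXH a2 b2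
  have c3 := in_block hdisj hjlt hXH a3 b3
  have c4 := in_block hdisj hjlt hXH a4 b4
  have hfin : ∀ x ∈ X n, ∀ y ∈ X n, x < y → (x ∈ ω ↔ τ.2.1 = true) → (y ∈ ω ↔ τ.2.2 = true) →
      False := by
    intro x hx y hy hxy hxω hyω
    exact hno n hn x hx y hy hxy ⟨ω, hω, hωs, hxω, hyω, hωU,
      pp_later hdisj hjlt hXH hXK hωP n⟩
  rcases hb1 : τ.2.1 with _ | _ <;> rcases hb2 : τ.2.2 with _ | _
  · exact hfin x2 c2 x4 c4 (l2.trans l3) (by rw [hb1]; simp [o2]) (by rw [hb2]; simp [o4])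
  · exact hfin x2 c2 x3 c3 l2 (by rw [hb1]; simp [o2]) (by rw [hb2]; simp [o3])
  · exact hfin x1 c1 x2 c2 l1 (by rw [hb1]; simp [o1]) (by rw [hb2]; simp [o2])
  · exact hfin x1 c1 x3 c3 (l1.trans l2) (by rw [hb1]; simp [o1]) (by rw [hb2]; simp [o3])

theorem fusionP {H : ℕ → Finset ℕ} (hinc : ∀ i j, i < j → ∀ x ∈ H i, ∀ y ∈ H j, x < y)
    (Ω : Set (Set ℕ)) (A : Set ℕ) (hA : Lrg H A)
    (hΩ : ∀ J ⊆ A, Lrg H J → ∃ ω ∈ Ω, ω ⊆ J ∧ PP H ω J) :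
    ∃ B : Set ℕ, B ⊆ A ∧ B.Infinite ∧ (∀ x ∈ B, ∃ j, x ∈ H j) ∧
      ∃ j, ∃ x ∈ H j, ∃ y ∈ H j, x ∈ B ∧ y ∈ B ∧ x < y ∧
      ∀ G : Finset ℕ, ↑G ⊆ B → ∀ F : Finset ℕ, F ⊆ G → ∃ ω ∈ Ω, (∀ a ∈ G, a ∈ ω ↔ a ∈ F) ∧
        (x ∈ ω ↔ x ∈ F) ∧ (y ∈ ω ↔ y ∈ F) ∧ ∀ a, x < a → a < y → a ∉ ω := by
  classical
  have hdisj : ∀ i j, i ≠ j → Disjoint (H i) (H j) := by
    intro i j hij
    rw [Finset.disjoint_left]
    intro x hx hx'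
    rcases lt_or_gt_of_ne hij with h | h
    · exact lt_irrefl _ (hinc i j h x hx x hx')
    · exact lt_irrefl _ (hinc j i h x hx' x hx)
  obtain ⟨j₀, x₀, hx₀, y₀, hy₀, hx₀A, hy₀A, hxy₀, J₀, hJ₀A, hJ₀, hJ₀2, hg₀⟩ :=
    pair_first hinc Ω A hA hΩ
  set U : Finset ℕ := Finset.Ioo x₀ y₀ with hU
  have hstep : ∀ t : {t : Finset ℕ × Set ℕ // t.2 ⊆ A ∧ Lrg H t.2 ∧ GoodP H Ω U t.1 t.2},
      ∃ (j x y : ℕ) (t' : {t : Finset ℕ × Set ℕ // t.2 ⊆ A ∧ Lrg H t.2 ∧ GoodP H Ω U t.1 t.2}),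
        x ∈ H j ∧ y ∈ H j ∧ x ∈ t.1.2 ∧ y ∈ t.1.2 ∧ x < y ∧ t'.1.1 = t.1.1 ∪ {x, y} ∧
        t'.1.2 ⊆ t.1.2 ∧ ∀ z ∈ t'.1.2, ∀ i ≤ j, z ∉ H i := by
    rintro ⟨⟨s, J⟩, hJA, hJ, hg⟩
    obtain ⟨j, x, hx, y, hy, hxJ, hyJ, hxy, J', hJ'J, hJ', hJ'2, hg'⟩ :=
      pair_next hdisj Ω U s J hJ hg
    exact ⟨j, x, y, ⟨⟨s ∪ {x, y}, J'⟩, hJ'J.trans hJA, hJ', hg'⟩, hx, hy, hxJ, hyJ, hxy, rfl,
      hJ'J, hJ'2⟩
  choose jf xf yf tf h1 h2 h3 h4 h5 h6 h7 h8 using hstep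
  let t : ℕ → {t : Finset ℕ × Set ℕ // t.2 ⊆ A ∧ Lrg H t.2 ∧ GoodP H Ω U t.1 t.2} := fun n =>
    Nat.rec ⟨⟨{x₀, y₀}, J₀⟩, hJ₀A, hJ₀, hg₀⟩ (fun _ t => tf t) n
  have ht0 : (t 0).1.1 = {x₀, y₀} := rfl
  have ht : ∀ n, t (n + 1) = tf (t n) := fun n => rfl
  have hsub : ∀ n m, n ≤ m → (t n).1.1 ⊆ (t m).1.1 := by
    intro n m hnm
    induction hnm with
    | refl => exact subset_rfl
    | step _ ih =>
      refine ih.trans ?_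
      rw [Nat.succ_eq_add_one, ht, h6]
      exact Finset.subset_union_left
  have hsub2 : ∀ n m, n ≤ m → (t m).1.2 ⊆ (t n).1.2 := by
    intro n m hnm
    induction hnm with
    | refl => exact subset_rfl
    | step _ ih =>
      refine Set.Subset.trans ?_ ih
      rw [Nat.succ_eq_add_one, ht]
      exact h7 _
  set B : Set ℕ := {a | ∃ n, a ∈ (t n).1.1} with hB
  have hs : ∀ n, ∀ a ∈ (t n).1.1, a ∈ A ∧ ∃ j, a ∈ H j := by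
    intro n
    induction n with
    | zero =>
      intro a ha
      rw [ht0] at ha
      rcases Finset.mem_insert.mp ha with rfl | ha
      · exact ⟨hx₀A, j₀, hx₀⟩
      · rw [Finset.mem_singleton.mp ha]
        exact ⟨hy₀A, j₀, hy₀⟩
    | succ n ih =>
      intro a ha
      rw [ht, h6] at ha
      rcases Finset.mem_union.mp ha with ha | ha
      · exact ih a ha
      · rcases Finset.mem_insert.mp ha with rfl | ha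
        · exact ⟨(t n).2.1 (h3 _), _, h1 _⟩
        · rw [Finset.mem_singleton.mp ha]
          exact ⟨(t n).2.1 (h4 _), _, h2 _⟩
  have hxB : ∀ n, xf (t n) ∈ B := by
    intro n
    refine ⟨n + 1, ?_⟩
    rw [ht, h6]
    exact Finset.mem_union_right _ (Finset.mem_insert_self _ _)
  have hxne : ∀ n m, n < m → xf (t n) ≠ xf (t m) := by
    intro n m hnm heq
    have hxm : xf (t m) ∈ (tf (t n)).1.2 := by
      have := hsub2 (n + 1) m hnm (h3 (t m))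
      rw [ht] at this
      exact this
    refine h8 (t n) _ hxm (jf (t n)) le_rfl ?_
    rw [← heq]
    exact h1 _
  have hx₀t : ∀ n, x₀ ∈ (t n).1.1 := fun n => hsub 0 n (Nat.zero_le n) (by
    rw [ht0]
    exact Finset.mem_insert_self _ _)
  have hy₀t : ∀ n, y₀ ∈ (t n).1.1 := fun n => hsub 0 n (Nat.zero_le n) (by
    rw [ht0]
    exact Finset.mem_insert_of_mem (Finset.mem_singleton_self _))
  refine ⟨B, ?_, ?_, ?_, j₀, x₀, hx₀, y₀, hy₀, ⟨0, hx₀t 0⟩, ⟨0, hy₀t 0⟩, hxy₀, ?_⟩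
  · rintro a ⟨n, hn⟩
    exact (hs n a hn).1
  · refine (Set.infinite_range_of_injective (f := fun n => xf (t n)) ?_).mono ?_
    · intro n m hnm
      rcases lt_trichotomy n m with h | h | h
      · exact absurd hnm (hxne n m h)
      · exact h
      · exact absurd hnm.symm (hxne m n h)
    · rintro _ ⟨n, rfl⟩
      exact hxB n
  · rintro a ⟨n, hn⟩
    exact (hs n a hn).2
  · intro G hG F hFG
    have hGt : ∃ n, G ⊆ (t n).1.1 := by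
      have h9 : ∀ a ∈ G, ∃ n, a ∈ (t n).1.1 := fun a ha => hG (Finset.mem_coe.mpr ha)
      choose! nf hnf using h9
      exact ⟨G.sup nf, fun a ha => hsub _ _ (Finset.le_sup ha) (hnf a ha)⟩
    obtain ⟨n, hn⟩ := hGt
    obtain ⟨ω, hω, h9, h10, -⟩ := (t n).2.2.2 F (hFG.trans hn) (t n).1.2 subset_rfl (t n).2.2.1
    refine ⟨ω, hω, fun a ha => h9 a (hn ha), h9 _ (hx₀t n), h9 _ (hy₀t n), ?_⟩
    intro a ha1 ha2
    exact h10 a (Finset.mem_Ioo.mpr ⟨ha1, ha2⟩)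

end Pool.Agent.H92.BH
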