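import Pool.Agent.H92.BH.XCore3
import Pool.Agent.H92.BH.XFuse
import Pool.Agent.H92.BH.GDefs
import Pool.Agent.H21.MT.Shat

/-!
[H92 BH XPAIR]  A shattered infinite set with two elements in one block.
-/

namespace Pool.Agent.H92.BH

open Finset Filter Pool.Agent.H21.MT

/-- the parts of a limit of translates of the primes given by a colouring (adapted from helper21) -/
theorem colour_parts {r : ℕ} (c : ℕ → Fin r) (B : Set ℕ)
    (hB : ∀ F : Finset ℕ, {N : ℕ | ∀ a ∈ F, (N + a).Prime ↔ a ∈ B}.Infinite) :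
    ∃ Bf : Fin r → Set ℕ, (∀ i, Bf i ∈ Lims c i) ∧ (∀ i, Bf i ⊆ B) ∧ ∀ a ∈ B, ∃ i, a ∈ Bf i := by
  classical
  have hN : ∀ n : ℕ, ∃ N : ℕ, n < N ∧ ∀ a ≤ n, (N + a).Prime ↔ a ∈ B := by
    intro n
    obtain ⟨N, hN, hnN⟩ := (hB (Finset.range (n + 1))).exists_gt n
    exact ⟨N, hnN, fun a ha => hN a (Finset.mem_range.mpr (by omega))⟩
  choose Nf hNf hNp using hN
  set U : Ultrafilter ℕ := hyperfilter ℕ with hU
  have hUinf : ∀ X : Set ℕ, X ∈ U → X.Infinite := fun X hX => by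
    intro hXf
    have h1 : Xᶜ ∈ (U : Filter ℕ) := by
      apply hyperfilter_le_cofinite
      rw [Filter.mem_cofinite, compl_compl]
      exact hXf
    exact (Ultrafilter.compl_mem_iff_notMem.1 h1) hX
  set Bf : Fin r → Set ℕ := fun i => {a | {n : ℕ | (Nf n + a).Prime ∧ c (Nf n + a) = i} ∈ U}
    with hBf
  have hpat : ∀ i : Fin r, Bf i ∈ Lims c i := by
    intro i F
    have h1 : {n : ℕ | ∀ a ∈ F, ((Nf n + a).Prime ∧ c (Nf n + a) = i) ↔ a ∈ Bf i} ∈ U := by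
      have h2 : ∀ a ∈ F, {n : ℕ | ((Nf n + a).Prime ∧ c (Nf n + a) = i) ↔ a ∈ Bf i} ∈
          (U : Filter ℕ) := by
        intro a _
        by_cases hab : a ∈ Bf i
        · have h3 : {n : ℕ | (Nf n + a).Prime ∧ c (Nf n + a) = i} ∈ (U : Filter ℕ) := hab
          filter_upwards [h3] with n hn
          exact ⟨fun _ => hab, fun _ => hn⟩
        · have h3 : {n : ℕ | (Nf n + a).Prime ∧ c (Nf n + a) = i}ᶜ ∈ (U : Filter ℕ) :=
            Ultrafilter.compl_mem_iff_notMem.2 hab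
          filter_upwards [h3] with n hn
          exact ⟨fun h => absurd h hn, fun h => absurd h hab⟩
      have h4 := (Filter.biInter_finset_mem F).2 h2
      refine Filter.mem_of_superset h4 ?_
      intro n hn a ha
      rw [Set.mem_iInter₂] at hn
      exact hn a ha
    have h5 := hUinf _ h1
    refine Set.infinite_of_not_bddAbove ?_
    rintro ⟨M, hM⟩
    obtain ⟨n, hn, hMn⟩ := h5.exists_gt M
    have h6 : Nf n ≤ M := hM hn
    have h7 := hNf n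
    omega
  refine ⟨Bf, hpat, ?_, ?_⟩
  · intro i a ha
    have h1 : {n : ℕ | (Nf n + a).Prime ∧ c (Nf n + a) = i} ∈ U := ha
    obtain ⟨n, hn, han⟩ := (hUinf _ h1).exists_gt a
    exact (hNp n a han.le).1 hn.1
  · intro a ha
    by_contra hcon
    push Not at hcon
    have h1 : ∀ i : Fin r, {n : ℕ | (Nf n + a).Prime ∧ c (Nf n + a) = i}ᶜ ∈ (U : Filter ℕ) :=
      fun i => Ultrafilter.compl_mem_iff_notMem.2 (hcon i)
    have h2 : (⋂ i : Fin r, {n : ℕ | (Nf n + a).Prime ∧ c (Nf n + a) = i}ᶜ) ∈ (U : Filter ℕ) :=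
      Filter.iInter_mem.2 h1
    obtain ⟨n, hn, han⟩ := (hUinf _ h2).exists_gt a
    rw [Set.mem_iInter] at hn
    exact hn (c (Nf n + a)) ⟨(hNp n a han.le).2 ha, rfl⟩

/-- two neighbours-free elements of one colour give the pattern in, out, in, out -/
theorem alt_of_many {r : ℕ} (X : Finset ℕ) (B : Set ℕ) (Bf : Fin r → Set ℕ)
    (hsub : ∀ i, Bf i ⊆ B) (hcov : ∀ a ∈ B, ∃ i, a ∈ Bf i) (Y : Finset ℕ) (hYX : Y ⊆ X)
    (hYB : ↑Y ⊆ B) (hY : r + 2 ≤ Y.card)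
    (hnb : ∀ a ∈ X, ∀ b ∈ X, a < b → (∀ z ∈ X, ¬ (a < z ∧ z < b)) → ¬ (a ∈ B ∧ b ∈ B)) :
    ∃ i : Fin r, ∃ x1 x2 x3 x4 : ℕ, x1 < x2 ∧ x2 < x3 ∧ x3 < x4 ∧
      (x1 ∈ X ∧ x2 ∈ X ∧ x3 ∈ X ∧ x4 ∈ X) ∧ x1 ∈ Bf i ∧ x2 ∉ Bf i ∧ x3 ∈ Bf i ∧ x4 ∉ Bf i := by
  classical
  have hne : Y.Nonempty := Finset.card_pos.mp (by omega)
  set z := Y.max' hne with hz
  have hzY : z ∈ Y := Y.max'_mem hne
  have hlt : ∀ a ∈ Y.erase z, a < z := by
    intro a ha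
    obtain ⟨h1, h2⟩ := Finset.mem_erase.mp ha
    exact lt_of_le_of_ne (Y.le_max' a h2) h1
  obtain ⟨i₀, -⟩ := hcov z (hYB hzY)
  have : Nonempty (Fin r) := ⟨i₀⟩
  choose! κ hκ using hcov
  have hcard : (Finset.univ : Finset (Fin r)).card < (Y.erase z).card := by
    rw [Finset.card_erase_of_mem hzY, Finset.card_univ, Fintype.card_fin]
    omega
  have hpig : ∃ x ∈ Y.erase z, ∃ y ∈ Y.erase z, x < y ∧ κ x = κ y := by
    obtain ⟨x, hx, y, hy, hxy, hκxy⟩ :=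
      Finset.exists_ne_map_eq_of_card_lt_of_maps_to (f := κ) hcard (fun a _ => Finset.mem_univ _)
    rcases lt_or_gt_of_ne hxy with h | h
    · exact ⟨x, hx, y, hy, h, hκxy⟩
    · exact ⟨y, hy, x, hx, h, hκxy.symm⟩
  obtain ⟨x, hx, y, hy, hxy, hκxy⟩ := hpig
  have hxY := Finset.mem_of_mem_erase hx
  have hyY := Finset.mem_of_mem_erase hy
  have hnext : ∀ a ∈ Y, ∀ b ∈ Y, a < b → ∃ a' ∈ X, a < a' ∧ a' < b ∧ a' ∉ B := by
    intro a ha b hb hab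
    have hne' : (X.filter (fun z => a < z)).Nonempty := ⟨b, Finset.mem_filter.mpr ⟨hYX hb, hab⟩⟩
    set a' := (X.filter (fun z => a < z)).min' hne' with ha'
    have ha'm := (X.filter (fun z => a < z)).min'_mem hne'
    rw [← ha'] at ha'm
    obtain ⟨h1, h2⟩ := Finset.mem_filter.mp ha'm
    have h3 : a' ≤ b := (X.filter (fun z => a < z)).min'_le b (Finset.mem_filter.mpr ⟨hYX hb, hab⟩)
    have h4 : ∀ z ∈ X, ¬ (a < z ∧ z < a') := by
      rintro z hz ⟨h5, h6⟩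
      have := (X.filter (fun z => a < z)).min'_le z (Finset.mem_filter.mpr ⟨hz, h5⟩)
      rw [← ha'] at this
      omega
    have h5 : a' ∉ B := fun h => hnb a (hYX ha) a' h1 h2 h4 ⟨hYB ha, h⟩
    refine ⟨a', h1, h2, lt_of_le_of_ne h3 ?_, h5⟩
    intro h
    exact h5 (h ▸ hYB hb)
  obtain ⟨x', hx'X, hxx', hx'y, hx'B⟩ := hnext x hxY y hyY hxy
  obtain ⟨y', hy'X, hyy', _, hy'B⟩ := hnext y hyY z hzY (hlt y hy)
  refine ⟨κ x, x, x', y, y', hxx', hx'y, hyy', ⟨hYX hxY, hx'X, hYX hyY, hy'X⟩, hκ x (hYB hxY),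
    fun h => hx'B (hsub _ h), ?_, fun h => hy'B (hsub _ h)⟩
  rw [hκxy]
  exact hκ y (hYB hyY)

theorem exists_splitP {r : ℕ} (c : ℕ → Fin r) (H : ℕ → Finset ℕ)
    (hdisj : ∀ i j, i ≠ j → Disjoint (H i) (H j))
    (hadm : ∀ p : ℕ, p.Prime → ∃ a : ℕ, ∀ j, ∀ h ∈ H j, ¬ p ∣ a + h) (J : Set ℕ)
    (hJ : Lrg H J) : ∃ i, ∃ ω ∈ Lims c i, ω ⊆ J ∧ PP H ω J := by
  classical
  obtain ⟨L, hL⟩ : ∃ L : ℕ → ℕ, ∀ t, L t = (320 + (r + 3) * 10 ^ 12) * 2 ^ t :=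
    ⟨fun t => (320 + (r + 3) * 10 ^ 12) * 2 ^ t, fun _ => rfl⟩
  have hsel : ∀ t m : ℕ, ∃ (j : ℕ) (X : Finset ℕ), m < j ∧ X ⊆ H j ∧ ↑X ⊆ J ∧
      X.card = 2 ^ L t := by
    intro t m
    obtain ⟨j, hj, X, hX1, hX2, hX3⟩ := hJ (max (m + 1) (2 ^ L t))
    obtain ⟨X', hX', hX'c⟩ := Finset.exists_subset_card_eq ((le_max_right _ _).trans hX3)
    exact ⟨j, X', lt_of_lt_of_le (Nat.lt_succ_self m) ((le_max_left _ _).trans hj),
      hX'.trans hX1, fun x hx => hX2 (hX' hx), hX'c⟩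
  choose jf Xf h1 h2 h3 h4 using hsel
  let s : ℕ → ℕ := fun n => Nat.rec 0 (fun t m => jf t m) n
  have hs : ∀ t, s (t + 1) = jf t (s t) := fun t => rfl
  have hslt : ∀ t, s t < s (t + 1) := fun t => by
    rw [hs]
    exact h1 _ _
  have hsmono : StrictMono s := strictMono_nat_of_lt_succ hslt
  obtain ⟨X, hX⟩ : ∃ X : ℕ → Finset ℕ, ∀ t, X t = Xf t (s t) := ⟨fun t => Xf t (s t), fun _ => rfl⟩
  have hXH : ∀ t, X t ⊆ H (s (t + 1)) := fun t => by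
    rw [hX, hs]
    exact h2 _ _
  have hXJ : ∀ t, ↑(X t) ⊆ J := fun t => by
    rw [hX]
    exact h3 _ _
  obtain ⟨B, hB0, hB1, hB2⟩ := core3n X L (fun t => by rw [hX]; exact h4 _ _) (by
    intro t t' htt
    have hne : s (t + 1) ≠ s (t' + 1) := by
      intro h
      exact htt (Nat.succ_injective (hsmono.injective h))
    exact Finset.disjoint_of_subset_left (hXH t) (Finset.disjoint_of_subset_right (hXH t')
      (hdisj _ _ hne))) (by
    intro t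
    rw [hL]
    exact Nat.mul_le_mul_right _ (Nat.le_add_right _ _)) (by
    intro p hp
    obtain ⟨a, ha⟩ := hadm p hp
    exact ⟨a, fun t h hh => ha (s (t + 1)) h (hXH t hh)⟩)
  obtain ⟨Bf, hBf1, hBf2, hBf3⟩ := colour_parts c B hB1
  have hAlt : ∀ t ∈ {t : ℕ | (1 / 10 ^ 12 : ℝ) * (L t / 2 ^ t) ≤
      ((X t).filter (fun a => a ∈ B)).card ∧
        ∀ a ∈ X t, ∀ b ∈ X t, a < b → (∀ z ∈ X t, ¬ (a < z ∧ z < b)) →
          ¬ (a ∈ B ∧ b ∈ B)}, ∃ i : Fin r, Alt H (Bf i) J (s (t + 1)) := by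
    rintro t ⟨ht1, ht2⟩
    have hcard : r + 2 ≤ ((X t).filter (fun a => a ∈ B)).card := by
      have h5 : ((r + 2 : ℕ) : ℝ) ≤ ((X t).filter (fun a => a ∈ B)).card := by
        refine le_trans ?_ ht1
        rw [hL]
        push_cast
        rw [mul_div_assoc, div_self (by positivity), mul_one]
        have : (0 : ℝ) ≤ r := Nat.cast_nonneg r
        linarith
      exact_mod_cast h5
    obtain ⟨i, x1, x2, x3, x4, l1, l2, l3, ⟨m1, m2, m3, m4⟩, o⟩ := alt_of_many (X t) B Bf hBf2 hBf3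
      ((X t).filter (fun a => a ∈ B)) (Finset.filter_subset _ _) (by
        intro a ha
        exact (Finset.mem_filter.mp (Finset.mem_coe.mp ha)).2) hcard ht2
    exact ⟨i, x1, x2, x3, x4, l1, l2, l3, ⟨hXH t m1, hXH t m2, hXH t m3, hXH t m4⟩,
      ⟨hXJ t m1, hXJ t m2, hXJ t m3, hXJ t m4⟩, o⟩
  have hcol : ∃ i : Fin r, {t : ℕ | Alt H (Bf i) J (s (t + 1))}.Infinite := by
    by_contra hcon
    push Not at hcon
    refine hB2 ((Set.finite_iUnion fun i => hcon i).subset ?_)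
    intro t ht
    obtain ⟨i, hi⟩ := hAlt t ht
    exact Set.mem_iUnion.mpr ⟨i, hi⟩
  obtain ⟨i, hi⟩ := hcol
  refine ⟨i, Bf i, hBf1 i, ?_, fun m => ?_⟩
  · intro a ha
    obtain ⟨t, ht⟩ := hB0 a (hBf2 i ha)
    exact hXJ t ht
  obtain ⟨t, ht, hmt⟩ := hi.exists_gt m
  refine ⟨s (t + 1), ?_, ht⟩
  have : t + 1 ≤ s (t + 1) := hsmono.id_le (t + 1)
  omega

theorem shatter_pair {r : ℕ} (c : ℕ → Fin r) (H : ℕ → Finset ℕ)
    (hbig : ∀ K : ℕ, ∃ j, K ≤ j ∧ K ≤ (H j).card)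
    (hinc : ∀ i j, i < j → ∀ x ∈ H i, ∀ y ∈ H j, x < y)
    (hadm : ∀ p : ℕ, p.Prime → ∃ a : ℕ, ∀ j, ∀ h ∈ H j, ¬ p ∣ a + h) :
    ∃ (i : Fin r) (B : Set ℕ), B.Infinite ∧ (∀ x ∈ B, ∃ j, x ∈ H j) ∧
      ∃ j, ∃ x ∈ H j, ∃ y ∈ H j, x ∈ B ∧ y ∈ B ∧ x < y ∧
      ∀ F : Finset ℕ, ↑F ⊆ B → ShX c i x y F := by
  classical
  have hdisj : ∀ i j, i ≠ j → Disjoint (H i) (H j) := by
    intro i j hij
    rw [Finset.disjoint_left]
    intro x hx hx'
    rcases lt_or_gt_of_ne hij with h | h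
    · exact lt_irrefl _ (hinc i j h x hx x hx')
    · exact lt_irrefl _ (hinc j i h x hx' x hx)
  have hA : Lrg H Set.univ := by
    intro K
    obtain ⟨j, hj, hjc⟩ := hbig K
    exact ⟨j, hj, H j, subset_rfl, Set.subset_univ _, hjc⟩
  have hkey : ∃ i : Fin r, ∃ A' : Set ℕ, Lrg H A' ∧ ∀ J ⊆ A', Lrg H J →
      ∃ ω ∈ Lims c i, ω ⊆ J ∧ PP H ω J := by
    by_contra hcon
    push Not at hcon
    have hind : ∀ S : Finset (Fin r), ∃ J : Set ℕ, Lrg H J ∧ ∀ i ∈ S,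
        ∀ ω ∈ Lims c i, ω ⊆ J → ¬ PP H ω J := by
      intro S
      induction S using Finset.induction_on with
      | empty => exact ⟨Set.univ, hA, by simp⟩
      | insert i S _ ih =>
        obtain ⟨J, hJ, hJS⟩ := ih
        obtain ⟨J', hJ'J, hJ', hno⟩ := hcon i J hJ
        refine ⟨J', hJ', ?_⟩
        intro i' hi' ω hω hωJ
        rcases Finset.mem_insert.mp hi' with rfl | hi'
        · exact hno ω hω hωJ
        · exact fun h => hJS i' hi' ω hω (hωJ.trans hJ'J) (PP_mono hJ'J h)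
    obtain ⟨J, hJ, hJS⟩ := hind univ
    obtain ⟨i, ω, hω, h0, h1⟩ := exists_splitP c H hdisj hadm J hJ
    exact hJS i (mem_univ _) ω hω h0 h1
  obtain ⟨i, A', hA', hsplit⟩ := hkey
  obtain ⟨B, _, hBinf, hBH, j, x, hx, y, hy, hxB, hyB, hxy, hsh⟩ :=
    fusionP hinc (Lims c i) A' hA' hsplit
  have hgap : ∀ a ∈ B, x < a → ¬ a < y := by
    intro a ha h1 h2
    obtain ⟨ω, _, h3, _, _, h4⟩ := hsh {a} (by simpa using ha) {a} subset_rfl
    exact h4 a h1 h2 ((h3 a (Finset.mem_singleton_self a)).mpr (Finset.mem_singleton_self a))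
  refine ⟨i, B, hBinf, hBH, j, x, hx, y, hy, hxB, hyB, hxy, ?_⟩
  intro G hG F hF
  obtain ⟨ω, hω, h, hωx, hωy, hωg⟩ := hsh G hG F hF
  refine (hω (G ∪ Finset.Icc x y)).mono ?_
  intro N hN a ha
  have h5 : ((N + a).Prime ∧ c (N + a) = i) ↔ a ∈ ω := by
    apply hN a
    rcases ha with ha | ha
    · exact Finset.mem_union_left _ ha
    · exact Finset.mem_union_right _ (Finset.mem_Icc.mpr ha)
  rw [h5]
  rcases ha with ha | ⟨ha1, ha2⟩
  · exact h a ha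
  · rcases Nat.eq_or_lt_of_le ha1 with rfl | ha1
    · exact hωx
    · rcases Nat.eq_or_lt_of_le ha2 with rfl | ha2
      · exact hωy
      · refine ⟨fun h' => absurd h' (hωg a ha1 ha2), fun h' => ?_⟩
        exact absurd ha2 (hgap a (hG (Finset.mem_coe.mpr (hF h'))) ha1)

end Pool.Agent.H92.BH
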