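import Pool.Agent.H92.BH.Defs

/-!
[H92 BH ATOM]  The atom at `0` of the spectral measure is at least `δ^2`.

Proof.  Fix `M ≥ 1`.  (1) Combinatorial part: for a window `(a, a + L]` with `δ L ≤ cnt S a L`, `L ≥ M`,
let `f n = #{i < M : n + i ∈ S}` (`0 ≤ i < M`).  `∑_{n ∈ (a, a+L]} f n ≥ M (cnt S a L - M) ≥ M (δ L - M)`
(for each `i` the sum over `n` of `1_S (n+i)` is `cnt S (a+i) L ≥ cnt S a L - i`).  By Cauchy-Schwarz
`∑_n (f n)^2 ≥ (M (δ L - M))^2 / L` if `δ L ≥ M`.  On the other hand `∑_n (f n)^2 = ∑_{i,j < M} #{n : n+i ∈ S, n+j ∈ S}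
≤ ∑_{i,j} (L corr S a L (j - i) + M)` (substitute `n' = n + i`, window shifted by `i < M`).
Hence `(1/M^2) ∑_{i,j<M} corr S a L (j-i) ≥ (δ - M/L)^2 - M/L`.
(2) Let `L → ∞` in the hypothesis (with `η → 0`): `(1/M^2) ∑_{i,j<M} Re ∫ fourier (j-i) dσ ≥ δ^2`.
(3) `(1/M^2) ∑_{i,j} fourier (j-i) θ = ‖(1/M) ∑_{i<M} fourier i θ‖^2`, bounded by `1`, and tends to `1` for `θ = 0` and to `0`
for `θ ≠ 0` (geometric sum) as `M → ∞`; by dominated convergence the integrals tend to `σ {0}`.
-/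

namespace Pool.Agent.H92.BH

open MeasureTheory

open Classical in
/-- indicator of `S` as a real number -/
private noncomputable def ind (S : Set ℤ) (n : ℤ) : ℝ := if n ∈ S then 1 else 0

private theorem ind_nonneg (S : Set ℤ) (n : ℤ) : 0 ≤ ind S n := by
  unfold ind; split_ifs <;> norm_num

private theorem ind_le_one (S : Set ℤ) (n : ℤ) : ind S n ≤ 1 := by
  unfold ind; split_ifs <;> norm_num

private theorem cnt_eq (S : Set ℤ) (a : ℤ) (L : ℕ) :
    (cnt S a L : ℝ) = ∑ n ∈ Finset.Ioc a (a + L), ind S n := by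
  classical
  unfold cnt ind
  rw [Finset.card_filter]
  push_cast
  refine Finset.sum_congr rfl fun n _ => ?_
  split_ifs <;> simp

private theorem corr_eq (S : Set ℤ) (a : ℤ) (L : ℕ) (hL : 0 < L) (d : ℤ) :
    (L : ℝ) * corr S a L d = ∑ n ∈ Finset.Ioc a (a + L), ind S n * ind S (n + d) := by
  classical
  have hL' : (L : ℝ) ≠ 0 := by exact_mod_cast hL.ne'
  unfold corr
  rw [mul_div_cancel₀ _ hL', Finset.card_filter]
  push_cast
  refine Finset.sum_congr rfl fun n _ => ?_
  unfold ind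
  by_cases h1 : n ∈ S <;> by_cases h2 : n + d ∈ S <;> simp [h1, h2]

/-- shifting a window changes a sum of values in `[0,1]` by at most the shift -/
private theorem shift_le (g : ℤ → ℝ) (h0 : ∀ n, 0 ≤ g n) (h1 : ∀ n, g n ≤ 1) (a : ℤ) (L i : ℕ) :
    ∑ n ∈ Finset.Ioc (a + i) (a + i + L), g n ≤ ∑ n ∈ Finset.Ioc a (a + L), g n + i := by
  have hsub : Finset.Ioc (a + i) (a + i + L) ⊆
      Finset.Ioc a (a + L) ∪ Finset.Ioc (a + L) (a + i + L) := by
    intro n hn
    simp only [Finset.mem_union, Finset.mem_Ioc] at hn ⊢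
    omega
  calc ∑ n ∈ Finset.Ioc (a + i) (a + i + L), g n
      ≤ ∑ n ∈ Finset.Ioc a (a + L) ∪ Finset.Ioc (a + L) (a + i + L), g n :=
        Finset.sum_le_sum_of_subset_of_nonneg hsub fun n _ _ => h0 n
    _ ≤ ∑ n ∈ Finset.Ioc a (a + L), g n + ∑ n ∈ Finset.Ioc (a + L) (a + i + L), g n := by
        rw [← Finset.sum_union_inter]
        have : 0 ≤ ∑ n ∈ Finset.Ioc a (a + L) ∩ Finset.Ioc (a + L) (a + i + L), g n :=
          Finset.sum_nonneg fun n _ => h0 n
        linarith
    _ ≤ ∑ n ∈ Finset.Ioc a (a + L), g n + i := by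
        have : ∑ n ∈ Finset.Ioc (a + L) (a + i + L), g n ≤
            ∑ n ∈ Finset.Ioc (a + L) (a + i + L), (1 : ℝ) :=
          Finset.sum_le_sum fun n _ => h1 n
        rw [Finset.sum_const, nsmul_eq_mul, mul_one, Int.card_Ioc] at this
        have h2 : ((a + i + L - (a + L)).toNat : ℝ) = i := by
          have : (a + i + L - (a + L)).toNat = i := by omega
          rw [this]
        rw [h2] at this
        linarith

private theorem le_shift (g : ℤ → ℝ) (h0 : ∀ n, 0 ≤ g n) (h1 : ∀ n, g n ≤ 1) (a : ℤ) (L i : ℕ) :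
    ∑ n ∈ Finset.Ioc a (a + L), g n - i ≤ ∑ n ∈ Finset.Ioc (a + i) (a + i + L), g n := by
  have hsub : Finset.Ioc a (a + L) ⊆
      Finset.Ioc (a + i) (a + i + L) ∪ Finset.Ioc a (a + i) := by
    intro n hn
    simp only [Finset.mem_union, Finset.mem_Ioc] at hn ⊢
    omega
  have h3 : ∑ n ∈ Finset.Ioc a (a + L), g n ≤
      ∑ n ∈ Finset.Ioc (a + i) (a + i + L) ∪ Finset.Ioc a (a + i), g n :=
    Finset.sum_le_sum_of_subset_of_nonneg hsub fun n _ _ => h0 n
  have h4 : ∑ n ∈ Finset.Ioc (a + i) (a + i + L) ∪ Finset.Ioc a (a + i), g n ≤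
      ∑ n ∈ Finset.Ioc (a + i) (a + i + L), g n + ∑ n ∈ Finset.Ioc a (a + i), g n := by
    rw [← Finset.sum_union_inter]
    have : 0 ≤ ∑ n ∈ Finset.Ioc (a + i) (a + i + L) ∩ Finset.Ioc a (a + i), g n :=
      Finset.sum_nonneg fun n _ => h0 n
    linarith
  have h5 : ∑ n ∈ Finset.Ioc a (a + i), g n ≤ i := by
    have : ∑ n ∈ Finset.Ioc a (a + i), g n ≤ ∑ n ∈ Finset.Ioc a (a + i), (1 : ℝ) :=
      Finset.sum_le_sum fun n _ => h1 n
    rw [Finset.sum_const, nsmul_eq_mul, mul_one, Int.card_Ioc] at this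
    have h2 : ((a + i - a).toNat : ℝ) = i := by
      have : (a + i - a).toNat = i := by omega
      rw [this]
    rw [h2] at this
    exact this
  linarith

private theorem sum_shift (g : ℤ → ℝ) (a : ℤ) (L : ℕ) (i : ℤ) :
    ∑ n ∈ Finset.Ioc a (a + L), g (n + i) = ∑ n ∈ Finset.Ioc (a + i) (a + i + L), g n := by
  have : Finset.Ioc (a + i) (a + i + L) = (Finset.Ioc a (a + L)).map (addRightEmbedding i) := by
    rw [Finset.map_add_right_Ioc]
    congr 1
    ring
  rw [this, Finset.sum_map]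
  rfl

/-- combinatorial part -/
private theorem comb {S : Set ℤ} {δ : ℝ} (M L : ℕ) (hL : 0 < L) (a : ℤ)
    (hML : (M : ℝ) ≤ δ * L) (h : δ * L ≤ cnt S a L) :
    (M : ℝ) ^ 2 * ((δ * L - M) ^ 2) ≤
      (L : ℝ) * ∑ i ∈ Finset.range M, ∑ j ∈ Finset.range M,
        ((L : ℝ) * corr S a L ((j : ℤ) - i) + M) := by
  set f : ℤ → ℝ := fun n => ∑ i ∈ Finset.range M, ind S (n + i) with hf
  have hsum : (M : ℝ) * (δ * L - M) ≤ ∑ n ∈ Finset.Ioc a (a + L), f n := by
    rw [hf, Finset.sum_comm]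
    have : ∀ i ∈ Finset.range M, δ * L - M ≤ ∑ n ∈ Finset.Ioc a (a + L), ind S (n + i) := by
      intro i hi
      rw [sum_shift]
      have h1 := le_shift (ind S) (ind_nonneg S) (ind_le_one S) a L i
      rw [← cnt_eq] at h1
      have h2 : (i : ℝ) ≤ M := by exact_mod_cast (Finset.mem_range.1 hi).le
      linarith
    calc (M : ℝ) * (δ * L - M) = ∑ i ∈ Finset.range M, (δ * L - M) := by
          rw [Finset.sum_const, Finset.card_range, nsmul_eq_mul]
      _ ≤ _ := Finset.sum_le_sum this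
  have hcs : (∑ n ∈ Finset.Ioc a (a + L), f n) ^ 2 ≤ (L : ℝ) * ∑ n ∈ Finset.Ioc a (a + L), f n ^ 2 := by
    have h1 := sq_sum_le_card_mul_sum_sq (s := Finset.Ioc a (a + (L : ℤ))) (f := f)
    rw [Int.card_Ioc] at h1
    have h2 : (a + L - a).toNat = L := by omega
    rwa [h2] at h1
  have hsq : ∑ n ∈ Finset.Ioc a (a + L), f n ^ 2 ≤
      ∑ i ∈ Finset.range M, ∑ j ∈ Finset.range M, ((L : ℝ) * corr S a L ((j : ℤ) - i) + M) := by
    have e1 : ∀ n, f n ^ 2 = ∑ i ∈ Finset.range M, ∑ j ∈ Finset.range M,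
        ind S (n + i) * ind S (n + j) := by
      intro n
      rw [hf, sq, Finset.sum_mul_sum]
    simp_rw [e1]
    rw [Finset.sum_comm]
    refine Finset.sum_le_sum fun i hi => ?_
    rw [Finset.sum_comm]
    refine Finset.sum_le_sum fun j hj => ?_
    have e2 : ∑ n ∈ Finset.Ioc a (a + L), ind S (n + i) * ind S (n + j) =
        ∑ n ∈ Finset.Ioc a (a + L), (fun m => ind S m * ind S (m + ((j : ℤ) - i))) (n + i) := by
      refine Finset.sum_congr rfl fun n _ => ?_
      simp only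
      congr 2
      ring
    rw [e2, sum_shift (fun m => ind S m * ind S (m + ((j : ℤ) - i))) a L i]
    refine (shift_le _ (fun n => mul_nonneg (ind_nonneg S _) (ind_nonneg S _))
      (fun n => mul_le_one₀ (ind_le_one S _) (ind_nonneg S _) (ind_le_one S _)) a L i).trans ?_
    rw [corr_eq S a L hL]
    have h2 : (i : ℝ) ≤ M := by exact_mod_cast (Finset.mem_range.1 hi).le
    linarith
  have h0 : 0 ≤ (M : ℝ) * (δ * L - M) := mul_nonneg (by positivity) (by linarith)
  calc (M : ℝ) ^ 2 * ((δ * L - M) ^ 2) = ((M : ℝ) * (δ * L - M)) ^ 2 := by ring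
    _ ≤ (∑ n ∈ Finset.Ioc a (a + L), f n) ^ 2 := pow_le_pow_left₀ h0 hsum 2
    _ ≤ (L : ℝ) * ∑ n ∈ Finset.Ioc a (a + L), f n ^ 2 := hcs
    _ ≤ _ := mul_le_mul_of_nonneg_left hsq (by positivity)

/-- the mean of the first `M` characters -/
private noncomputable def gM (M : ℕ) (θ : UnitAddCircle) : ℝ :=
  ‖∑ i ∈ Finset.range M, (fourier (i : ℤ) θ : ℂ)‖ ^ 2

private theorem gM_eq (M : ℕ) (θ : UnitAddCircle) :
    ∑ i ∈ Finset.range M, ∑ j ∈ Finset.range M, (fourier ((j : ℤ) - i) θ : ℂ) = (gM M θ : ℂ) := by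
  unfold gM
  push_cast
  rw [← Complex.mul_conj', map_sum, Finset.sum_mul_sum, Finset.sum_comm]
  refine Finset.sum_congr rfl fun i _ => Finset.sum_congr rfl fun j _ => ?_
  rw [← fourier_neg, ← fourier_add]
  rfl

private theorem gM_le (M : ℕ) (θ : UnitAddCircle) : gM M θ ≤ (M : ℝ) ^ 2 := by
  unfold gM
  refine pow_le_pow_left₀ (norm_nonneg _) ?_ 2
  refine (norm_sum_le _ _).trans ?_
  have : ∀ i ∈ Finset.range M, ‖(fourier (i : ℤ) θ : ℂ)‖ ≤ 1 := fun i _ => by
    rw [fourier_apply]; simp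
  refine (Finset.sum_le_sum this).trans ?_
  simp

theorem atom_zero {S : Set ℤ} {δ : ℝ} (hδ : 0 < δ) (σ : Measure UnitAddCircle)
    [IsFiniteMeasure σ]
    (h : ∀ (M : ℕ) (η : ℝ), 0 < η → ∀ L₀ : ℕ, ∃ L : ℕ, L₀ ≤ L ∧ 0 < L ∧ ∃ a : ℤ,
        δ * L ≤ cnt S a L ∧ ∀ d : ℤ, |d| ≤ M →
          ‖(∫ θ, fourier d θ ∂σ) - ((corr S a L d : ℝ) : ℂ)‖ ≤ η) :
    δ ^ 2 ≤ (σ {0}).toReal := by
  classical
  have hint : ∀ d : ℤ, Integrable (fun θ : UnitAddCircle => (fourier d θ : ℂ)) σ := fun d =>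
    (map_continuous (fourier d)).integrable_of_hasCompactSupport
      (HasCompactSupport.of_compactSpace _)
  have hgm : ∀ M : ℕ, Continuous (gM M) := by
    intro M
    unfold gM
    refine (Continuous.norm ?_).pow 2
    exact continuous_finsetSum _ fun i _ => map_continuous _
  have hgint : ∀ M : ℕ, Integrable (gM M) σ := fun M =>
    (hgm M).integrable_of_hasCompactSupport (HasCompactSupport.of_compactSpace _)
  have hre : ∀ M : ℕ, ∫ θ, gM M θ ∂σ = ∑ i ∈ Finset.range M, ∑ j ∈ Finset.range M,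
      (∫ θ, (fourier ((j : ℤ) - i) θ : ℂ) ∂σ).re := by
    intro M
    have h1 : ((∫ θ, gM M θ ∂σ : ℝ) : ℂ) = ∑ i ∈ Finset.range M, ∑ j ∈ Finset.range M,
        ∫ θ, (fourier ((j : ℤ) - i) θ : ℂ) ∂σ := by
      rw [← integral_complex_ofReal]
      simp_rw [← gM_eq]
      rw [integral_finsetSum _ fun i _ => integrable_finsetSum _ fun j _ => hint _]
      refine Finset.sum_congr rfl fun i _ => ?_
      rw [integral_finsetSum _ fun j _ => hint _]
    have h2 := congrArg Complex.re h1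
    rw [Complex.ofReal_re] at h2
    rw [h2]
    simp only [Complex.re_sum]
  have step2 : ∀ M : ℕ, 0 < M → δ ^ 2 ≤ ∫ θ, gM M θ / (M : ℝ) ^ 2 ∂σ := by
    intro M hM
    have hM' : (0 : ℝ) < M := by exact_mod_cast hM
    rw [integral_div, le_div_iff₀ (by positivity)]
    refine le_of_forall_pos_le_add fun ε hε => ?_
    obtain ⟨L, hL0, hL, a, hc, hd⟩ := h M (ε / (2 * (M : ℝ) ^ 2)) (by positivity)
      (max ⌈(M : ℝ) / δ⌉₊ ⌈2 * (2 * δ + 1) * (M : ℝ) ^ 3 / ε⌉₊)
    have hLr : (0 : ℝ) < L := by exact_mod_cast hL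
    have hL1 : (M : ℝ) / δ ≤ L := (Nat.le_ceil _).trans (by exact_mod_cast (le_max_left _ _).trans hL0)
    have hL2 : 2 * (2 * δ + 1) * (M : ℝ) ^ 3 / ε ≤ L :=
      (Nat.le_ceil _).trans (by exact_mod_cast (le_max_right _ _).trans hL0)
    have hML : (M : ℝ) ≤ δ * L := by
      rw [div_le_iff₀ hδ] at hL1
      linarith
    have hcomb := comb M L hL a hML hc
    set C : ℝ := ∑ i ∈ Finset.range M, ∑ j ∈ Finset.range M, corr S a L ((j : ℤ) - i) with hC
    have hsumeq : ∑ i ∈ Finset.range M, ∑ j ∈ Finset.range M,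
        ((L : ℝ) * corr S a L ((j : ℤ) - i) + M) = L * C + (M : ℝ) ^ 3 := by
      rw [hC]
      simp_rw [Finset.sum_add_distrib, ← Finset.mul_sum]
      simp only [Finset.sum_const, Finset.card_range, nsmul_eq_mul]
      ring
    rw [hsumeq] at hcomb
    have hClow : (M : ℝ) ^ 2 * δ ^ 2 - (2 * δ + 1) * (M : ℝ) ^ 3 / L ≤ C := by
      have h1 : (M : ℝ) ^ 2 * (δ * L) ^ 2 - 2 * (M : ℝ) ^ 3 * (δ * L) ≤ (M : ℝ) ^ 2 * ((δ * L - M) ^ 2) := by
        have : 0 ≤ (M : ℝ) ^ 4 := by positivity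
        nlinarith
      have h2 : (M : ℝ) ^ 2 * (δ * L) ^ 2 - 2 * (M : ℝ) ^ 3 * (δ * L) - L * (M : ℝ) ^ 3 ≤ L * L * C := by
        nlinarith
      have h3 : (M : ℝ) ^ 2 * δ ^ 2 - (2 * δ + 1) * (M : ℝ) ^ 3 / L =
          ((M : ℝ) ^ 2 * (δ * L) ^ 2 - 2 * (M : ℝ) ^ 3 * (δ * L) - L * (M : ℝ) ^ 3) / (L * L) := by
        field_simp
        ring
      rw [h3, div_le_iff₀ (by positivity)]
      linarith
    have herr : (2 * δ + 1) * (M : ℝ) ^ 3 / L ≤ ε / 2 := by
      rw [div_le_iff₀ hε] at hL2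
      rw [div_le_iff₀ hLr]
      linarith
    have hlow : C - (M : ℝ) ^ 2 * (ε / (2 * (M : ℝ) ^ 2)) ≤ ∫ θ, gM M θ ∂σ := by
      rw [hre]
      have : C - (M : ℝ) ^ 2 * (ε / (2 * (M : ℝ) ^ 2)) = ∑ i ∈ Finset.range M, ∑ j ∈ Finset.range M,
          (corr S a L ((j : ℤ) - i) - ε / (2 * (M : ℝ) ^ 2)) := by
        rw [hC]
        simp_rw [Finset.sum_sub_distrib]
        simp only [Finset.sum_const, Finset.card_range, nsmul_eq_mul]
        ring
      rw [this]
      refine Finset.sum_le_sum fun i hi => Finset.sum_le_sum fun j hj => ?_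
      have hij : |((j : ℤ) - i)| ≤ M := by
        have := Finset.mem_range.1 hi
        have := Finset.mem_range.1 hj
        rw [abs_le]
        constructor <;> omega
      have h1 := (Complex.abs_re_le_norm _).trans (hd _ hij)
      rw [Complex.sub_re, Complex.ofReal_re, abs_le] at h1
      linarith [h1.1]
    have h5 : (M : ℝ) ^ 2 * (ε / (2 * (M : ℝ) ^ 2)) = ε / 2 := by
      field_simp
    rw [h5] at hlow
    nlinarith
  have hlim : Filter.Tendsto (fun M : ℕ => ∫ θ, gM M θ / (M : ℝ) ^ 2 ∂σ) Filter.atTop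
      (nhds (∫ θ, Set.indicator {(0 : UnitAddCircle)} (fun _ => (1 : ℝ)) θ ∂σ)) := by
    refine tendsto_integral_of_dominated_convergence (fun _ => (1 : ℝ)) ?_ (integrable_const _) ?_ ?_
    · intro M
      exact ((hgm M).div_const _).aestronglyMeasurable
    · intro M
      refine Filter.Eventually.of_forall fun θ => ?_
      rw [Real.norm_of_nonneg (by unfold gM; positivity)]
      rcases Nat.eq_zero_or_pos M with h0 | h0
      · subst h0; simp
      · have : (0 : ℝ) < M := by exact_mod_cast h0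
        rw [div_le_one (by positivity)]
        exact gM_le M θ
    · refine Filter.Eventually.of_forall fun θ => ?_
      by_cases hθ : θ = 0
      · subst hθ
        rw [Set.indicator_of_mem (Set.mem_singleton _)]
        refine tendsto_const_nhds.congr' ?_
        filter_upwards [Filter.eventually_gt_atTop 0] with M hM
        have hM' : (M : ℝ) ≠ 0 := by exact_mod_cast hM.ne'
        unfold gM
        simp [hM']
      · rw [Set.indicator_of_notMem (by simpa using hθ)]
        set z : ℂ := fourier 1 θ with hz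
        have hz1 : z ≠ 1 := by
          intro h1
          apply hθ
          have : AddCircle.toCircle θ = AddCircle.toCircle (0 : UnitAddCircle) := by
            apply Subtype.ext
            rw [AddCircle.toCircle_zero]
            rw [hz, fourier_one] at h1
            simpa using h1
          exact AddCircle.injective_toCircle one_ne_zero this
        have hpow : ∀ i : ℕ, (fourier (i : ℤ) θ : ℂ) = z ^ i := by
          intro i
          induction i with
          | zero => simp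
          | succ k ih => rw [pow_succ, ← ih, hz, ← fourier_add]; push_cast; rfl
        have hbound : ∀ M : ℕ, gM M θ ≤ (2 / ‖z - 1‖) ^ 2 := by
          intro M
          unfold gM
          refine pow_le_pow_left₀ (norm_nonneg _) ?_ 2
          simp_rw [hpow]
          rw [geom_sum_eq hz1, norm_div]
          refine div_le_div_of_nonneg_right ?_ (norm_nonneg _)
          refine (norm_sub_le _ _).trans ?_
          have : ‖z ^ M‖ = 1 := by rw [← hpow, fourier_apply]; simp
          rw [this]; norm_num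
        refine squeeze_zero (fun M => by unfold gM; positivity)
          (fun M => div_le_div_of_nonneg_right (hbound M) (by positivity)) ?_
        refine Filter.Tendsto.div_atTop tendsto_const_nhds ?_
        exact (Filter.tendsto_pow_atTop two_ne_zero).comp tendsto_natCast_atTop_atTop
  have hfin : ∫ θ, Set.indicator {(0 : UnitAddCircle)} (fun _ => (1 : ℝ)) θ ∂σ = (σ {0}).toReal := by
    rw [integral_indicator (measurableSet_singleton _)]
    simp [Measure.real]
  rw [hfin] at hlim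
  refine ge_of_tendsto hlim ?_
  filter_upwards [Filter.eventually_gt_atTop 0] with M hM
  exact step2 M hM

end Pool.Agent.H92.BH
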