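import Pool.Agent.H92.BH.Defs

/-!
[H92 BH SPEC]  A spectral measure of a set of positive upper Banach density.

Proof.  Choose windows `(a n, a n + L n]`, `L n ≥ n`, `L n > 0`, `δ * L n ≤ cnt S (a n) (L n)`.
Let `I n` be the finite set `S ∩ (a n, a n + L n]`, `p n = ∑ k ∈ I n, fourier k` (a continuous function
on `UnitAddCircle`), and `μ n = (AddCircle.haarAddCircle).withDensity (‖p n θ‖^2 / L n)`.
`fourier` is orthonormal (`fourier_add`, `fourier_neg`, `∫ fourier d = if d = 0 then 1 else 0`: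
`fourierIntegral`/`orthonormal_fourier`, or `fourier_coe_apply`, `integral_eq_zero_of_add_right_eq_neg`), so
`∫ fourier d dμ n = (1/L n) ∑_{k,l ∈ I n} ∫ fourier (d + k - l) = (1/L n) #{k ∈ I n : k + d ∈ I n}`,
which differs from `corr S (a n) (L n) d` by at most `|d| / L n`.  In particular the mass is at most `1`.
By `isCompact_setOfPred_finiteMeasure_le_of_compactSpace` (`C = 1`) the sequence `μ n` has a cluster point
`σ` (`IsCompact.exists_mapClusterPt`) in `FiniteMeasure UnitAddCircle`; for a continuous real `g` the map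
`μ ↦ ∫ g dμ` is continuous (`FiniteMeasure.tendsto_iff_forall_integral_tendsto` or
`FiniteMeasure.continuous_integral_boundedContinuousFunction`), so for finitely many `g` (real and imaginary
parts of `fourier d`, `|d| ≤ M`) and `η > 0` there are arbitrarily large `n` with
`‖∫ fourier d dσ - ∫ fourier d dμ n‖ ≤ η/2`, and `|d|/L n ≤ η/2` for large `n`.
-/

namespace Pool.Agent.H92.BH

open MeasureTheory

namespace SpecAux

open Filter Topology

lemma int_fourier (d : ℤ) :
    ∫ θ, fourier d θ ∂(AddCircle.haarAddCircle : Measure UnitAddCircle) = if d = 0 then 1 else 0 := by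
  split_ifs with h
  · simp [h]
  · exact integral_eq_zero_of_add_right_eq_neg (μ := AddCircle.haarAddCircle)
      (fourier_add_half_inv_index h one_pos)

open Classical in
/-- the elements of `S` in the window -/
noncomputable def win (S : Set ℤ) (a : ℤ) (L : ℕ) : Finset ℤ :=
  (Finset.Ioc a (a + L)).filter (fun n => n ∈ S)

/-- trigonometric polynomial -/
noncomputable def pol (I : Finset ℤ) : C(UnitAddCircle, ℂ) := ∑ k ∈ I, fourier k

lemma pol_apply (I : Finset ℤ) (θ : UnitAddCircle) : pol I θ = ∑ k ∈ I, fourier k θ := by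
  simp [pol]

/-- density -/
noncomputable def dens (I : Finset ℤ) (L : ℕ) (θ : UnitAddCircle) : NNReal :=
  Real.toNNReal (‖pol I θ‖ ^ 2 / L)

lemma dens_cont (I : Finset ℤ) (L : ℕ) : Continuous (dens I L) := by
  unfold dens
  have := (pol I).continuous
  fun_prop

lemma dens_coe (I : Finset ℤ) (L : ℕ) (θ : UnitAddCircle) :
    (dens I L θ : ℝ) = ‖pol I θ‖ ^ 2 / L := by
  unfold dens
  rw [Real.coe_toNNReal _ (by positivity)]

lemma dens_mul (I : Finset ℤ) (L : ℕ) (d : ℤ) (θ : UnitAddCircle) :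
    ((dens I L θ : ℝ) : ℂ) * fourier d θ =
      ∑ k ∈ I, ∑ l ∈ I, (1 / (L : ℂ)) * fourier (d + k - l) θ := by
  rw [dens_coe]
  have h1 : ((‖pol I θ‖ ^ 2 / L : ℝ) : ℂ) = (pol I θ) * (starRingEnd ℂ) (pol I θ) / L := by
    rw [Complex.mul_conj, Complex.normSq_eq_norm_sq]
    push_cast
    rfl
  rw [h1, pol_apply, map_sum, Finset.sum_mul_sum, Finset.sum_div, Finset.sum_mul]
  refine Finset.sum_congr rfl fun k _ => ?_
  rw [Finset.sum_div, Finset.sum_mul]
  refine Finset.sum_congr rfl fun l _ => ?_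
  rw [sub_eq_add_neg, fourier_add, fourier_add, fourier_neg]
  ring

lemma int_dens (I : Finset ℤ) (L : ℕ) (d : ℤ) :
    ∫ θ, ((dens I L θ : ℝ) : ℂ) * fourier d θ ∂(AddCircle.haarAddCircle : Measure UnitAddCircle) =
      (1 / (L : ℂ)) * ((I.filter (fun k => k + d ∈ I)).card : ℂ) := by
  have hint : ∀ m : ℤ, Integrable (fun θ : UnitAddCircle => (1 / (L : ℂ)) * fourier m θ)
      (AddCircle.haarAddCircle : Measure UnitAddCircle) := fun m =>
    ((continuous_const.mul (fourier m).continuous).integrable_of_hasCompactSupport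
      (HasCompactSupport.of_compactSpace _))
  simp_rw [dens_mul]
  rw [integral_finsetSum _ fun k _ => integrable_finsetSum _ fun l _ => hint _]
  have h2 : ∀ k ∈ I, ∫ θ, ∑ l ∈ I, (1 / (L : ℂ)) * fourier (d + k - l) θ
      ∂(AddCircle.haarAddCircle : Measure UnitAddCircle) =
      (1 / (L : ℂ)) * (if k + d ∈ I then 1 else 0) := by
    intro k _
    rw [integral_finsetSum _ fun l _ => hint _]
    simp_rw [integral_const_mul, int_fourier]
    rw [← Finset.mul_sum]
    congr 1
    have : ∀ l ∈ I, (if d + k - l = 0 then (1 : ℂ) else 0) = if l = k + d then 1 else 0 := by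
      intro l _
      have : d + k - l = 0 ↔ l = k + d := by omega
      simp only [this]
    rw [Finset.sum_congr rfl this, Finset.sum_ite_eq']
  rw [Finset.sum_congr rfl h2, ← Finset.mul_sum]
  congr 1
  rw [Finset.sum_ite, Finset.sum_const_zero, add_zero, Finset.sum_const, nsmul_eq_mul, mul_one]

lemma win_card_le (S : Set ℤ) (a : ℤ) (L : ℕ) : (win S a L).card ≤ L := by
  classical
  refine (Finset.card_filter_le _ _).trans ?_
  simp

/-- the measures -/
noncomputable def mea (I : Finset ℤ) (L : ℕ) : Measure UnitAddCircle :=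
  (AddCircle.haarAddCircle : Measure UnitAddCircle).withDensity (fun θ => (dens I L θ : ENNReal))

lemma mea_univ (I : Finset ℤ) (L : ℕ) :
    mea I L Set.univ = ENNReal.ofReal ((1 / (L : ℝ)) * (I.card : ℝ)) := by
  have h0 := int_dens I L 0
  have h1 : ∫ θ, ((dens I L θ : ℝ) : ℂ) * fourier 0 θ
      ∂(AddCircle.haarAddCircle : Measure UnitAddCircle) =
      ((∫ θ, (dens I L θ : ℝ) ∂(AddCircle.haarAddCircle : Measure UnitAddCircle) : ℝ) : ℂ) := by
    rw [← integral_complex_ofReal]
    refine integral_congr_ae (Filter.Eventually.of_forall fun θ => ?_)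
    simp
  rw [h1] at h0
  have h2 : (∫ θ, (dens I L θ : ℝ) ∂(AddCircle.haarAddCircle : Measure UnitAddCircle)) =
      (1 / (L : ℝ)) * (I.card : ℝ) := by
    have h3 : (I.filter (fun k => k + 0 ∈ I)) = I := by
      refine Finset.filter_true_of_mem fun k hk => ?_
      simpa using hk
    rw [h3] at h0
    apply Complex.ofReal_injective
    rw [h0]
    push_cast
    rfl
  unfold mea
  rw [withDensity_apply _ MeasurableSet.univ, Measure.restrict_univ, ← h2,
    ofReal_integral_eq_lintegral_ofReal]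
  · refine lintegral_congr fun θ => ?_
    rw [ENNReal.ofReal_coe_nnreal]
  · exact ((NNReal.continuous_coe.comp (dens_cont I L)).integrable_of_hasCompactSupport
      (HasCompactSupport.of_compactSpace _))
  · exact Filter.Eventually.of_forall fun θ => NNReal.coe_nonneg _

lemma mea_int (I : Finset ℤ) (L : ℕ) (d : ℤ) :
    ∫ θ, fourier d θ ∂(mea I L) = (1 / (L : ℂ)) * ((I.filter (fun k => k + d ∈ I)).card : ℂ) := by
  unfold mea
  rw [integral_withDensity_eq_integral_smul (dens_cont I L).measurable, ← int_dens]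
  rfl

lemma filter_diff (S : Set ℤ) (a : ℤ) (L : ℕ) (hL : 0 < L) (d : ℤ) :
    ‖(1 / (L : ℂ)) * (((win S a L).filter (fun k => k + d ∈ win S a L)).card : ℂ) -
      ((corr S a L d : ℝ) : ℂ)‖ ≤ |(d : ℝ)| / L := by
  classical
  set A := (win S a L).filter (fun k => k + d ∈ win S a L) with hA
  set B := (Finset.Ioc a (a + L)).filter (fun n => n ∈ S ∧ n + d ∈ S) with hB
  have hAB : A ⊆ B := by
    intro k hk
    simp only [hA, win, Finset.mem_filter] at hk
    simp only [hB, Finset.mem_filter]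
    exact ⟨hk.1.1, hk.1.2, hk.2.2⟩
  have hsub : B \ A ⊆ (Finset.Ioc (a + L - d) (a + L)) ∪ (Finset.Ioc a (a - d)) := by
    intro k hk
    simp only [Finset.mem_sdiff, hA, hB, win, Finset.mem_filter, Finset.mem_Ioc, not_and] at hk
    simp only [Finset.mem_union, Finset.mem_Ioc]
    obtain ⟨⟨⟨h1, h2⟩, h3, h4⟩, h5⟩ := hk
    by_contra hcon
    simp only [not_or, not_and, not_le] at hcon
    refine h5 ⟨⟨h1, h2⟩, h3⟩ ⟨?_, ?_⟩ h4
    · have := hcon.2 h1
      omega
    · by_contra hc
      have := hcon.1 (by omega)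
      omega
  have hcard : ((B \ A).card : ℝ) ≤ |(d : ℝ)| := by
    have h1 := (Finset.card_le_card hsub).trans (Finset.card_union_le _ _)
    simp only [Int.card_Ioc] at h1
    have h2 : (a + L - (a + L - d)).toNat + (a - d - a).toNat = d.natAbs := by omega
    rw [h2] at h1
    calc ((B \ A).card : ℝ) ≤ (d.natAbs : ℝ) := by exact_mod_cast h1
      _ = |(d : ℝ)| := by
        rw [Nat.cast_natAbs]
        push_cast
        rfl
  have hc : (B.card : ℝ) = (B \ A).card + A.card := by
    have := Finset.card_sdiff_add_card_eq_card hAB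
    exact_mod_cast this.symm
  have hcorr : corr S a L d = (B.card : ℝ) / L := by
    unfold corr
    rw [hB]
  rw [hcorr]
  have hLr : (0 : ℝ) < L := by exact_mod_cast hL
  have he : (1 / (L : ℂ)) * (A.card : ℂ) - (((B.card : ℝ) / L : ℝ) : ℂ) =
      ((-((B \ A).card / L : ℝ) : ℝ) : ℂ) := by
    rw [hc]
    push_cast
    ring
  rw [he, Complex.norm_real, norm_neg, Real.norm_of_nonneg (by positivity)]
  gcongr

end SpecAux

open SpecAux Filter Topology in
theorem spec {S : Set ℤ} {δ : ℝ} (hS : UBDge S δ) :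
    ∃ σ : Measure UnitAddCircle, IsFiniteMeasure σ ∧ σ Set.univ ≤ 1 ∧
      ∀ (M : ℕ) (η : ℝ), 0 < η → ∀ L₀ : ℕ, ∃ L : ℕ, L₀ ≤ L ∧ 0 < L ∧ ∃ a : ℤ,
        δ * L ≤ cnt S a L ∧ ∀ d : ℤ, |d| ≤ M →
          ‖(∫ θ, fourier d θ ∂σ) - ((corr S a L d : ℝ) : ℂ)‖ ≤ η := by
  choose L hL hLpos a ha using hS
  have hfin : ∀ n, IsFiniteMeasure (mea (win S (a n) (L n)) (L n)) := fun n =>
    ⟨by rw [mea_univ]; exact ENNReal.ofReal_lt_top⟩
  let μ : ℕ → FiniteMeasure UnitAddCircle := fun n => ⟨mea (win S (a n) (L n)) (L n), hfin n⟩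
  have hmass : ∀ n, mea (win S (a n) (L n)) (L n) Set.univ ≤ 1 := by
    intro n
    rw [mea_univ, ← ENNReal.ofReal_one]
    refine ENNReal.ofReal_le_ofReal ?_
    have h1 : (0 : ℝ) < L n := by exact_mod_cast hLpos n
    have h2 : ((win S (a n) (L n)).card : ℝ) ≤ L n := by exact_mod_cast win_card_le S (a n) (L n)
    rw [one_div, inv_mul_le_iff₀ h1, mul_one]
    exact h2
  have hcomp := isCompact_setOfPred_finiteMeasure_le_of_compactSpace UnitAddCircle (1 : NNReal)
  have hmem : ∀ n, μ n ∈ {μ : FiniteMeasure UnitAddCircle | μ.mass ≤ (1 : NNReal)} := by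
    intro n
    show (μ n).mass ≤ 1
    rw [← ENNReal.coe_le_coe, FiniteMeasure.ennreal_mass]
    exact hmass n
  obtain ⟨σ, hσK, hσ⟩ := hcomp.exists_mapClusterPt (f := atTop) (u := μ)
    (tendsto_principal.2 (Eventually.of_forall hmem))
  refine ⟨(σ : Measure UnitAddCircle), inferInstance, ?_, ?_⟩
  · have : σ.mass ≤ 1 := hσK
    rw [← ENNReal.coe_le_coe, FiniteMeasure.ennreal_mass] at this
    exact this
  intro M η hη L₀
  have hcont : ∀ d : ℤ, Continuous fun ν : FiniteMeasure UnitAddCircle =>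
      ∫ θ, fourier d θ ∂(ν : Measure UnitAddCircle) := by
    intro d
    let re : C(UnitAddCircle, ℝ) :=
      ⟨fun x => (fourier d x).re, Complex.continuous_re.comp (fourier d).continuous⟩
    let im : C(UnitAddCircle, ℝ) :=
      ⟨fun x => (fourier d x).im, Complex.continuous_im.comp (fourier d).continuous⟩
    have h1 := FiniteMeasure.continuous_integral_continuousMap re
    have h2 := FiniteMeasure.continuous_integral_continuousMap im
    have h3 : (fun ν : FiniteMeasure UnitAddCircle =>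
        ∫ θ, fourier d θ ∂(ν : Measure UnitAddCircle)) =
        fun ν : FiniteMeasure UnitAddCircle =>
          ((∫ x, re x ∂(ν : Measure UnitAddCircle) : ℝ) : ℂ) +
            ((∫ x, im x ∂(ν : Measure UnitAddCircle) : ℝ) : ℂ) * Complex.I := by
      funext ν
      have hint : Integrable (fun θ : UnitAddCircle => fourier d θ)
          (ν : Measure UnitAddCircle) :=
        (fourier d).continuous.integrable_of_hasCompactSupport
          (HasCompactSupport.of_compactSpace _)
      have := integral_re_add_im hint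
      exact this.symm
    rw [h3]
    exact (Complex.continuous_ofReal.comp h1).add
      ((Complex.continuous_ofReal.comp h2).mul continuous_const)
  have hU : {ν : FiniteMeasure UnitAddCircle | ∀ d ∈ Finset.Icc (-(M : ℤ)) M,
      ‖(∫ θ, fourier d θ ∂(ν : Measure UnitAddCircle)) -
        ∫ θ, fourier d θ ∂(σ : Measure UnitAddCircle)‖ < η / 2} ∈ 𝓝 σ := by
    have : ∀ᶠ ν : FiniteMeasure UnitAddCircle in 𝓝 σ, ∀ d ∈ Finset.Icc (-(M : ℤ)) M,
        ‖(∫ θ, fourier d θ ∂(ν : Measure UnitAddCircle)) -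
        ∫ θ, fourier d θ ∂(σ : Measure UnitAddCircle)‖ < η / 2 := by
      rw [Filter.eventually_all_finset]
      intro d _
      have h1 : Tendsto (fun ν : FiniteMeasure UnitAddCircle =>
          ∫ θ, fourier d θ ∂(ν : Measure UnitAddCircle)) (𝓝 σ)
          (𝓝 (∫ θ, fourier d θ ∂(σ : Measure UnitAddCircle))) := (hcont d).continuousAt
      have h2 := (Metric.tendsto_nhds.1 h1) (η / 2) (by positivity)
      simpa only [dist_eq_norm] using h2
    exact this
  have hfreq := (mapClusterPt_iff_frequently.1 hσ) _ hU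
  obtain ⟨N, hN⟩ := exists_nat_gt (2 * (M : ℝ) / η)
  obtain ⟨n, hn, hnU⟩ := (Filter.frequently_atTop.1 hfreq) (max L₀ (max N 1))
  refine ⟨L n, ((le_max_left _ _).trans hn).trans (hL n), hLpos n, a n, ha n, ?_⟩
  intro d hd
  have hd' : d ∈ Finset.Icc (-(M : ℤ)) M := by
    rw [Finset.mem_Icc]
    exact abs_le.1 hd
  have h1 := hnU d hd'
  have h2 := filter_diff S (a n) (L n) (hLpos n) d
  rw [← mea_int] at h2
  have hLr : (0 : ℝ) < L n := by exact_mod_cast hLpos n
  have hLN : (N : ℝ) ≤ L n := by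
    have : N ≤ L n := (((le_max_left _ _).trans (le_max_right _ _)).trans hn).trans (hL n)
    exact_mod_cast this
  have h3 : |(d : ℝ)| / L n ≤ η / 2 := by
    rw [div_le_iff₀ hLr]
    have h4 : |(d : ℝ)| ≤ M := by exact_mod_cast hd
    have h5 : 2 * (M : ℝ) < N * η := by rwa [div_lt_iff₀ hη] at hN
    nlinarith
  have h4 : (∫ θ, fourier d θ ∂(σ : Measure UnitAddCircle)) -
      ((corr S (a n) (L n) d : ℝ) : ℂ) =
      -((∫ θ, fourier d θ ∂(mea (win S (a n) (L n)) (L n))) -
        ∫ θ, fourier d θ ∂(σ : Measure UnitAddCircle)) +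
      ((∫ θ, fourier d θ ∂(mea (win S (a n) (L n)) (L n))) -
        ((corr S (a n) (L n) d : ℝ) : ℂ)) := by ring
  rw [h4]
  refine (norm_add_le _ _).trans ?_
  rw [norm_neg]
  have h5 : ‖(∫ θ, fourier d θ ∂(mea (win S (a n) (L n)) (L n))) -
        ∫ θ, fourier d θ ∂(σ : Measure UnitAddCircle)‖ < η / 2 := h1
  linarith

end Pool.Agent.H92.BH
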