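import Pool.Agent.H92.BH.Defs

/-!
[H92 BH COMP]  Compactness: from infinite sets to long windows.

Proof.  Suppose not: there are `ε > 0` and for every `n` some `M n ≥ n`, `M n > 0`, a set `S n` and `a n` with
`ε * M n ≤ cnt (S n) (a n) (M n)` and no `j`-clique in `S n ∩ (a n, a n + M n]`.
(1) Good starting point: let `φ t = cnt (S n) (a n) t - (ε/2) t` for naturals `t ≤ M n` and `t*` a minimum point of `φ` on `[0, M n]`.
For `t* ≤ t ≤ M n`: `φ t ≥ φ t*` says `cnt (S n) (a n + t*) (t - t*) ≥ (ε/2)(t - t*)` (`cnt` is additive over adjacent windows).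
`φ t* ≤ φ 0 = 0`, `φ (M n) ≥ (ε/2) M n`, and `φ (M n) - φ t* ≤ cnt (S n) (a n + t*) (M n - t*) ≤ M n - t*`, so
`M n - t* ≥ (ε/2) M n`.
(2) Put `b n = a n + t*`, `T n = {k : ℤ | 0 < k, k ≤ M n - t*, k + b n ∈ S n}`, and with the ultrafilter `U = Filter.hyperfilter ℕ` let
`T = {k | ∀ᶠ n in U, k ∈ T n}`.  For every `m ≥ 1` eventually along `U`: `M n - t* ≥ m` and `T ∩ (0,m] = T n ∩ (0,m]` (finitely many
`k`, ultrafilter), so `cnt T 0 m ≥ (ε/2) m`: `UBD T` (`δ = ε/2`, window `a = 0`, `L = max L₀ 1`).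
By hypothesis `T` contains a `j`-clique; finitely many elements, so along `U` it is a `j`-clique in `T n` for some `n`, and its
translate by `b n` is a `j`-clique in `S n ∩ (a n, a n + M n]` (differences are translation invariant).  Contradiction.
-/

namespace Pool.Agent.H92.BH

open MeasureTheory

theorem cnt_add (S : Set ℤ) (a : ℤ) (s t : ℕ) : cnt S a (s + t) = cnt S a s + cnt S (a + s) t := by
  classical
  unfold cnt
  have h1 : Finset.Ioc a (a + ((s + t : ℕ) : ℤ)) =
      Finset.Ioc a (a + s) ∪ Finset.Ioc (a + s) (a + s + t) := by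
    ext x
    rw [Finset.mem_union, Finset.mem_Ioc, Finset.mem_Ioc, Finset.mem_Ioc]
    push_cast
    omega
  rw [h1, Finset.filter_union, Finset.card_union_of_disjoint]
  rw [Finset.disjoint_left]
  intro x hx hy
  have hx1 := Finset.mem_Ioc.1 (Finset.mem_filter.1 hx).1
  have hy1 := Finset.mem_Ioc.1 (Finset.mem_filter.1 hy).1
  omega

theorem cnt_le (S : Set ℤ) (a : ℤ) (t : ℕ) : cnt S a t ≤ t := by
  classical
  unfold cnt
  refine (Finset.card_filter_le _ _).trans ?_
  rw [Int.card_Ioc]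
  simp

theorem comp {D : Set ℤ} {j : ℕ} (h : ∀ S : Set ℤ, UBD S → HasClq D S j) {ε : ℝ} (hε : 0 < ε) :
    ∃ M₀ : ℕ, ∀ M : ℕ, M₀ ≤ M → 0 < M → ∀ (S : Set ℤ) (a : ℤ), ε * M ≤ cnt S a M →
      HasClq D (S ∩ Set.Ioc a (a + M)) j := by
  classical
  by_contra hcon
  push Not at hcon
  choose M hM hpos S a hc hn using hcon
  -- good starting points
  have hstart : ∀ n, ∃ t : ℕ, t ≤ M n ∧ ε / 2 * M n ≤ ((M n - t : ℕ) : ℝ) ∧
      ∀ s : ℕ, s ≤ M n - t → ε / 2 * s ≤ cnt (S n) (a n + t) s := by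
    intro n
    obtain ⟨t, ht, hmin⟩ := Finset.exists_min_image (Finset.range (M n + 1))
      (fun t : ℕ => (cnt (S n) (a n) t : ℝ) - ε / 2 * t) ⟨0, by simp⟩
    have htM : t ≤ M n := by have := Finset.mem_range.1 ht; omega
    refine ⟨t, htM, ?_, fun s hs => ?_⟩
    · have h1 := hmin 0 (by simp)
      have h2 : (cnt (S n) (a n) 0 : ℝ) = 0 := by
        have := cnt_le (S n) (a n) 0
        exact_mod_cast Nat.le_zero.1 this
      rw [h2] at h1
      have h3 : cnt (S n) (a n) (M n) = cnt (S n) (a n) t + cnt (S n) (a n + t) (M n - t) := by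
        rw [← cnt_add]; congr 1; omega
      have h4 := cnt_le (S n) (a n + t) (M n - t)
      have h5 : (cnt (S n) (a n) (M n) : ℝ) ≤ cnt (S n) (a n) t + ((M n - t : ℕ) : ℝ) := by
        rw [h3]; push_cast
        have : (cnt (S n) (a n + t) (M n - t) : ℝ) ≤ ((M n - t : ℕ) : ℝ) := by exact_mod_cast h4
        linarith
      have h6 := hc n
      have h7 : (t : ℝ) ≤ M n := by exact_mod_cast htM
      push_cast at h1
      nlinarith
    · have h1 := hmin (t + s) (by simp; omega)
      rw [cnt_add] at h1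
      push_cast at h1
      linarith
  choose t ht hlen hdens using hstart
  set T : ℕ → Set ℤ := fun n => {k | 0 < k ∧ k ≤ ((M n - t n : ℕ) : ℤ) ∧ k + (a n + t n) ∈ S n}
    with hT
  have hTn : ∀ n, ¬ HasClq D (T n) j := by
    rintro n ⟨C, hC, hCT, hCD⟩
    apply hn n
    refine ⟨C.image (fun k => k + (a n + t n)), ?_, ?_, ?_⟩
    · rw [Finset.card_image_of_injective _ (add_left_injective _), hC]
    · intro x hx
      obtain ⟨k, hk, rfl⟩ := Finset.mem_image.1 hx
      obtain ⟨h1, h2, h3⟩ := hCT k hk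
      refine ⟨h3, ?_⟩
      rw [Set.mem_Ioc]
      have := ht n
      constructor <;> omega
    · intro x hx y hy hxy
      obtain ⟨k, hk, rfl⟩ := Finset.mem_image.1 hx
      obtain ⟨l, hl, rfl⟩ := Finset.mem_image.1 hy
      have : k + (a n + t n) - (l + (a n + t n)) = k - l := by ring
      rw [this]
      exact hCD k hk l hl (fun h => hxy (by rw [h]))
  have hTd : ∀ n, ∀ s : ℕ, s ≤ M n - t n → ε / 2 * s ≤ cnt (T n) 0 s := by
    intro n s hs
    refine (hdens n s hs).trans ?_
    unfold cnt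
    have h1 : ((Finset.Ioc (a n + t n) (a n + t n + s)).filter (fun k => k ∈ S n)).card ≤
        ((Finset.Ioc (0 : ℤ) (0 + s)).filter (fun k => k ∈ T n)).card := by
      refine Finset.card_le_card_of_injOn (fun k => k - (a n + t n)) ?_ ?_
      · intro k hk
        rw [Finset.mem_coe] at hk ⊢
        obtain ⟨h1, h2⟩ := Finset.mem_filter.1 hk
        rw [Finset.mem_Ioc] at h1
        have hh : (fun k => k - (a n + (t n : ℤ))) k = k - (a n + t n) := rfl
        rw [hh]
        refine Finset.mem_filter.2 ⟨?_, ?_⟩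
        · rw [Finset.mem_Ioc]
          constructor <;> omega
        · refine ⟨by omega, by omega, ?_⟩
          have : k - (a n + t n) + (a n + t n) = k := by ring
          rw [this]; exact h2
      · intro x _ y _ hxy
        simp only at hxy
        omega
    have h2 : (((Finset.Ioc (a n + t n) (a n + t n + s)).filter (fun k => k ∈ S n)).card : ℝ) ≤
        (((Finset.Ioc (0 : ℤ) (0 + s)).filter (fun k => k ∈ T n)).card : ℝ) := by exact_mod_cast h1
    refine le_trans (le_of_eq ?_) (h2.trans (le_of_eq ?_)) <;> congr!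
  set U := Filter.hyperfilter ℕ with hU
  set TT : Set ℤ := {k | ∀ᶠ n in (U : Filter ℕ), k ∈ T n} with hTT
  have hiff : ∀ k : ℤ, ∀ᶠ n in (U : Filter ℕ), (k ∈ TT ↔ k ∈ T n) := by
    intro k
    by_cases hk : k ∈ TT
    · have h1 : ∀ᶠ n in (U : Filter ℕ), k ∈ T n := hk
      filter_upwards [h1] with n hn
      exact ⟨fun _ => hn, fun _ => hk⟩
    · have h1 : ∀ᶠ n in (U : Filter ℕ), ¬ k ∈ T n := Ultrafilter.eventually_not.2 hk
      filter_upwards [h1] with n hn
      exact ⟨fun h => absurd h hk, fun h => absurd h hn⟩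
  have hfin : ∀ F : Finset ℤ, ∀ᶠ n in (U : Filter ℕ), ∀ k ∈ F, (k ∈ TT ↔ k ∈ T n) := by
    intro F
    rw [Filter.eventually_all_finset]
    exact fun k _ => hiff k
  have hlarge : ∀ m : ℕ, ∀ᶠ n in (U : Filter ℕ), m ≤ M n - t n := by
    intro m
    have h1 : (U : Filter ℕ) ≤ Filter.atTop := by
      rw [← Nat.cofinite_eq_atTop]
      exact Filter.hyperfilter_le_cofinite
    apply h1
    obtain ⟨N, hN⟩ := exists_nat_gt ((m : ℝ) / (ε / 2))
    filter_upwards [Filter.eventually_ge_atTop N] with n hn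
    have h2 : (m : ℝ) < N * (ε / 2) := (div_lt_iff₀ (by positivity)).1 hN
    have h3 : (N : ℝ) ≤ M n := by exact_mod_cast hn.trans (hM n)
    have h4 := hlen n
    have h5 : (m : ℝ) ≤ ((M n - t n : ℕ) : ℝ) := by nlinarith
    exact_mod_cast h5
  have hUBD : UBD TT := by
    refine ⟨ε / 2, by positivity, fun L₀ => ⟨max L₀ 1, le_max_left _ _, by omega, 0, ?_⟩⟩
    obtain ⟨n, hn1, hn2⟩ := ((hfin (Finset.Ioc (0 : ℤ) (0 + (max L₀ 1 : ℕ)))).and
      (hlarge (max L₀ 1))).exists
    have h1 := hTd n (max L₀ 1) hn2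
    have h2 : cnt TT 0 (max L₀ 1) = cnt (T n) 0 (max L₀ 1) := by
      unfold cnt
      congr 1
      ext x
      simp only [Finset.mem_filter]
      exact and_congr_right (fun hx => hn1 x hx)
    rw [h2]
    exact h1
  obtain ⟨C, hC, hCT, hCD⟩ := h TT hUBD
  obtain ⟨n, hn1⟩ := (hfin C).exists
  exact hTn n ⟨C, hC, fun x hx => (hn1 x hx).1 (hCT x hx), hCD⟩

end Pool.Agent.H92.BH
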