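import Pool.Agent.H92.BH.Defs

/-!
[H92 BH WIEN]  Wiener's lemma, uniform in the position of the window.

Proof.  `∑_{d ∈ (A, A+M]} ‖σ^(d)‖^2 = ∫∫ ∑_d fourier d (θ - θ') dσ dσ` (`σ^(d) = ∫ fourier d dσ`, conjugate
`∫ fourier (-d)`, Fubini), and `|(1/M) ∑_{d ∈ (A,A+M]} fourier d t| = |(1/M) ∑_{d=1}^M fourier d t| =: K_M t`
(factor out `fourier A t`, norm 1), so the average is at most `∫∫ K_M (θ - θ') dσ dσ`, independent of `A`.
`0 ≤ K_M ≤ 1` and `K_M t → 0` for `t ≠ 0` (geometric sum: `K_M t ≤ 2/(M ‖1 - fourier 1 t‖)`), so the double integral tends to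
`(σ × σ)(diagonal) = ∫ σ {θ} dσ(θ) = 0` by dominated convergence (`Measure.prod_apply` for the diagonal).
-/

namespace Pool.Agent.H92.BH

open MeasureTheory Filter Topology

theorem wn_sum_Ioc {β : Type*} [AddCommMonoid β] (f : ℤ → β) (A : ℤ) (M : ℕ) :
    ∑ d ∈ Finset.Ioc A (A + M), f d = ∑ k ∈ Finset.range M, f (A + 1 + k) := by
  induction M with
  | zero => simp
  | succ M ih =>
    have h : Finset.Ioc A (A + ((M + 1 : ℕ) : ℤ)) = insert (A + 1 + M) (Finset.Ioc A (A + M)) := by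
      ext d
      simp only [Finset.mem_Ioc, Finset.mem_insert]
      push_cast
      omega
    rw [h, Finset.sum_insert, Finset.sum_range_succ, ih, add_comm]
    simp only [Finset.mem_Ioc]
    omega

/-- geometric sum -/
noncomputable def wD (M : ℕ) (t : UnitAddCircle) : ℂ :=
  ∑ k ∈ Finset.range M, (fourier 1 t : ℂ) ^ k

theorem wn_norm (d : ℤ) (t : UnitAddCircle) : ‖(fourier d t : ℂ)‖ = 1 := by
  rw [fourier_apply]
  exact Circle.norm_coe _

theorem wn_pow (k : ℕ) (t : UnitAddCircle) :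
    (fourier (k : ℤ) t : ℂ) = (fourier 1 t : ℂ) ^ k := by
  rw [fourier_apply, fourier_apply, one_zsmul, natCast_zsmul, AddCircle.toCircle_nsmul,
    Circle.coe_pow]

theorem wn_window (A : ℤ) (M : ℕ) (t : UnitAddCircle) :
    ‖∑ d ∈ Finset.Ioc A (A + M), (fourier d t : ℂ)‖ = ‖wD M t‖ := by
  rw [wn_sum_Ioc (fun d => (fourier d t : ℂ)) A M]
  have h : ∀ k ∈ Finset.range M, (fourier (A + 1 + (k : ℤ)) t : ℂ) =
      fourier (A + 1) t * (fourier 1 t : ℂ) ^ k := by
    intro k _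
    rw [fourier_add, wn_pow]
  rw [Finset.sum_congr rfl h, ← Finset.mul_sum, norm_mul, wn_norm, one_mul]
  rfl

theorem wD_norm_le (M : ℕ) (t : UnitAddCircle) : ‖wD M t‖ ≤ M := by
  unfold wD
  calc ‖∑ k ∈ Finset.range M, (fourier 1 t : ℂ) ^ k‖
      ≤ ∑ k ∈ Finset.range M, ‖(fourier 1 t : ℂ) ^ k‖ := norm_sum_le _ _
    _ = M := by
        have : ∀ k ∈ Finset.range M, ‖(fourier 1 t : ℂ) ^ k‖ = 1 := by
          intro k _
          rw [norm_pow, wn_norm, one_pow]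
        rw [Finset.sum_congr rfl this, Finset.sum_const, Finset.card_range, nsmul_eq_mul, mul_one]

theorem wn_one {t : UnitAddCircle} (ht : t ≠ 0) : (fourier 1 t : ℂ) ≠ 1 := by
  rw [fourier_one]
  intro h
  apply ht
  apply AddCircle.injective_toCircle (T := 1) one_ne_zero
  rw [AddCircle.toCircle_zero]
  exact Circle.ext h

theorem wD_tendsto {t : UnitAddCircle} (ht : t ≠ 0) :
    Tendsto (fun M : ℕ => ‖wD M t‖ / M) atTop (𝓝 0) := by
  have h1 := wn_one ht
  have h2 : 0 < ‖(fourier 1 t : ℂ) - 1‖ := norm_pos_iff.2 (sub_ne_zero.2 h1)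
  have h3 : ∀ M : ℕ, ‖wD M t‖ ≤ 2 / ‖(fourier 1 t : ℂ) - 1‖ := by
    intro M
    unfold wD
    rw [geom_sum_eq h1, norm_div]
    gcongr
    calc ‖(fourier 1 t : ℂ) ^ M - 1‖ ≤ ‖(fourier 1 t : ℂ) ^ M‖ + ‖(1 : ℂ)‖ := norm_sub_le _ _
      _ = 2 := by rw [norm_pow, wn_norm, one_pow, norm_one]; norm_num
  have h4 : Tendsto (fun M : ℕ => (2 / ‖(fourier 1 t : ℂ) - 1‖) / (M : ℝ)) atTop (𝓝 0) :=
    tendsto_const_div_atTop_nhds_zero_nat _
  apply squeeze_zero _ _ h4
  · intro M; positivity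
  · intro M
    have := h3 M
    gcongr

theorem wn_diag (σ : Measure UnitAddCircle) [IsFiniteMeasure σ] (hat : ∀ θ, σ {θ} = 0) :
    ∀ᵐ p ∂(σ.prod σ), p.1 - p.2 ≠ (0 : UnitAddCircle) := by
  rw [ae_iff]
  have h1 : {p : UnitAddCircle × UnitAddCircle | ¬ p.1 - p.2 ≠ 0} = {p | p.1 = p.2} := by
    ext p
    simp only [Set.mem_ofPred_eq, not_not, sub_eq_zero]
  rw [h1]
  have h2 : MeasurableSet {p : UnitAddCircle × UnitAddCircle | p.1 = p.2} :=
    (isClosed_eq continuous_fst continuous_snd).measurableSet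
  rw [Measure.prod_apply h2]
  have h3 : ∀ x : UnitAddCircle, σ (Prod.mk x ⁻¹' {p : UnitAddCircle × UnitAddCircle | p.1 = p.2}) =
      0 := by
    intro x
    have : (Prod.mk x ⁻¹' {p : UnitAddCircle × UnitAddCircle | p.1 = p.2}) = {x} := by
      ext y
      simp only [Set.mem_preimage, Set.mem_ofPred_eq, Set.mem_singleton_iff]
      exact eq_comm
    rw [this]
    exact hat x
  simp only [h3, lintegral_zero]

theorem wD_meas (M : ℕ) : Continuous (wD M) := by
  unfold wD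
  fun_prop

theorem wn_int (σ : Measure UnitAddCircle) [IsFiniteMeasure σ] (d : ℤ) :
    ((‖∫ θ, fourier d θ ∂σ‖ ^ 2 : ℝ) : ℂ) = ∫ p, (fourier d (p.1 - p.2) : ℂ) ∂(σ.prod σ) := by
  have h1 : ∀ p : UnitAddCircle × UnitAddCircle,
      (fourier d (p.1 - p.2) : ℂ) = fourier d p.1 * (starRingEnd ℂ) (fourier d p.2) := by
    intro p
    rw [← fourier_neg, fourier_apply, fourier_apply, fourier_apply, ← Circle.coe_mul,
      ← AddCircle.toCircle_add]
    congr 2
    rw [zsmul_sub, neg_zsmul]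
    abel
  simp only [h1]
  rw [integral_prod_mul (fun x => (fourier d x : ℂ)) (fun y => (starRingEnd ℂ) (fourier d y : ℂ)),
    integral_conj, Complex.mul_conj, Complex.normSq_eq_norm_sq]

theorem wn_integrable (σ : Measure UnitAddCircle) [IsFiniteMeasure σ]
    (f : UnitAddCircle × UnitAddCircle → ℂ) (hf : Continuous f) (C : ℝ) (hC : ∀ p, ‖f p‖ ≤ C) :
    Integrable f (σ.prod σ) :=
  Integrable.of_bound hf.aestronglyMeasurable C (Filter.Eventually.of_forall hC)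

theorem wn_bound (σ : Measure UnitAddCircle) [IsFiniteMeasure σ] (A : ℤ) (M : ℕ) :
    ∑ d ∈ Finset.Ioc A (A + M), ‖∫ θ, fourier d θ ∂σ‖ ^ 2 ≤
      ∫ p, ‖wD M (p.1 - p.2)‖ ∂(σ.prod σ) := by
  have h1 : (((∑ d ∈ Finset.Ioc A (A + M), ‖∫ θ, fourier d θ ∂σ‖ ^ 2 : ℝ)) : ℂ) =
      ∫ p, (∑ d ∈ Finset.Ioc A (A + M), (fourier d (p.1 - p.2) : ℂ)) ∂(σ.prod σ) := by
    rw [integral_finsetSum]
    · push_cast
      apply Finset.sum_congr rfl
      intro d _
      rw [← wn_int σ d]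
      push_cast
      rfl
    · intro d _
      apply wn_integrable σ _ (by fun_prop) 1
      intro p
      rw [wn_norm]
  have h2 : ∑ d ∈ Finset.Ioc A (A + M), ‖∫ θ, fourier d θ ∂σ‖ ^ 2 ≤
      ‖(((∑ d ∈ Finset.Ioc A (A + M), ‖∫ θ, fourier d θ ∂σ‖ ^ 2 : ℝ)) : ℂ)‖ := by
    rw [Complex.norm_real]
    exact le_abs_self _
  refine h2.trans ?_
  rw [h1]
  refine (norm_integral_le_integral_norm _).trans (le_of_eq ?_)
  apply integral_congr_ae
  filter_upwards with p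
  exact wn_window A M (p.1 - p.2)

theorem wiener (σ : Measure UnitAddCircle) [IsFiniteMeasure σ] (hat : ∀ θ, σ {θ} = 0) {ε : ℝ}
    (hε : 0 < ε) : ∃ M₀ : ℕ, ∀ M : ℕ, M₀ ≤ M → ∀ A : ℤ,
      ∑ d ∈ Finset.Ioc A (A + M), ‖∫ θ, fourier d θ ∂σ‖ ^ 2 ≤ ε * M := by
  have hlim : Tendsto (fun M : ℕ => ∫ p, ‖wD M (p.1 - p.2)‖ / M ∂(σ.prod σ)) atTop (𝓝 0) := by
    have h0 : (0 : ℝ) = ∫ p : UnitAddCircle × UnitAddCircle, (0 : ℝ) ∂(σ.prod σ) := by simp
    rw [h0]
    apply tendsto_integral_of_dominated_convergence (fun _ => (1 : ℝ))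
    · intro M
      apply Continuous.aestronglyMeasurable
      have := wD_meas M
      fun_prop
    · exact integrable_const _
    · intro M
      filter_upwards with p
      rw [Real.norm_eq_abs, abs_of_nonneg (by positivity)]
      rcases Nat.eq_zero_or_pos M with h | h
      · subst h; simp
      · have hM : (0 : ℝ) < M := by exact_mod_cast h
        rw [div_le_one hM]
        exact wD_norm_le M _
    · filter_upwards [wn_diag σ hat] with p hp
      exact wD_tendsto hp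
  have hev := hlim.eventually (gt_mem_nhds hε)
  rw [eventually_atTop] at hev
  obtain ⟨M₀, hM₀⟩ := hev
  refine ⟨M₀, fun M hM A => ?_⟩
  rcases Nat.eq_zero_or_pos M with h | h
  · subst h; simp
  · have hM' : (0 : ℝ) < M := by exact_mod_cast h
    have h1 := hM₀ M hM
    rw [integral_div, div_lt_iff₀ hM'] at h1
    exact (wn_bound σ A M).trans h1.le

end Pool.Agent.H92.BH
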