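import Pool.Agent.H92.BH.Wien

/-!
[H92 BH SPLIT]  Atoms and continuous part: the Fourier coefficients are large on a Bohr set, up to an error which is small
on average.

Proof.  Let `κ = (σ {0}).toReal > 0`.  The set `At = {θ | σ {θ} ≠ 0}` is countable
(`Measure.countable_meas_pos_of_disjoint_iUnion` or `Set.Countable` of atoms of a finite measure).  There is a finite set
`Θ ⊆ At`, `0 ∈ Θ`, with `σ (At \ Θ) ≤ κ/8` (measure of a countable set is the sum of the atoms: `tsum`).  Split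
`σ = σ|Θ + σ|(At \ Θ) + σ|Atᶜ`; `σc := σ.restrict Atᶜ` has no atoms.  Put `g d = ‖∫ fourier d dσc‖`.  Then
`Re ∫ fourier d dσ ≥ ∑_{θ ∈ Θ} (σ {θ}).toReal * Re (fourier d θ) - κ/8 - g d`.
Every `θ ∈ UnitAddCircle` is `(α : UnitAddCircle)` for a real `α` (`QuotientAddGroup.mk_surjective`), and
`fourier d θ = exp(2 π i d α)`; if `|d α - m| < ρ` with `m` an integer then `Re (fourier d θ) = cos(2π(dα - m)) ≥ 1 - 20 ρ^2` (`1 - t^2/2 ≤ cos t`).
Choose `ρ > 0` with `20 ρ^2 * (σ univ).toReal ≤ κ/8`.  The sum over `Θ` is at least `σ(Θ) - κ/8 ≥ κ - κ/8`.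
Total `≥ κ (1 - 1/8 - 1/8) - g d ≥ κ/2 - g d`.
Average of `g`: Cauchy-Schwarz, `∑_{d} g d ≤ (M ∑_d g d^2)^{1/2} ≤ (M * ε^2 M)^{1/2} = ε M` (`wiener` with `ε^2`).
Let `J = Θ.card` and index `Θ` by `Fin J`.
-/

namespace Pool.Agent.H92.BH

open MeasureTheory

theorem split_finite_atoms (σ : Measure UnitAddCircle) [IsFiniteMeasure σ] {δ : ℝ} (hδ : 0 < δ)
    (h0 : σ {0} ≠ 0) :
    ∃ Θ : Finset UnitAddCircle, (0 : UnitAddCircle) ∈ Θ ∧ (∀ θ ∈ Θ, σ {θ} ≠ 0) ∧
      {θ : UnitAddCircle | σ {θ} ≠ 0}.Countable ∧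
      σ.real ({θ : UnitAddCircle | σ {θ} ≠ 0} \ (Θ : Set UnitAddCircle)) ≤ δ := by
  classical
  have hAt : {θ : UnitAddCircle | σ {θ} ≠ 0}.Countable := by
    have h1 := Measure.countable_meas_pos_of_disjoint_iUnion (μ := σ)
      (As := fun θ : UnitAddCircle => ({θ} : Set UnitAddCircle))
      (fun θ => measurableSet_singleton θ)
      (fun a b hab => Set.disjoint_singleton.2 hab)
    refine h1.mono fun θ hθ => ?_
    exact pos_iff_ne_zero.2 hθ
  obtain ⟨f, hf⟩ := hAt.exists_eq_range ⟨0, h0⟩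
  have hmeas : ∀ n : ℕ, MeasurableSet ({θ : UnitAddCircle | σ {θ} ≠ 0} \
      (f '' {i | i < n})) := by
    intro n
    exact (hAt.mono Set.sdiff_subset).measurableSet
  have hlim := tendsto_measure_iInter_atTop (μ := σ)
    (s := fun n : ℕ => {θ : UnitAddCircle | σ {θ} ≠ 0} \ (f '' {i | i < n}))
    (fun n => (hmeas n).nullMeasurableSet)
    (fun m n hmn => Set.sdiff_subset_sdiff_right (Set.image_mono fun i hi => lt_of_lt_of_le hi hmn))
    ⟨0, measure_ne_top _ _⟩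
  have hemp : (⋂ n : ℕ, {θ : UnitAddCircle | σ {θ} ≠ 0} \ (f '' {i | i < n})) = ∅ := by
    rw [Set.eq_empty_iff_forall_notMem]
    intro θ hθ
    rw [Set.mem_iInter] at hθ
    have h1 : θ ∈ Set.range f := by rw [← hf]; exact (hθ 0).1
    obtain ⟨i, rfl⟩ := h1
    exact (hθ (i + 1)).2 ⟨i, Nat.lt_succ_self i, rfl⟩
  rw [hemp, measure_empty] at hlim
  have hev := hlim.eventually (gt_mem_nhds (show (0 : ENNReal) < ENNReal.ofReal δ by simpa using hδ))
  obtain ⟨n, hn⟩ := hev.exists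
  refine ⟨insert 0 ((Finset.range n).image f), Finset.mem_insert_self _ _, ?_, hAt, ?_⟩
  · intro θ hθ
    rcases Finset.mem_insert.1 hθ with rfl | h1
    · exact h0
    · obtain ⟨i, _, rfl⟩ := Finset.mem_image.1 h1
      have h2 : f i ∈ {θ : UnitAddCircle | σ {θ} ≠ 0} := by rw [hf]; exact ⟨i, rfl⟩
      exact h2
  · have h1 : {θ : UnitAddCircle | σ {θ} ≠ 0} \
        ((insert 0 ((Finset.range n).image f) : Finset UnitAddCircle) : Set UnitAddCircle) ⊆
        {θ : UnitAddCircle | σ {θ} ≠ 0} \ (f '' {i | i < n}) := by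
      apply Set.sdiff_subset_sdiff_right
      rintro _ ⟨i, hi, rfl⟩
      rw [Finset.coe_insert, Finset.coe_image]
      exact Or.inr ⟨i, by simpa using hi, rfl⟩
    have h2 : σ.real ({θ : UnitAddCircle | σ {θ} ≠ 0} \ (f '' {i | i < n})) ≤ δ := by
      rw [measureReal_def]
      exact ENNReal.toReal_le_of_le_ofReal hδ.le hn.le
    exact (measureReal_mono h1 (measure_ne_top _ _)).trans h2

theorem fourier_re_ge (d : ℤ) (α ρ : ℝ) (m : ℤ) (h : |(d : ℝ) * α - m| < ρ) :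
    1 - 20 * ρ ^ 2 ≤ ((fourier d ((α : ℝ) : UnitAddCircle) : ℂ)).re := by
  have h1 : (fourier d ((α : ℝ) : UnitAddCircle) : ℂ) =
      Complex.exp (((2 * Real.pi * ((d : ℝ) * α)) : ℝ) * Complex.I) := by
    rw [fourier_coe_apply]
    congr 1
    push_cast
    ring
  rw [h1, Complex.exp_ofReal_mul_I_re]
  have h2 : Real.cos (2 * Real.pi * ((d : ℝ) * α)) =
      Real.cos (2 * Real.pi * ((d : ℝ) * α - m)) := by
    rw [mul_sub, ← Real.cos_sub_int_mul_two_pi (2 * Real.pi * ((d : ℝ) * α)) m]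
    congr 1
    ring
  rw [h2]
  have h3 := Real.one_sub_sq_div_two_le_cos (x := 2 * Real.pi * ((d : ℝ) * α - m))
  have h4 : ((d : ℝ) * α - m) ^ 2 ≤ ρ ^ 2 := by
    rw [← sq_abs ((d : ℝ) * α - m)]
    exact pow_le_pow_left₀ (abs_nonneg _) h.le 2
  have h5 : Real.pi ^ 2 ≤ 10 := by
    have h6 := Real.pi_lt_d2
    have h7 := Real.pi_pos
    nlinarith
  have h8 : (2 * Real.pi * ((d : ℝ) * α - m)) ^ 2 / 2 ≤ 20 * ρ ^ 2 := by
    have h9 : (2 * Real.pi * ((d : ℝ) * α - m)) ^ 2 / 2 =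
        2 * Real.pi ^ 2 * ((d : ℝ) * α - m) ^ 2 := by ring
    rw [h9]
    have h10 : 2 * Real.pi ^ 2 * ((d : ℝ) * α - m) ^ 2 ≤ 20 * ((d : ℝ) * α - m) ^ 2 := by
      have := sq_nonneg ((d : ℝ) * α - m)
      nlinarith
    linarith
  linarith

theorem split (σ : Measure UnitAddCircle) [IsFiniteMeasure σ] (h0 : 0 < (σ {0}).toReal) :
    ∃ (J : ℕ) (α : Fin J → ℝ) (ρ : ℝ) (g : ℤ → ℝ), 0 < ρ ∧ (∀ d, 0 ≤ g d) ∧
      (∀ d ∈ Boh α ρ, (σ {0}).toReal / 2 - g d ≤ (∫ θ, fourier d θ ∂σ).re) ∧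
      ∀ ε : ℝ, 0 < ε → ∃ M₀ : ℕ, ∀ M : ℕ, M₀ ≤ M → ∀ A : ℤ,
        ∑ d ∈ Finset.Ioc A (A + M), g d ≤ ε * M := by
  classical
  set κ : ℝ := (σ {0}).toReal with hκ
  have h0' : σ {0} ≠ 0 := by
    intro h
    rw [hκ, h] at h0
    simp at h0
  obtain ⟨Θ, hΘ0, hΘat, hcount, hΘ⟩ := split_finite_atoms σ (δ := κ / 8) (by positivity) h0'
  set At : Set UnitAddCircle := {θ : UnitAddCircle | σ {θ} ≠ 0} with hAt
  have hAtm : MeasurableSet At := hcount.measurableSet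
  set σc : Measure UnitAddCircle := σ.restrict Atᶜ with hσc
  have hσcat : ∀ θ, σc {θ} = 0 := by
    intro θ
    rw [hσc, Measure.restrict_apply (measurableSet_singleton θ)]
    by_cases hθ : θ ∈ At
    · have : ({θ} : Set UnitAddCircle) ∩ Atᶜ = ∅ := by
        rw [Set.eq_empty_iff_forall_notMem]
        rintro x ⟨hx1, hx2⟩
        rw [Set.mem_singleton_iff] at hx1
        subst hx1
        exact hx2 hθ
      rw [this, measure_empty]
    · have h1 : σ {θ} = 0 := by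
        by_contra h2
        exact hθ h2
      exact le_antisymm ((measure_mono Set.inter_subset_left).trans h1.le) bot_le
  have hm : κ ≤ σ.real Set.univ := by
    rw [hκ, measureReal_def]
    exact ENNReal.toReal_mono (measure_ne_top _ _) (measure_mono (Set.subset_univ _))
  have hmpos : 0 < σ.real Set.univ := lt_of_lt_of_le h0 hm
  -- lifts
  have hlift : ∀ θ : UnitAddCircle, ∃ r : ℝ, ((r : ℝ) : UnitAddCircle) = θ := fun θ =>
    QuotientAddGroup.mk_surjective θ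
  choose r hr using hlift
  set ρ : ℝ := Real.sqrt (κ / (160 * σ.real Set.univ)) with hρdef
  have hρ : 0 < ρ := Real.sqrt_pos.2 (by positivity)
  have hρ2 : ρ ^ 2 = κ / (160 * σ.real Set.univ) := Real.sq_sqrt (by positivity)
  have hρ3 : 20 * ρ ^ 2 * σ.real Set.univ = κ / 8 := by
    rw [hρ2]; field_simp; norm_num
  have hint : ∀ (d : ℤ), Integrable (fun θ : UnitAddCircle => (fourier d θ : ℂ)) σ := by
    intro d
    exact (fourier d).continuous.integrable_of_hasCompactSupport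
      (HasCompactSupport.of_compactSpace _)
  refine ⟨Θ.card, fun i => r (Θ.equivFin.symm i : UnitAddCircle), ρ,
    fun d => ‖∫ θ, (fourier d θ : ℂ) ∂σc‖, hρ, fun d => norm_nonneg _, ?_, ?_⟩
  · intro d hd
    have hsplit1 : ∫ θ, (fourier d θ : ℂ) ∂σ = (∫ θ in At, (fourier d θ : ℂ) ∂σ) +
        ∫ θ in Atᶜ, (fourier d θ : ℂ) ∂σ := (integral_add_compl hAtm (hint d)).symm
    have hΘAt : (Θ : Set UnitAddCircle) ⊆ At := fun θ hθ => hΘat θ hθ
    have hsplit2 : ∫ θ in At, (fourier d θ : ℂ) ∂σ =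
        (∫ θ in (Θ : Set UnitAddCircle), (fourier d θ : ℂ) ∂σ) +
          ∫ θ in At \ (Θ : Set UnitAddCircle), (fourier d θ : ℂ) ∂σ := by
      rw [← setIntegral_union Set.disjoint_sdiff_right
        (hAtm.diff Θ.measurableSet) (hint d).integrableOn (hint d).integrableOn,
        Set.union_sdiff_cancel hΘAt]
    have hA : (∫ θ in (Θ : Set UnitAddCircle), (fourier d θ : ℂ) ∂σ).re =
        ∑ θ ∈ Θ, σ.real {θ} * (fourier d θ : ℂ).re := by
      rw [setIntegral_finset Θ (hint d).integrableOn, Complex.re_sum]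
      refine Finset.sum_congr rfl fun θ _ => ?_
      rw [Complex.real_smul, Complex.re_ofReal_mul]
    have hB : -(κ / 8) ≤ (∫ θ in At \ (Θ : Set UnitAddCircle), (fourier d θ : ℂ) ∂σ).re := by
      have h1 : ‖∫ θ in At \ (Θ : Set UnitAddCircle), (fourier d θ : ℂ) ∂σ‖ ≤
          1 * σ.real (At \ (Θ : Set UnitAddCircle)) :=
        norm_setIntegral_le_of_norm_le_const (measure_lt_top _ _)
          (fun x _ => by rw [fourier_apply]; exact (Circle.norm_coe _).le)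
      have h2 := Complex.abs_re_le_norm (∫ θ in At \ (Θ : Set UnitAddCircle), (fourier d θ : ℂ) ∂σ)
      have h3 := (abs_le.1 h2).1
      linarith
    have hC : -‖∫ θ, (fourier d θ : ℂ) ∂σc‖ ≤ (∫ θ in Atᶜ, (fourier d θ : ℂ) ∂σ).re := by
      have h2 := Complex.abs_re_le_norm (∫ θ in Atᶜ, (fourier d θ : ℂ) ∂σ)
      exact (abs_le.1 h2).1
    have hD : ∀ θ ∈ Θ, σ.real {θ} * (1 - 20 * ρ ^ 2) ≤ σ.real {θ} * (fourier d θ : ℂ).re := by
      intro θ hθ
      apply mul_le_mul_of_nonneg_left _ measureReal_nonneg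
      obtain ⟨m, hm'⟩ := hd (Θ.equivFin ⟨θ, hθ⟩)
      simp only [Equiv.symm_apply_apply] at hm'
      have h1 := fourier_re_ge d (r θ) ρ m hm'
      rw [hr θ] at h1
      exact h1
    have hE : ∑ θ ∈ Θ, σ.real {θ} = σ.real (Θ : Set UnitAddCircle) := by
      rw [sum_measureReal_singleton]
    have hF : σ.real (Θ : Set UnitAddCircle) * (1 - 20 * ρ ^ 2) ≤
        (∫ θ in (Θ : Set UnitAddCircle), (fourier d θ : ℂ) ∂σ).re := by
      rw [hA, ← hE, Finset.sum_mul]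
      exact Finset.sum_le_sum hD
    have hG : κ ≤ σ.real (Θ : Set UnitAddCircle) := by
      rw [hκ, measureReal_def]
      exact ENNReal.toReal_mono (measure_ne_top _ _)
        (measure_mono (Set.singleton_subset_iff.2 hΘ0))
    have hH : σ.real (Θ : Set UnitAddCircle) ≤ σ.real Set.univ :=
      measureReal_mono (Set.subset_univ _) (measure_ne_top _ _)
    have hI : 20 * ρ ^ 2 * σ.real (Θ : Set UnitAddCircle) ≤ κ / 8 := by
      rw [← hρ3]
      gcongr
    rw [hsplit1, hsplit2, Complex.add_re, Complex.add_re]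
    linarith
  · intro ε hε
    obtain ⟨M₀, hM₀⟩ := wiener σc hσcat (ε := ε ^ 2) (by positivity)
    refine ⟨M₀, fun M hM A => ?_⟩
    have h1 := hM₀ M hM A
    have h2 : (∑ d ∈ Finset.Ioc A (A + M), ‖∫ θ, (fourier d θ : ℂ) ∂σc‖) ^ 2 ≤
        (Finset.Ioc A (A + M)).card * ∑ d ∈ Finset.Ioc A (A + M), ‖∫ θ, (fourier d θ : ℂ) ∂σc‖ ^ 2 :=
      sq_sum_le_card_mul_sum_sq
    have h3 : (Finset.Ioc A (A + (M : ℤ))).card = M := by
      rw [Int.card_Ioc]; simp
    rw [h3] at h2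
    have h4 : (∑ d ∈ Finset.Ioc A (A + M), ‖∫ θ, (fourier d θ : ℂ) ∂σc‖) ^ 2 ≤ (ε * M) ^ 2 := by
      refine h2.trans ?_
      calc (M : ℝ) * ∑ d ∈ Finset.Ioc A (A + M), ‖∫ θ, (fourier d θ : ℂ) ∂σc‖ ^ 2
          ≤ (M : ℝ) * (ε ^ 2 * M) := by gcongr
        _ = (ε * M) ^ 2 := by ring
    exact le_of_sq_le_sq h4 (by positivity)

end Pool.Agent.H92.BH
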