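import Pool.Agent.H92.BH.Rec
import Pool.Agent.H92.BH.Comp

/-!
[H92 BH CLQ]  Cliques of every size.

Proof.  Induction on `j`: every `S` with `UBD S` has a `j`-clique.  `j = 0`: empty set.  Step: given `S`, `ε` from `recur`, `M₀` from `comp` (for `j` and this `ε`), then
`M ≥ M₀`, `A`, `b ∈ S` from `recur`.  Let `S' = {x | x - b ∈ D ∧ x ∈ S}`; then `cnt S' (b + A) M = cnt {d | d ∈ D ∧ b + d ∈ S} A M ≥ ε M`
(translation by `b`), so `S' ` contains a `j`-clique `T`; `insert b T` is a `(j+1)`-clique in `S`: `b ∉ T` because `0 ∉ D`, `x - b ∈ D` and `b - x ∈ D`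
by symmetry.
`no_clique_bohr`: contraposition with `S = univ` (`cnt univ a L = L`, so `UBD univ`).
-/

namespace Pool.Agent.H92.BH

open MeasureTheory

/-- translation -/
lemma cnt_translate (S : Set ℤ) (b a : ℤ) (M : ℕ) :
    cnt {x | x - b ∈ S} (b + a) M = cnt S a M := by
  unfold cnt
  refine Finset.card_bij (fun n _ => n - b) ?_ ?_ ?_
  · intro n hn
    simp only [Finset.mem_filter, Finset.mem_Ioc, Set.mem_ofPred_eq] at hn ⊢
    exact ⟨⟨by linarith [hn.1.1], by linarith [hn.1.2]⟩, hn.2⟩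
  · intro n _ m _ h
    linarith
  · intro d hd
    simp only [Finset.mem_filter, Finset.mem_Ioc] at hd
    refine ⟨d + b, ?_, by ring⟩
    simp only [Finset.mem_filter, Finset.mem_Ioc, Set.mem_ofPred_eq]
    refine ⟨⟨by linarith [hd.1.1], by linarith [hd.1.2]⟩, ?_⟩
    simpa using hd.2

theorem cliques {D : Set ℤ} (h0 : (0 : ℤ) ∉ D) (hsym : ∀ d ∈ D, -d ∈ D)
    (hD : ∀ (J : ℕ) (α : Fin J → ℝ) (ρ : ℝ), 0 < ρ → UBD (D ∩ Boh α ρ)) (j : ℕ) :
    ∀ S : Set ℤ, UBD S → HasClq D S j := by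
  induction j with
  | zero =>
    intro S _
    exact ⟨∅, by simp, by simp, by simp⟩
  | succ j ih =>
    intro S hS
    obtain ⟨ε, hε, hrec⟩ := recur hD hS
    obtain ⟨M₀, hM₀⟩ := comp ih hε
    obtain ⟨M, hM, hMpos, A, b, hb, hcount⟩ := hrec M₀
    have h1 : ε * M ≤ cnt {x | x - b ∈ {d | d ∈ D ∧ b + d ∈ S}} (b + A) M := by
      rw [cnt_translate]
      exact hcount
    obtain ⟨T, hTc, hTS, hTD⟩ := hM₀ M hM hMpos _ _ h1
    have hTm : ∀ x ∈ T, x - b ∈ D ∧ x ∈ S := by
      intro x hx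
      have h2 := (hTS x hx).1
      simp only [Set.mem_ofPred_eq] at h2
      exact ⟨h2.1, by simpa using h2.2⟩
    have hbT : b ∉ T := by
      intro h
      have h2 := (hTm b h).1
      rw [sub_self] at h2
      exact h0 h2
    refine ⟨insert b T, ?_, ?_, ?_⟩
    · rw [Finset.card_insert_of_notMem hbT, hTc]
    · intro x hx
      rcases Finset.mem_insert.mp hx with rfl | hx
      · exact hb
      · exact (hTm x hx).2
    · intro x hx y hy hxy
      rcases Finset.mem_insert.mp hx with hx1 | hx1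
      · rcases Finset.mem_insert.mp hy with hy1 | hy1
        · exact absurd (hx1.trans hy1.symm) hxy
        · have h2 := hsym _ (hTm y hy1).1
          rw [neg_sub] at h2
          rwa [hx1]
      · rcases Finset.mem_insert.mp hy with hy1 | hy1
        · rw [hy1]
          exact (hTm x hx1).1
        · exact hTD x hx1 y hy1 hxy

lemma UBD_univ : UBD Set.univ := by
  refine ⟨1, one_pos, fun L₀ => ⟨max L₀ 1, le_max_left _ _, by positivity, 0, ?_⟩⟩
  unfold cnt
  simp

/-- A symmetric set of nonzero integers without `k`-cliques has Banach density zero in a Bohr neighbourhood of `0`. -/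
theorem no_clique_bohr {D : Set ℤ} (h0 : (0 : ℤ) ∉ D) (hsym : ∀ d ∈ D, -d ∈ D) (k : ℕ)
    (hk : ¬ HasClq D Set.univ k) :
    ∃ (J : ℕ) (α : Fin J → ℝ) (ρ : ℝ), 0 < ρ ∧ ¬ UBD (D ∩ Boh α ρ) := by
  by_contra hcon
  push Not at hcon
  exact hk (cliques h0 hsym hcon k _ UBD_univ)

end Pool.Agent.H92.BH
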