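import Mathlib

/-!
MP_8923e7_nt, theorem T2 (bad differences in a Bohr neighbourhood of 0).  Definitions only.

Plan.  A set `D` of nonzero integers, `D = -D`, such that the graph on `ℤ` with edges `x - y ∈ D`
has no `k`-clique, has upper Banach density `0` in some Bohr neighbourhood of `0`.
-/

namespace Pool.Agent.H92.BH

open Finset

open Classical in
/-- number of elements of `S` in `(a, a + L]` -/
noncomputable def cnt (S : Set ℤ) (a : ℤ) (L : ℕ) : ℕ :=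
  ((Finset.Ioc a (a + L)).filter (fun n => n ∈ S)).card

open Classical in
/-- correlation of `S` and `S - d` in `(a, a + L]` -/
noncomputable def corr (S : Set ℤ) (a : ℤ) (L : ℕ) (d : ℤ) : ℝ :=
  (((Finset.Ioc a (a + L)).filter (fun n => n ∈ S ∧ n + d ∈ S)).card : ℝ) / L

/-- `S` has upper Banach density at least `δ` -/
def UBDge (S : Set ℤ) (δ : ℝ) : Prop :=
  ∀ L₀ : ℕ, ∃ L : ℕ, L₀ ≤ L ∧ 0 < L ∧ ∃ a : ℤ, δ * L ≤ cnt S a L

/-- `S` has positive upper Banach density -/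
def UBD (S : Set ℤ) : Prop := ∃ δ : ℝ, 0 < δ ∧ UBDge S δ

/-- Bohr neighbourhood of `0` -/
def Boh {J : ℕ} (α : Fin J → ℝ) (ρ : ℝ) : Set ℤ :=
  {h | ∀ i, ∃ m : ℤ, |(h : ℝ) * α i - m| < ρ}

/-- `S` contains a clique with `j` elements for the difference set `D` -/
def HasClq (D S : Set ℤ) (j : ℕ) : Prop :=
  ∃ T : Finset ℤ, T.card = j ∧ (∀ x ∈ T, x ∈ S) ∧ ∀ x ∈ T, ∀ y ∈ T, x ≠ y → x - y ∈ D

end Pool.Agent.H92.BH
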