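import Pool.Agent.H92.BH.SBlkB

/-!
[H92 BH SBLK]  Iteration and admissibility.
-/

namespace Pool.Agent.H92.BH

open Filter

/-- iteration of a step -/
theorem iter_blocks (Q : Finset ℕ → Finset ℕ → Prop) (l : ℕ → ℕ)
    (hstep : ∀ (G : Finset ℕ) (l : ℕ), ∃ H : Finset ℕ, H.card = 2 ^ l ∧ Disjoint G H ∧
      (∀ x ∈ H, (G.card + 2 ^ l + 2).factorial ∣ x) ∧ Q G H) :
    ∃ H : ℕ → Finset ℕ, (∀ j, (H j).card = 2 ^ l j) ∧ (∀ i j, i ≠ j → Disjoint (H i) (H j)) ∧
      (∀ p : ℕ, p.Prime → ∃ a : ℕ, ∀ j, ∀ h ∈ H j, ¬ p ∣ a + h) ∧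
      ∀ j, Q ((Finset.range j).biUnion H) (H j) := by
  classical
  choose S hS1 hS2 hS3 hS4 using hstep
  let G : ℕ → Finset ℕ := fun j => Nat.rec ∅ (fun i g => g ∪ S g (l i)) j
  have hG0 : G 0 = ∅ := rfl
  have hGs : ∀ j, G (j + 1) = G j ∪ S (G j) (l j) := fun j => rfl
  let H : ℕ → Finset ℕ := fun j => S (G j) (l j)
  have hGH : ∀ j, G j = (Finset.range j).biUnion H := by
    intro j
    induction j with
    | zero => rfl
    | succ j ih =>
      rw [hGs, Finset.range_add_one, Finset.biUnion_insert, ← ih, Finset.union_comm]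
  have hsub : ∀ i j, i < j → H i ⊆ G j := by
    intro i j hij
    rw [hGH j]
    exact Finset.subset_biUnion_of_mem H (Finset.mem_range.mpr hij)
  have hmono : ∀ i j, i ≤ j → G i ⊆ G j := by
    intro i j hij
    rw [hGH i, hGH j]
    exact Finset.biUnion_subset_biUnion_of_subset_left _ (Finset.range_mono hij)
  have hcardG : ∀ j, (G (j + 1)).card = (G j).card + 2 ^ l j := by
    intro j
    rw [hGs, Finset.card_union_of_disjoint (hS2 _ _), hS1]
  have hge : ∀ j, j ≤ (G j).card := by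
    intro j
    induction j with
    | zero => exact Nat.zero_le _
    | succ j ih =>
      rw [hcardG]
      have : 1 ≤ 2 ^ l j := Nat.one_le_two_pow
      omega
  refine ⟨H, fun j => hS1 _ _, ?_, ?_, ?_⟩
  · intro i j hij
    rcases lt_or_gt_of_ne hij with h | h
    · exact Finset.disjoint_of_subset_left (hsub i j h) (hS2 (G j) (l j))
    · exact (Finset.disjoint_of_subset_left (hsub j i h) (hS2 (G i) (l i))).symm
  · intro p hp
    have hex : ∃ j, p ≤ (G j).card + 2 ^ l j + 2 := ⟨p, by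
      have h1 := hge p
      have h2 : 1 ≤ 2 ^ l p := Nat.one_le_two_pow
      omega⟩
    obtain ⟨j, hj, hjmin⟩ : ∃ j, p ≤ (G j).card + 2 ^ l j + 2 ∧
        ∀ i < j, ¬ p ≤ (G i).card + 2 ^ l i + 2 :=
      ⟨Nat.find hex, Nat.find_spec hex, fun i hi => Nat.find_min hex hi⟩
    have hp2 := hp.two_le
    have hdiv : ∀ i, j ≤ i → ∀ x ∈ H i, p ∣ x := by
      intro i hij x hx
      have h1 : p ≤ (G i).card + 2 ^ l i + 2 := by
        rcases Nat.eq_or_lt_of_le hij with rfl | hlt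
        · exact hj
        · have h2 := Finset.card_le_card (hmono (j + 1) i hlt)
          rw [hcardG] at h2
          have h3 : 1 ≤ 2 ^ l i := Nat.one_le_two_pow
          omega
      exact (Nat.dvd_factorial hp.pos h1).trans (hS3 (G i) (l i) x hx)
    have hcard : (G j).card + 1 < p := by
      rcases Nat.eq_zero_or_pos j with rfl | hpos
      · rw [hG0, Finset.card_empty]
        omega
      · obtain ⟨i, rfl⟩ : ∃ i, j = i + 1 := ⟨j - 1, by omega⟩
        have h1 := hjmin i (Nat.lt_succ_self i)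
        rw [hcardG]
        omega
    obtain ⟨e, he, he2⟩ : ∃ e ∈ Finset.range p, e ∉ insert 0 ((G j).image (fun x => x % p)) := by
      apply Finset.exists_mem_notMem_of_card_lt_card
      rw [Finset.card_range]
      calc (insert 0 ((G j).image (fun x => x % p))).card
          ≤ ((G j).image (fun x => x % p)).card + 1 := Finset.card_insert_le _ _
        _ ≤ (G j).card + 1 := Nat.add_le_add_right Finset.card_image_le 1
        _ < p := hcard
    have hep : e < p := Finset.mem_range.mp he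
    have he0 : e ≠ 0 := by
      rintro rfl
      exact he2 (Finset.mem_insert_self _ _)
    refine ⟨p - e, fun i x hx hdvd => ?_⟩
    have hmod : x % p = e := by
      have h1 : (p - e + x) % p = 0 := Nat.mod_eq_zero_of_dvd hdvd
      have h2 : (p - e + x + e) % p = e % p := by
        rw [Nat.add_mod, h1, zero_add, Nat.mod_mod]
      have h3 : p - e + x + e = x + p := by omega
      rw [h3, Nat.add_mod_right, Nat.mod_eq_of_lt hep] at h2
      exact h2
    rcases lt_or_ge i j with h | h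
    · apply he2
      rw [← hmod]
      exact Finset.mem_insert_of_mem (Finset.mem_image_of_mem _ (hsub i j h hx))
    · have h1 := hdiv i h x hx
      apply he0
      rw [← hmod]
      exact Nat.mod_eq_zero_of_dvd h1
  · intro j
    rw [← hGH j]
    exact hS4 (G j) (l j)

theorem blocksS {D : Set ℤ} (h0 : (0 : ℤ) ∉ D) (hsym : ∀ d ∈ D, -d ∈ D)
    (hD : ∀ (J : ℕ) (α : Fin J → ℝ) (ρ : ℝ), 0 < ρ → UBD (D ∩ Boh α ρ)) {r : ℕ} (c : ℕ → Fin r)
    (l : ℕ → ℕ) :
    ∃ H : ℕ → Finset ℕ, (∀ j, (H j).card = 2 ^ l j) ∧ (∀ i j, i ≠ j → Disjoint (H i) (H j)) ∧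
      (∀ p : ℕ, p.Prime → ∃ a : ℕ, ∀ j, ∀ h ∈ H j, ¬ p ∣ a + h) ∧
      (∀ j, ∀ x ∈ H j, ∀ y ∈ H j, x < y → ((y - x : ℕ) : ℤ) ∈ D) ∧
      ∀ j, ∀ F : Finset ℕ, (∀ x ∈ F, ∃ i < j, x ∈ H i) → GoodC c F → ∀ α : Ordinal.{0},
        ¬ St c α F → ∀ y ∈ H j, ∃ β < α, ¬ St c β (insert y F) := by
  obtain ⟨H, h1, h2, h3, h4⟩ := iter_blocks
    (fun G H => (∀ x ∈ H, ∀ y ∈ H, x < y → ((y - x : ℕ) : ℤ) ∈ D) ∧
      ∀ F ⊆ G, GoodC c F → ∀ α : Ordinal.{0}, ¬ St c α F →
        ∀ y ∈ H, ∃ β < α, ¬ St c β (insert y F)) l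
    (fun G l => by
      obtain ⟨H, a1, a2, a3, a4, a5⟩ := stepS h0 hsym hD c G l
      exact ⟨H, a1, a2, a3, a4, a5⟩)
  refine ⟨H, h1, h2, h3, fun j => (h4 j).1, fun j F hF => (h4 j).2 F ?_⟩
  intro x hx
  obtain ⟨i, hi, hxi⟩ := hF x hx
  exact Finset.mem_biUnion.mpr ⟨i, Finset.mem_range.mpr hi, hxi⟩

end Pool.Agent.H92.BH
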