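import Pool.Agent.H92.BH.RBlkA
import Pool.Agent.H92.BH.SBlk
import Pool.Agent.H92.BH.GDefs

/-!
[H92 BH GBLKB]  Blocks avoiding, for a finite family of predicates, the sets of density zero attached to
the finite sets which die at some stage.
-/

namespace Pool.Agent.H92.BH

open Filter

theorem stepG {D : Set ℤ} (h0 : (0 : ℤ) ∉ D) (hsym : ∀ d ∈ D, -d ∈ D)
    (hD : ∀ (J : ℕ) (α : Fin J → ℝ) (ρ : ℝ), 0 < ρ → UBD (D ∩ Boh α ρ))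
    {ι : Type} (P : ι → Finset ℕ → Prop) (I : Finset ι) (G : Finset ℕ) (l : ℕ) :
    ∃ H : Finset ℕ, H.card = 2 ^ l ∧ (∀ g ∈ G, ∀ x ∈ H, g < x) ∧
      (∀ x ∈ H, (G.card + 2 ^ l + 2).factorial ∣ x) ∧
      (∀ x ∈ H, ∀ y ∈ H, x < y → ((y - x : ℕ) : ℤ) ∈ D) ∧
      ∀ i ∈ I, ∀ F ⊆ G, P i F → ∀ α : Ordinal.{0}, ¬ Sg (P i) α F →
        ∀ y ∈ H, ∃ β < α, ¬ Sg (P i) β (insert y F) := by
  classical
  have hW : 0 < (G.card + 2 ^ l + 2).factorial := Nat.factorial_pos _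
  obtain ⟨C, hC1, hC2, hC3⟩ := big_cliques h0 hsym hD (2 ^ l) ((G.card + 2 ^ l + 2).factorial) hW
  have hZex : ∀ q : ι × Finset ℕ, ∃ Z : Set ℕ, ¬ UD Z ∧
      (P q.1 q.2 → ∀ α : Ordinal.{0}, ¬ Sg (P q.1) α q.2 →
        ∃ β < α, Z = {y | Sg (P q.1) β (insert y q.2)}) := by
    rintro ⟨i, F⟩
    by_cases h : P i F ∧ ∃ α : Ordinal.{0}, ¬ Sg (P i) α F
    · obtain ⟨hg, hex⟩ := h
      obtain ⟨α₀, hα₀, hmin⟩ := WellFounded.has_min (wellFounded_lt (α := Ordinal.{0}))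
        {α | ¬ Sg (P i) α F} hex
      have h1 : ¬ Sg (P i) α₀ F := hα₀
      rw [Sg_iff] at h1
      push Not at h1
      obtain ⟨β, hβ, hβ2⟩ := h1 hg
      refine ⟨{y | Sg (P i) β (insert y F)}, hβ2, fun _ α hα => ⟨β, ?_, rfl⟩⟩
      exact hβ.trans_le (not_lt.mp (hmin α hα))
    · refine ⟨∅, fun hu => Set.not_nonempty_empty (UD_nonempty hu), fun hg α hα => ?_⟩
      exact absurd ⟨hg, α, hα⟩ h
  choose Z hZ1 hZ2 using hZex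
  obtain ⟨t, ht1, ht2, ht3⟩ := exists_avoid (I ×ˢ G.powerset) Z
    (fun q _ => hZ1 q) C _ hW (G.sup id + 1)
  refine ⟨C.image (fun a => a + t), ?_, ?_, ?_, ?_, ?_⟩
  · rw [Finset.card_image_of_injective _ (add_left_injective t)]
    exact hC1
  · intro g hg x hx
    rw [Finset.mem_image] at hx
    obtain ⟨a, _, rfl⟩ := hx
    have h1 : g ≤ G.sup id := Finset.le_sup (f := id) hg
    omega
  · intro x hx
    rw [Finset.mem_image] at hx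
    obtain ⟨a, ha, rfl⟩ := hx
    exact dvd_add (hC2 a ha) ht2
  · intro x hx y hy hxy
    rw [Finset.mem_image] at hx hy
    obtain ⟨a, ha, rfl⟩ := hx
    obtain ⟨b, hb, rfl⟩ := hy
    have h1 : b + t - (a + t) = b - a := by omega
    rw [h1]
    exact hC3 a ha b hb (by omega)
  · intro i hi F hF hg α hα y hy
    rw [Finset.mem_image] at hy
    obtain ⟨a, ha, rfl⟩ := hy
    obtain ⟨β, hβ, e⟩ := hZ2 (i, F) hg α hα
    have h1 : t + a ∉ Z (i, F) := ht3 (i, F)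
      (Finset.mem_product.2 ⟨hi, Finset.mem_powerset.2 hF⟩) a ha
    rw [e, Set.mem_ofPred_eq, add_comm t a] at h1
    exact ⟨β, hβ, h1⟩

theorem blocksG {D : Set ℤ} (h0 : (0 : ℤ) ∉ D) (hsym : ∀ d ∈ D, -d ∈ D)
    (hD : ∀ (J : ℕ) (α : Fin J → ℝ) (ρ : ℝ), 0 < ρ → UBD (D ∩ Boh α ρ))
    {ι : Type} (P : ι → Finset ℕ → Prop) (I : Finset ℕ → Finset ι) (l : ℕ → ℕ) :
    ∃ H : ℕ → Finset ℕ, (∀ j, (H j).card = 2 ^ l j) ∧
      (∀ i j, i < j → ∀ x ∈ H i, ∀ y ∈ H j, x < y) ∧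
      (∀ p : ℕ, p.Prime → ∃ a : ℕ, ∀ j, ∀ h ∈ H j, ¬ p ∣ a + h) ∧
      (∀ j, ∀ x ∈ H j, ∀ y ∈ H j, x < y → ((y - x : ℕ) : ℤ) ∈ D) ∧
      ∀ j, ∀ q ∈ I ((Finset.range j).biUnion H), ∀ F : Finset ℕ, (∀ x ∈ F, ∃ i < j, x ∈ H i) →
        P q F → ∀ α : Ordinal.{0}, ¬ Sg (P q) α F →
          ∀ y ∈ H j, ∃ β < α, ¬ Sg (P q) β (insert y F) := by
  obtain ⟨H, h1, h2, h3, h4⟩ := iter_blocks
    (fun G H => (∀ g ∈ G, ∀ x ∈ H, g < x) ∧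
      (∀ x ∈ H, ∀ y ∈ H, x < y → ((y - x : ℕ) : ℤ) ∈ D) ∧
      ∀ i ∈ I G, ∀ F ⊆ G, P i F → ∀ α : Ordinal.{0}, ¬ Sg (P i) α F →
        ∀ y ∈ H, ∃ β < α, ¬ Sg (P i) β (insert y F)) l
    (fun G l => by
      obtain ⟨H, a1, a2, a3, a4, a5⟩ := stepG h0 hsym hD P (I G) G l
      exact ⟨H, a1, Finset.disjoint_left.mpr (fun x hx hx' => lt_irrefl _ (a2 x hx x hx')),
        a3, a2, a4, a5⟩)
  refine ⟨H, h1, ?_, h3, fun j => (h4 j).2.1, fun j i hi F hF => (h4 j).2.2 i hi F ?_⟩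
  · intro i j hij x hx y hy
    exact (h4 j).1 x (Finset.mem_biUnion.mpr ⟨i, Finset.mem_range.mpr hij, hx⟩) y hy
  · intro x hx
    obtain ⟨i, hi, hxi⟩ := hF x hx
    exact Finset.mem_biUnion.mpr ⟨i, Finset.mem_range.mpr hi, hxi⟩

end Pool.Agent.H92.BH
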