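import Pool.Agent.H92.BH.GBlkB
import Pool.Agent.H92.BH.XPair

/-!
[H92 BH GMAIN]  Theorem T2 with exact patterns.
-/

namespace Pool.Agent.H92.BH

open Filter

lemma badX_zero {r : ℕ} (c : ℕ → Fin r) : (0 : ℤ) ∉ badX c := fun h => h.1 rfl

lemma badX_symm {r : ℕ} (c : ℕ → Fin r) : ∀ d ∈ badX c, -d ∈ badX c := by
  intro d hd
  refine ⟨neg_ne_zero.mpr hd.1, ?_⟩
  rw [Int.natAbs_neg]
  exact hd.2

/-- the main contradiction -/
theorem not_denseX {r : ℕ} (c : ℕ → Fin r)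
    (hD : ∀ (J : ℕ) (α : Fin J → ℝ) (ρ : ℝ), 0 < ρ → UBD (badX c ∩ Boh α ρ)) : False := by
  classical
  obtain ⟨H, hcard, hinc, hadm, hdiff, hinv⟩ := blocksG (badX_zero c) (badX_symm c) hD
    (fun (q : Fin r × ℕ × ℕ) (F : Finset ℕ) => ShX c q.1 q.2.1 q.2.2 F)
    (fun G => (Finset.univ : Finset (Fin r)) ×ˢ (G ×ˢ G)) (fun j => j)
  obtain ⟨i, B, hBinf, hBH, j₀, x, hx, y, hy, hxB, hyB, hxy, hsh⟩ := shatter_pair c H (by
    intro K
    refine ⟨K, le_rfl, ?_⟩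
    rw [hcard]
    exact (Nat.lt_two_pow_self).le) hinc hadm
  -- every finite subset is in every stage
  have hst : ∀ α : Ordinal.{0}, ∀ F : Finset ℕ, ↑F ⊆ B → Sg (ShX c i x y) α F := by
    intro α
    induction α using WellFoundedLT.induction with
    | _ α ih =>
      intro F hF
      by_contra hnot
      have hj : ∀ x ∈ F, ∃ j, x ∈ H j := fun x hx => hBH x (hF (Finset.mem_coe.mpr hx))
      choose! jf hjf using hj
      obtain ⟨z, hzB, hz⟩ : ∃ z ∈ B, z ∉ (Finset.range (F.sup jf + j₀ + 1)).biUnion H := by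
        by_contra hcon
        push Not at hcon
        exact hBinf ((Finset.finite_toSet _).subset hcon)
      obtain ⟨j, hzj⟩ := hBH z hzB
      have hjgt : F.sup jf + j₀ < j := by
        by_contra hle
        exact hz (Finset.mem_biUnion.mpr ⟨j, Finset.mem_range.mpr (by omega), hzj⟩)
      have h1 : ∀ x ∈ F, ∃ i' < j, x ∈ H i' := fun x hx =>
        ⟨jf x, by
          have := Finset.le_sup (f := jf) hx
          omega, hjf x hx⟩
      have hj₀ : ∀ u ∈ H j₀, u ∈ (Finset.range j).biUnion H := fun u hu =>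
        Finset.mem_biUnion.mpr ⟨j₀, Finset.mem_range.mpr (by omega), hu⟩
      obtain ⟨β, hβ, hβ2⟩ := hinv j (i, x, y)
        (Finset.mem_product.mpr ⟨Finset.mem_univ _, Finset.mem_product.mpr ⟨hj₀ x hx, hj₀ y hy⟩⟩)
        F h1 (hsh F hF) α hnot z hzj
      refine hβ2 (ih β hβ (insert z F) ?_)
      intro a ha
      rcases Finset.mem_insert.mp (Finset.mem_coe.mp ha) with rfl | ha
      · exact hzB
      · exact hF (Finset.mem_coe.mpr ha)
  -- the contradiction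
  have hd := hdiff j₀ x hx y hy hxy
  refine hd.2 ?_
  rw [Int.natAbs_natCast]
  refine ⟨i, fam_of_Sg (ShX c i 0 (y - x)) {0, y - x} (fun α => ?_)⟩
  refine Sg_shift (ShX c i 0 (y - x)) (ShX c i x y) x (fun F hF => ?_) α _ ?_
  · refine ShX_shift c i x 0 (y - x) F ?_
    rw [zero_add, Nat.sub_add_cancel hxy.le]
    exact hF
  refine hst α _ ?_
  intro a ha
  obtain ⟨b, hb, rfl⟩ := Finset.mem_image.mp (Finset.mem_coe.mp ha)
  rcases Finset.mem_insert.mp hb with rfl | hb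
  · simp only [zero_add]
    exact hxB
  · rw [Finset.mem_singleton.mp hb]
    simp only [Nat.sub_add_cancel hxy.le]
    exact hyB

open Classical in
theorem bohr_sh {r : ℕ} (c : ℕ → Fin r) :
    ∃ (J : ℕ) (α : Fin J → ℝ) (ρ : ℝ), 0 < ρ ∧
    ∀ ε : ℝ, 0 < ε → ∃ L₀ : ℕ, ∀ L : ℕ, L₀ ≤ L → ∀ a : ℕ,
      (((Finset.Ioc a (a + L)).filter (fun h : ℕ =>
        (∀ i, ∃ m : ℤ, |(h : ℝ) * α i - m| < ρ) ∧ ¬ FamSh c h)).card : ℝ) ≤ ε * L := by
  have hex : ∃ (J : ℕ) (α : Fin J → ℝ) (ρ : ℝ), 0 < ρ ∧ ¬ UBD (badX c ∩ Boh α ρ) := by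
    by_contra hcon
    push Not at hcon
    exact not_denseX c hcon
  obtain ⟨J, α, ρ, hρ, hnot⟩ := hex
  refine ⟨J, α, ρ, hρ, fun ε hε => ?_⟩
  have hnot2 : ¬ UBDge (badX c ∩ Boh α ρ) ε := fun h => hnot ⟨ε, hε, h⟩
  unfold UBDge at hnot2
  push Not at hnot2
  obtain ⟨L₀, hL₀⟩ := hnot2
  refine ⟨max L₀ 1, fun L hL a => ?_⟩
  have hLpos : 0 < L := lt_of_lt_of_le one_pos ((le_max_right _ _).trans hL)
  have h1 := hL₀ L ((le_max_left _ _).trans hL) hLpos (a : ℤ)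
  refine le_trans ?_ h1.le
  unfold cnt
  refine Nat.cast_le.mpr ?_
  refine Finset.card_le_card_of_injOn (fun h : ℕ => (h : ℤ)) ?_
    (fun x _ y _ hxy => Nat.cast_injective (R := ℤ) hxy)
  intro h hh
  simp only [Finset.coe_filter, Finset.mem_Ioc, Set.mem_ofPred_eq] at hh ⊢
  obtain ⟨⟨ha, hb⟩, hboh, hbad⟩ := hh
  refine ⟨⟨by exact_mod_cast ha, by exact_mod_cast hb⟩, ⟨?_, ?_⟩, ?_⟩
  · have : 0 < h := by omega
    exact_mod_cast this.ne'
  · rw [Int.natAbs_natCast]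
    exact hbad
  · intro i
    obtain ⟨m, hm⟩ := hboh i
    exact ⟨m, by simpa using hm⟩

end Pool.Agent.H92.BH
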