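import Pool.Agent.H92.BH.Defs
import Pool.Agent.H21.MT.Sieve

/-!
[H92 BH PAIR]  Bounded gaps for tuples: every admissible `k`-set contains a good pair.

Proof.  Let `l` be a natural number with `(l + 2)^2 / (10^10 * 20 * (l + 1)) > 1`, `k = 2^l`.  Given an admissible injective tuple
`h : Fin k → ℕ`, apply `Pool.Agent.H21.MT.sieve` with `I = Fin k`, `tau = 1/(20 (l+1) 2^l)`, `l i = l` (budget
`k (l+1) tau = 1/20 ≤ 1/10`, `2^l tau ≤ 1/20`), for every `N0`: `∑_m μ(N + h m prime) ≥ k * 10^-10 tau (l+2)^2 =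
(l+2)^2/(10^10 * 20 (l+1)) > 1 = ∑ μ`, so some `N ∈ T`, `N > N0`, has at least two `m` with `N + h m` prime (exchange the sums:
`∑_N μ N * #{m : N + h m prime} > ∑_N μ N`).  There are finitely many pairs, so one pair occurs for arbitrarily large `N`.
`no_clique`: `W = k!`.  Let `T` be a clique with `k` elements of `badW`; all its elements are congruent mod `W` (for `k ≥ 2`).  Subtract the minimum: naturals `h m`
with differences divisible by `W`.  Admissible: for a prime `p ≤ k` all `h m` are divisible by `p` (as `p ∣ W`; the minimum is `0`), take `a = 1`; for a prime `p > k` the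
`k` classes `-h m` do not cover the `p` classes.  A good pair `h m < h m'` gives infinitely many `N' = N + h m` with `N'`,
`N' + (h m' - h m)` prime, so the difference is not bad.
-/

namespace Pool.Agent.H92.BH

/-- infinitely many prime pairs with difference `h` -/
def Good (h : ℕ) : Prop := {N : ℕ | N.Prime ∧ (N + h).Prime}.Infinite

/-- bad differences, multiples of `W` -/
def badW (W : ℕ) : Set ℤ := {d | d ≠ 0 ∧ (W : ℤ) ∣ d ∧ ¬ Good d.natAbs}

theorem two_primes (l : ℕ) (hl : (2 * 10 ^ 11 : ℝ) ≤ (l : ℝ) + 1) (h : Fin (2 ^ l) → ℕ)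
    (hinj : Function.Injective h) (hadm : ∀ p : ℕ, p.Prime → ∃ a : ℕ, ∀ i, ¬ p ∣ a + h i)
    (N0 : ℕ) : ∃ N, N0 < N ∧ ∃ i j : Fin (2 ^ l), i ≠ j ∧ (N + h i).Prime ∧ (N + h j).Prime := by
  classical
  have hk : (0 : ℕ) < 2 ^ l := by positivity
  have hne : Nonempty (Fin (2 ^ l)) := ⟨⟨0, hk⟩⟩
  have hl0 : (0 : ℝ) < (l : ℝ) + 1 := by positivity
  have hk' : (0 : ℝ) < (2 : ℝ) ^ l := by positivity
  set τ : ℝ := 1 / (20 * ((l : ℝ) + 1) * 2 ^ l) with hτ
  have hτ0 : 0 < τ := by positivity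
  have e1 : (2 : ℝ) ^ l * τ * ((l : ℝ) + 1) = 1 / 20 := by
    rw [hτ]; field_simp
  obtain ⟨T, μ, hT, hμ, hsum, hm, -⟩ := Pool.Agent.H21.MT.sieve h hinj hadm (fun _ => τ)
    (fun _ => l) (fun _ => hτ0) (fun _ => by
      have : (2 : ℝ) ^ l * τ ≤ (2 : ℝ) ^ l * τ * ((l : ℝ) + 1) := by
        apply le_mul_of_one_le_right (by positivity)
        have : (0 : ℝ) ≤ l := Nat.cast_nonneg l
        linarith
      linarith)
    (by
      rw [Finset.sum_const, Finset.card_univ, Fintype.card_fin, nsmul_eq_mul]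
      push_cast
      have : (2 : ℝ) ^ l * (((l : ℝ) + 1) * τ) = 1 / 20 := by rw [← e1]; ring
      rw [this]; norm_num) N0
  by_contra hcon
  push Not at hcon
  have h1 : ∀ N ∈ T, (Finset.univ.filter (fun m : Fin (2 ^ l) => (N + h m).Prime)).card ≤ 1 := by
    intro N hN
    rw [Finset.card_le_one]
    intro a ha b hb
    rw [Finset.mem_filter] at ha hb
    by_contra hab
    exact hcon N (hT N hN) a b hab ha.2 hb.2
  have h2 : ∑ m : Fin (2 ^ l), ∑ N ∈ T.filter (fun N => (N + h m).Prime), μ N ≤ 1 := by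
    simp_rw [Finset.sum_filter]
    rw [Finset.sum_comm, ← hsum]
    apply Finset.sum_le_sum
    intro N hN
    rw [← Finset.sum_filter, Finset.sum_const, nsmul_eq_mul]
    have h3 := h1 N hN
    have h4 : ((Finset.univ.filter (fun m : Fin (2 ^ l) => (N + h m).Prime)).card : ℝ) ≤ 1 := by
      exact_mod_cast h3
    calc _ ≤ 1 * μ N := mul_le_mul_of_nonneg_right h4 (hμ N)
      _ = μ N := one_mul _
  have h5 : ∑ m : Fin (2 ^ l), (1 / 10 ^ 10) * (τ * ((l : ℝ) + 2) ^ 2) ≤
      ∑ m : Fin (2 ^ l), ∑ N ∈ T.filter (fun N => (N + h m).Prime), μ N :=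
    Finset.sum_le_sum fun m _ => hm m
  rw [Finset.sum_const, Finset.card_univ, Fintype.card_fin, nsmul_eq_mul] at h5
  push_cast at h5
  have h6 : (2 : ℝ) ^ l * ((1 / 10 ^ 10) * (τ * ((l : ℝ) + 2) ^ 2)) * ((l : ℝ) + 1) =
      (1 / 10 ^ 10) * (((l : ℝ) + 2) ^ 2) * (1 / 20) := by rw [← e1]; ring
  have h7 : (2 : ℝ) ^ l * ((1 / 10 ^ 10) * (τ * ((l : ℝ) + 2) ^ 2)) ≤ 1 := h5.trans h2
  have h8 : (1 / 10 ^ 10) * (((l : ℝ) + 2) ^ 2) * (1 / 20) ≤ 1 * ((l : ℝ) + 1) := by
    rw [← h6]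
    exact mul_le_mul_of_nonneg_right h7 hl0.le
  nlinarith

theorem good_pair : ∃ k : ℕ, 2 ≤ k ∧ ∀ h : Fin k → ℕ, Function.Injective h →
    (∀ p : ℕ, p.Prime → ∃ a : ℕ, ∀ i, ¬ p ∣ a + h i) →
    ∃ i j : Fin k, h i < h j ∧ {N : ℕ | (N + h i).Prime ∧ (N + h j).Prime}.Infinite := by
  obtain ⟨l, hl⟩ : ∃ l : ℕ, (2 * 10 ^ 11 : ℝ) ≤ (l : ℝ) + 1 := by
    obtain ⟨l, hl⟩ := exists_nat_ge (2 * 10 ^ 11 : ℝ)
    exact ⟨l, by linarith⟩
  have hl1 : 1 ≤ l := by
    by_contra hcon
    have : l = 0 := by omega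
    subst this
    norm_num at hl
  refine ⟨2 ^ l, ?_, fun h hinj hadm => ?_⟩
  · calc 2 = 2 ^ 1 := rfl
      _ ≤ 2 ^ l := Nat.pow_le_pow_right (by norm_num) hl1
  by_contra hcon
  push Not at hcon
  have hfin : (⋃ i : Fin (2 ^ l), ⋃ j : Fin (2 ^ l),
      {N : ℕ | h i < h j ∧ (N + h i).Prime ∧ (N + h j).Prime}).Finite := by
    apply Set.finite_iUnion
    intro i
    apply Set.finite_iUnion
    intro j
    by_cases hij : h i < h j
    · exact (hcon i j hij).subset (fun N hN => hN.2)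
    · convert Set.finite_empty (α := ℕ)
      ext N
      simp [hij]
  obtain ⟨N0, hN0⟩ := hfin.bddAbove
  obtain ⟨N, hN, i, j, hij, hi, hj⟩ := two_primes l hl h hinj hadm N0
  have hne : h i ≠ h j := fun e => hij (hinj e)
  rcases lt_or_gt_of_ne hne with h1 | h1
  · have := hN0 (Set.mem_iUnion.mpr ⟨i, Set.mem_iUnion.mpr ⟨j, h1, hi, hj⟩⟩)
    omega
  · have := hN0 (Set.mem_iUnion.mpr ⟨j, Set.mem_iUnion.mpr ⟨i, h1, hj, hi⟩⟩)
    omega

theorem no_clique : ∃ k W : ℕ, 0 < W ∧ ¬ HasClq (badW W) Set.univ k := by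
  obtain ⟨k, hk, H⟩ := good_pair
  refine ⟨k, k.factorial, Nat.factorial_pos k, ?_⟩
  rintro ⟨T, hcard, -, hT⟩
  have hTne : T.Nonempty := by
    rw [← Finset.card_pos]; omega
  set m0 : ℤ := T.min' hTne with hm0
  have hm0T : m0 ∈ T := T.min'_mem hTne
  have hle : ∀ x ∈ T, m0 ≤ x := fun x hx => T.min'_le x hx
  let e : Fin k ≃ T := (T.equivFinOfCardEq hcard).symm
  let x : Fin k → ℤ := fun i => (e i : ℤ)
  have hxT : ∀ i, x i ∈ T := fun i => (e i).2
  have hxinj : Function.Injective x := fun a b hab => e.injective (Subtype.ext hab)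
  let h : Fin k → ℕ := fun i => (x i - m0).toNat
  have hh : ∀ i, (h i : ℤ) = x i - m0 := fun i =>
    Int.toNat_of_nonneg (by have := hle (x i) (hxT i); omega)
  have hinj : Function.Injective h := by
    intro a b hab
    apply hxinj
    have h1 := hh a
    have h2 := hh b
    rw [hab] at h1
    omega
  have hW : ∀ i, k.factorial ∣ h i := by
    intro i
    have h1 : ((k.factorial : ℕ) : ℤ) ∣ (h i : ℤ) := by
      rw [hh i]
      by_cases hx : x i = m0
      · rw [hx, sub_self]; exact dvd_zero _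
      · exact (hT (x i) (hxT i) m0 hm0T hx).2.1
    exact_mod_cast h1
  have hadm : ∀ p : ℕ, p.Prime → ∃ a : ℕ, ∀ i, ¬ p ∣ a + h i := by
    intro p hp
    by_cases hpk : p ≤ k
    · refine ⟨1, fun i hdvd => ?_⟩
      have h1 : p ∣ h i := (hp.dvd_factorial.mpr hpk).trans (hW i)
      have h2 : p ∣ 1 := (Nat.dvd_add_left h1).mp hdvd
      exact hp.one_lt.ne' (Nat.dvd_one.mp h2)
    · have : Fact p.Prime := ⟨hp⟩
      have hns : ¬ Function.Surjective (fun i : Fin k => -((h i : ℕ) : ZMod p)) := by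
        intro hs
        have := Fintype.card_le_of_surjective _ hs
        rw [Fintype.card_fin, ZMod.card] at this
        omega
      rw [Function.Surjective] at hns
      push Not at hns
      obtain ⟨c, hc⟩ := hns
      refine ⟨c.val, fun i hdvd => ?_⟩
      apply hc i
      have h1 : ((c.val + h i : ℕ) : ZMod p) = 0 := (ZMod.natCast_eq_zero_iff _ _).mpr hdvd
      rw [Nat.cast_add, ZMod.natCast_zmod_val] at h1
      exact (eq_neg_of_add_eq_zero_left h1).symm
  obtain ⟨i, j, hij, hinf⟩ := H h hinj hadm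
  have hxij : x j ≠ x i := by
    intro he
    have h1 := hh i
    have h2 := hh j
    omega
  have hbad := hT (x j) (hxT j) (x i) (hxT i) hxij
  apply hbad.2.2
  have habs : (x j - x i).natAbs = h j - h i := by
    have h1 := hh i
    have h2 := hh j
    omega
  rw [habs]
  unfold Good
  have hinj2 : Set.InjOn (fun N : ℕ => N + h i)
      {N : ℕ | (N + h i).Prime ∧ (N + h j).Prime} := fun a _ b _ hab => by
    simpa using hab
  refine (hinf.image hinj2).mono ?_
  rintro _ ⟨N, ⟨hN1, hN2⟩, rfl⟩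
  refine ⟨hN1, ?_⟩
  have : N + h i + (h j - h i) = N + h j := by omega
  simp only
  rw [this]
  exact hN2

end Pool.Agent.H92.BH
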