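import Pool.Agent.H92.BH.Clq
import Pool.Agent.H92.BH.Pair

/-!
[H92 BH MAIN]  Theorem T2.

Proof.  `no_clique` gives `k`, `W`; `no_clique_bohr` for `D = badW W` (symmetric, `0 ∉ D`) gives `J, α, ρ`.
Take `J + 1` frequencies: `α i` and `1/W`, and `ρ' = min ρ (1/(2W))`.  If `0 < h` and `|h/W - m| < 1/(2W)` then `|h - m W| < 1/2`, so
`W ∣ h`.  So the counted `h` lie in `D ∩ Boh α ρ`, which is not `UBD`: for every `ε > 0` there is `L₀` such that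
`cnt (D ∩ Boh α ρ) a L < ε L` for all `L ≥ L₀`, `L > 0` and all `a`.
-/

namespace Pool.Agent.H92.BH

lemma badW_symm (W : ℕ) : ∀ d ∈ badW W, -d ∈ badW W := by
  intro d hd
  refine ⟨neg_ne_zero.mpr hd.1, (dvd_neg).mpr hd.2.1, ?_⟩
  rw [Int.natAbs_neg]
  exact hd.2.2

open Classical in
theorem bohr_good : ∃ (J : ℕ) (α : Fin J → ℝ) (ρ : ℝ), 0 < ρ ∧
    ∀ ε : ℝ, 0 < ε → ∃ L₀ : ℕ, ∀ L : ℕ, L₀ ≤ L → ∀ a : ℕ,
      (((Finset.Ioc a (a + L)).filter (fun h : ℕ =>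
        (∀ i, ∃ m : ℤ, |(h : ℝ) * α i - m| < ρ) ∧
          ¬ {N : ℕ | N.Prime ∧ (N + h).Prime}.Infinite)).card : ℝ) ≤ ε * L := by
  obtain ⟨k, W, hW, hclq⟩ := no_clique
  obtain ⟨J, α, ρ, hρ, hbohr⟩ := no_clique_bohr (D := badW W) (fun h => h.1 rfl)
    (badW_symm W) k hclq
  have hWR : (0 : ℝ) < W := Nat.cast_pos.mpr hW
  refine ⟨J + 1, Fin.snoc α (1 / (W : ℝ)), min ρ (1 / (2 * W)), lt_min hρ (by positivity), ?_⟩
  intro ε hε
  have hnot : ¬ UBDge (badW W ∩ Boh α ρ) ε := fun h => hbohr ⟨ε, hε, h⟩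
  unfold UBDge at hnot
  push Not at hnot
  obtain ⟨L₀, hL₀⟩ := hnot
  refine ⟨max L₀ 1, fun L hL a => ?_⟩
  have hLpos : 0 < L := lt_of_lt_of_le one_pos ((le_max_right _ _).trans hL)
  have h1 := hL₀ L ((le_max_left _ _).trans hL) hLpos (a : ℤ)
  refine le_trans ?_ h1.le
  unfold cnt
  refine Nat.cast_le.mpr ?_
  refine Finset.card_le_card_of_injOn (fun h : ℕ => (h : ℤ)) ?_
    (fun x _ y _ hxy => Nat.cast_injective (R := ℤ) hxy)
  intro h hh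
  simp only [Finset.coe_filter, Finset.mem_Ioc, Set.mem_ofPred_eq] at hh ⊢
  obtain ⟨⟨ha, hb⟩, hboh, hbad⟩ := hh
  refine ⟨⟨by exact_mod_cast ha, by exact_mod_cast hb⟩, ⟨?_, ?_, ?_⟩, ?_⟩
  · have : 0 < h := by omega
    exact_mod_cast this.ne'
  · -- divisibility by `W`
    obtain ⟨m, hm⟩ := hboh (Fin.last J)
    rw [Fin.snoc_last] at hm
    have hm2 : |(h : ℝ) * (1 / (W : ℝ)) - m| < 1 / (2 * W) := hm.trans_le (min_le_right _ _)
    have h2 : |(h : ℝ) - m * W| < 1 / 2 := by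
      have h3 : (h : ℝ) - m * W = ((h : ℝ) * (1 / (W : ℝ)) - m) * W := by
        field_simp
      rw [h3, abs_mul, abs_of_pos hWR]
      calc |(h : ℝ) * (1 / (W : ℝ)) - m| * W < 1 / (2 * W) * W :=
            mul_lt_mul_of_pos_right hm2 hWR
        _ = 1 / 2 := by field_simp
    have h4 : |((h : ℤ) - m * W : ℤ)| < 1 := by
      have h5 : ((|((h : ℤ) - m * W : ℤ)| : ℤ) : ℝ) < 1 := by
        push_cast
        linarith
      exact_mod_cast h5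
    have h6 : (h : ℤ) - m * W = 0 := Int.abs_lt_one_iff.mp h4
    exact ⟨m, by linarith⟩
  · simpa [Good] using hbad
  · intro i
    obtain ⟨m, hm⟩ := hboh (Fin.castSucc i)
    rw [Fin.snoc_castSucc] at hm
    refine ⟨m, ?_⟩
    have h7 := hm.trans_le (min_le_left _ _)
    simpa using h7

end Pool.Agent.H92.BH
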