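import Pool.Agent.H92.BH.RBlkB
import Pool.Agent.H92.BH.SBlk

/-!
[H92 BH RBLK]  Construction of the blocks.

Proof of `blocks`: iterate `step` (recursion on the union `G j` of the blocks `i < j`, with `l = l j`).  Admissibility: let `p` be prime; `G j` has at least `j` elements, so let `j` be minimal with
`p ≤ (G j).card + 2^(l j) + 2`.  All elements of the blocks `i ≥ j` are divisible by `p` (the factorials grow: `G j ⊆ G i`, and for `i > j`: `(G i).card + 2^(l i) + 2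
≥ (G (j+1)).card + 2 = (G j).card + 2^(l j) + 2 ≥ p`).  The blocks `i < j` have `(G j).card` elements in total, and for `j > 0`: `(G j).card = (G (j-1)).card + 2^(l (j-1)) ≤ p - 3`
by minimality; for `j = 0` there are none.  So the elements of all blocks occupy at most `p - 2` classes (including the class `0`) if `j > 0`, or only the class `0` if `j = 0`; some class `e < p` is free,
and `a = p - e` satisfies `¬ p ∣ a + g` for all elements `g`.
-/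

namespace Pool.Agent.H92.BH

open Filter

theorem blocks {D : Set ℤ} (h0 : (0 : ℤ) ∉ D) (hsym : ∀ d ∈ D, -d ∈ D)
    (hD : ∀ (J : ℕ) (α : Fin J → ℝ) (ρ : ℝ), 0 < ρ → UBD (D ∩ Boh α ρ)) {r : ℕ} (c : ℕ → Fin r)
    (l : ℕ → ℕ) :
    ∃ H : ℕ → Finset ℕ, (∀ j, (H j).card = 2 ^ l j) ∧ (∀ i j, i ≠ j → Disjoint (H i) (H j)) ∧
      (∀ p : ℕ, p.Prime → ∃ a : ℕ, ∀ j, ∀ h ∈ H j, ¬ p ∣ a + h) ∧
      (∀ j, ∀ x ∈ H j, ∀ y ∈ H j, x < y → ((y - x : ℕ) : ℤ) ∈ D) ∧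
      ∀ j, ∀ F : Finset ℕ, (∀ x ∈ F, ∃ i < j, x ∈ H i) → ∀ s, ¬ Rich c (s + 1) F →
        ∀ y ∈ H j, ¬ Rich c s (insert y F) := by
  obtain ⟨H, h1, h2, h3, h4⟩ := iter_blocks
    (fun G H => (∀ x ∈ H, ∀ y ∈ H, x < y → ((y - x : ℕ) : ℤ) ∈ D) ∧
      ∀ F ⊆ G, ∀ s, ¬ Rich c (s + 1) F → ∀ y ∈ H, ¬ Rich c s (insert y F)) l
    (fun G l => by
      obtain ⟨H, a1, a2, a3, a4, a5⟩ := step h0 hsym hD c G l
      exact ⟨H, a1, a2, a3, a4, a5⟩)
  refine ⟨H, h1, h2, h3, fun j => (h4 j).1, fun j F hF => (h4 j).2 F ?_⟩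
  intro x hx
  obtain ⟨i, hi, hxi⟩ := hF x hx
  exact Finset.mem_biUnion.mpr ⟨i, Finset.mem_range.mpr hi, hxi⟩

end Pool.Agent.H92.BH
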