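import Pool.Agent.H92.BH.RUd

/-!
[H92 BH RRICH]  Elementary properties of rich sets.

Proofs.
* `GoodC_mono`: smaller sets are good.
* `Rich_mono`: by induction on `s`: `Rich c s G → F ⊆ G → Rich c s F` (`insert y F ⊆ insert y G`, `UD_mono`).
* `Rich_pred`: `Rich c (s+1) F → Rich c s F`: by `UD_nonempty` some `insert y F` is `s`-rich; now `Rich_mono`.
* `Rich_shift`: by induction on `s`, for all `F`: if `F.image (· + x)` is `s`-rich then `F` is.  `s = 0`: replace `N` by `N + x`
  (`N + (a + x) = (N + x) + a`, injective map).  Step: the `y` with `insert y (F + x)` rich have `UD`; by `UD_shift'` also the `y'` with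
  `insert (y' + x) (F + x) = (insert y' F) + x` rich; induction hypothesis and `UD_mono`.
-/

namespace Pool.Agent.H92.BH

open Filter

variable {r : ℕ} (c : ℕ → Fin r)

lemma GoodC_mono {F G : Finset ℕ} (h : F ⊆ G) (hG : GoodC c G) : GoodC c F := by
  obtain ⟨i, hi⟩ := hG
  refine ⟨i, hi.mono ?_⟩
  intro N hN a ha
  exact hN a (h ha)

lemma Rich_mono {s : ℕ} {F G : Finset ℕ} (h : F ⊆ G) (hG : Rich c s G) : Rich c s F := by
  induction s generalizing F G with
  | zero => exact GoodC_mono c h hG
  | succ s ih =>
    have hG' : UD {y | Rich c s (insert y G)} := hG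
    show UD {y | Rich c s (insert y F)}
    exact UD_mono (fun y hy => ih (Finset.insert_subset_insert y h) hy) hG'

lemma Rich_pred {s : ℕ} {F : Finset ℕ} (h : Rich c (s + 1) F) : Rich c s F := by
  have h' : UD {y | Rich c s (insert y F)} := h
  obtain ⟨y, hy⟩ := UD_nonempty h'
  exact Rich_mono c (Finset.subset_insert y F) hy

lemma Rich_shift {s : ℕ} {F : Finset ℕ} (x : ℕ) (h : Rich c s (F.image (fun a => a + x))) :
    Rich c s F := by
  induction s generalizing F with
  | zero =>
    obtain ⟨i, hi⟩ := h
    refine ⟨i, (hi.image (f := fun N => N + x) (fun a _ b _ hab => by simpa using hab)).mono ?_⟩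
    rintro _ ⟨N, hN, rfl⟩ a ha
    have h1 := hN (a + x) (Finset.mem_image_of_mem _ ha)
    have h2 : N + x + a = N + (a + x) := by ring
    show (N + x + a).Prime ∧ c (N + x + a) = i
    rw [h2]
    exact h1
  | succ s ih =>
    have h' : UD {y | Rich c s (insert y (F.image (fun a => a + x)))} := h
    show UD {y | Rich c s (insert y F)}
    refine UD_mono ?_ (UD_shift' x h')
    intro y hy
    refine ih ?_
    rw [Finset.image_insert]
    exact hy

end Pool.Agent.H92.BH
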