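import Pool.Agent.H92.BH.Clq
import Pool.Agent.H92.BH.RRich

/-!
[H92 BH RBLKA]  Large cliques inside the multiples of `W`.

Proof of `big_cliques`: `D ∩ {d | (W : ℤ) ∣ d}` also satisfies the hypothesis `hD` of `cliques` (frequencies `α i` and `1/W`, radius `min ρ (1/(2W))`,
as in `bohr_good` in `Main.lean`: `D ∩ Boh α' ρ' ⊆ (D ∩ W ℤ) ∩ Boh α ρ`, and `UBD` is monotone), is symmetric and does not contain `0`; apply
`cliques` with `S = univ` and translate the clique so that its minimum is `0`; write it as a finset `C` of naturals (`Int.toNat`).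
-/

namespace Pool.Agent.H92.BH

open Filter

lemma UBD_mono_A {S S' : Set ℤ} (h : S ⊆ S') (hS : UBD S) : UBD S' := by
  obtain ⟨δ, hδ, H⟩ := hS
  refine ⟨δ, hδ, fun L₀ => ?_⟩
  obtain ⟨L, hL, hL0, a, ha⟩ := H L₀
  refine ⟨L, hL, hL0, a, ha.trans ?_⟩
  unfold cnt
  refine Nat.cast_le.mpr (Finset.card_le_card ?_)
  intro n hn
  simp only [Finset.mem_filter] at hn ⊢
  exact ⟨hn.1, h hn.2⟩

lemma dvd_of_boh {W : ℕ} (hW : 0 < W) (h m : ℤ)
    (hm2 : |(h : ℝ) * (1 / (W : ℝ)) - m| < 1 / (2 * W)) : (W : ℤ) ∣ h := by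
  have hWR : (0 : ℝ) < W := Nat.cast_pos.mpr hW
  have h2 : |(h : ℝ) - m * W| < 1 / 2 := by
    have h3 : (h : ℝ) - m * W = ((h : ℝ) * (1 / (W : ℝ)) - m) * W := by
      field_simp
    rw [h3, abs_mul, abs_of_pos hWR]
    calc |(h : ℝ) * (1 / (W : ℝ)) - m| * W < 1 / (2 * W) * W :=
          mul_lt_mul_of_pos_right hm2 hWR
      _ = 1 / 2 := by field_simp
  have h4 : |((h : ℤ) - m * W : ℤ)| < 1 := by
    have h5 : ((|((h : ℤ) - m * W : ℤ)| : ℤ) : ℝ) < 1 := by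
      push_cast
      linarith
    exact_mod_cast h5
  have h6 : (h : ℤ) - m * W = 0 := Int.abs_lt_one_iff.mp h4
  exact ⟨m, by linarith⟩

theorem big_cliques {D : Set ℤ} (h0 : (0 : ℤ) ∉ D) (hsym : ∀ d ∈ D, -d ∈ D)
    (hD : ∀ (J : ℕ) (α : Fin J → ℝ) (ρ : ℝ), 0 < ρ → UBD (D ∩ Boh α ρ)) (k W : ℕ) (hW : 0 < W) :
    ∃ C : Finset ℕ, C.card = k ∧ (∀ x ∈ C, W ∣ x) ∧
      ∀ x ∈ C, ∀ y ∈ C, x < y → ((y - x : ℕ) : ℤ) ∈ D := by
  classical
  rcases Nat.eq_zero_or_pos k with rfl | hk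
  · exact ⟨∅, by simp, by simp, by simp⟩
  have hWR : (0 : ℝ) < W := Nat.cast_pos.mpr hW
  let D' : Set ℤ := {d | d ∈ D ∧ (W : ℤ) ∣ d}
  have hD' : ∀ (J : ℕ) (α : Fin J → ℝ) (ρ : ℝ), 0 < ρ → UBD (D' ∩ Boh α ρ) := by
    intro J α ρ hρ
    refine UBD_mono_A ?_ (hD (J + 1) (Fin.snoc α (1 / (W : ℝ))) (min ρ (1 / (2 * W)))
      (lt_min hρ (by positivity)))
    rintro h ⟨hhD, hboh⟩
    refine ⟨⟨hhD, ?_⟩, ?_⟩
    · obtain ⟨m, hm⟩ := hboh (Fin.last J)
      rw [Fin.snoc_last] at hm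
      exact dvd_of_boh hW h m (hm.trans_le (min_le_right _ _))
    · intro i
      obtain ⟨m, hm⟩ := hboh (Fin.castSucc i)
      rw [Fin.snoc_castSucc] at hm
      exact ⟨m, hm.trans_le (min_le_left _ _)⟩
  obtain ⟨T, hTc, -, hTD⟩ := cliques (D := D') (fun h => h0 h.1)
    (fun d hd => ⟨hsym d hd.1, (dvd_neg).mpr hd.2⟩) hD' k Set.univ UBD_univ
  have hTne : T.Nonempty := by
    rw [← Finset.card_pos]; omega
  set m0 : ℤ := T.min' hTne with hm0
  have hm0T : m0 ∈ T := T.min'_mem hTne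
  have hle : ∀ x ∈ T, m0 ≤ x := fun x hx => T.min'_le x hx
  refine ⟨T.image (fun x => (x - m0).toNat), ?_, ?_, ?_⟩
  · rw [Finset.card_image_of_injOn, hTc]
    intro a ha b hb hab
    have h1 := hle a ha
    have h2 := hle b hb
    simp only at hab
    omega
  · intro x hx
    obtain ⟨a, ha, rfl⟩ := Finset.mem_image.mp hx
    have h1 := hle a ha
    have h3 : ((W : ℕ) : ℤ) ∣ (((a - m0).toNat : ℕ) : ℤ) := by
      rw [Int.toNat_of_nonneg (by omega)]
      by_cases hx : a = m0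
      · rw [hx, sub_self]; exact dvd_zero _
      · exact (hTD a ha m0 hm0T hx).2
    exact_mod_cast h3
  · intro x hx y hy hxy
    obtain ⟨a, ha, rfl⟩ := Finset.mem_image.mp hx
    obtain ⟨b, hb, rfl⟩ := Finset.mem_image.mp hy
    have h1 := hle a ha
    have h2 := hle b hb
    have hne : b ≠ a := by
      intro he
      rw [he] at hxy
      omega
    have h3 : (((b - m0).toNat - (a - m0).toNat : ℕ) : ℤ) = b - a := by omega
    rw [h3]
    exact (hTD b hb a ha hne).1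

end Pool.Agent.H92.BH
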