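import Pool.Agent.H92.BH.RBlkA

/-!
[H92 BH RBLKB]  One block.

Proof of `step`: let `G` be the union of the former blocks.  `W = (G.card + 2^l + 2)!`, `C` from `big_cliques` with `2^l` elements.  For `F ⊆ G` and `s` with
`¬ Rich c (s+1) F`, where `s` is minimal for `F` (`Nat.find`), the set `Z F = {y | Rich c s (insert y F)}` is not `UD`.  `exists_avoid` (index set `G.powerset`, with `Z F = ∅`
for the `F` without such `s`; `∅` is not `UD`), `t₀ = sup G + 1`: `t` with `W ∣ t`, `H = C.image (· + t)`.  For `s' ≥ s`: `¬ Rich c s' (insert y F)` by `Rich_pred`.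
-/

namespace Pool.Agent.H92.BH

open Filter

theorem step {D : Set ℤ} (h0 : (0 : ℤ) ∉ D) (hsym : ∀ d ∈ D, -d ∈ D)
    (hD : ∀ (J : ℕ) (α : Fin J → ℝ) (ρ : ℝ), 0 < ρ → UBD (D ∩ Boh α ρ)) {r : ℕ} (c : ℕ → Fin r)
    (G : Finset ℕ) (l : ℕ) :
    ∃ H : Finset ℕ, H.card = 2 ^ l ∧ Disjoint G H ∧
      (∀ x ∈ H, (G.card + 2 ^ l + 2).factorial ∣ x) ∧
      (∀ x ∈ H, ∀ y ∈ H, x < y → ((y - x : ℕ) : ℤ) ∈ D) ∧
      ∀ F ⊆ G, ∀ s, ¬ Rich c (s + 1) F → ∀ y ∈ H, ¬ Rich c s (insert y F) := by
  classical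
  have hW : 0 < (G.card + 2 ^ l + 2).factorial := Nat.factorial_pos _
  obtain ⟨C, hC1, hC2, hC3⟩ := big_cliques h0 hsym hD (2 ^ l) ((G.card + 2 ^ l + 2).factorial) hW
  let Z : Finset ℕ → Set ℕ := fun F =>
    if h : ∃ s, ¬ Rich c (s + 1) F then {y | Rich c (Nat.find h) (insert y F)} else ∅
  have hZ : ∀ F ∈ G.powerset, ¬ UD (Z F) := by
    intro F _
    by_cases h : ∃ s, ¬ Rich c (s + 1) F
    · have e : Z F = {y | Rich c (Nat.find h) (insert y F)} := by
        simp only [Z, dif_pos h]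
      rw [e]
      exact Nat.find_spec h
    · have e : Z F = ∅ := by
        simp only [Z, dif_neg h]
      rw [e]
      intro hu
      exact Set.not_nonempty_empty (UD_nonempty hu)
  obtain ⟨t, ht1, ht2, ht3⟩ := exists_avoid G.powerset Z hZ C _ hW (G.sup id + 1)
  refine ⟨C.image (fun a => a + t), ?_, ?_, ?_, ?_, ?_⟩
  · rw [Finset.card_image_of_injective _ (add_left_injective t)]
    exact hC1
  · rw [Finset.disjoint_left]
    intro x hx hx2
    rw [Finset.mem_image] at hx2
    obtain ⟨a, _, rfl⟩ := hx2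
    have h1 : a + t ≤ G.sup id := Finset.le_sup (f := id) hx
    omega
  · intro x hx
    rw [Finset.mem_image] at hx
    obtain ⟨a, ha, rfl⟩ := hx
    exact dvd_add (hC2 a ha) ht2
  · intro x hx y hy hxy
    rw [Finset.mem_image] at hx hy
    obtain ⟨a, ha, rfl⟩ := hx
    obtain ⟨b, hb, rfl⟩ := hy
    have h1 : b + t - (a + t) = b - a := by omega
    rw [h1]
    exact hC3 a ha b hb (by omega)
  · intro F hF s hs y hy
    rw [Finset.mem_image] at hy
    obtain ⟨a, ha, rfl⟩ := hy
    have h : ∃ s, ¬ Rich c (s + 1) F := ⟨s, hs⟩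
    have e : Z F = {y | Rich c (Nat.find h) (insert y F)} := by
      simp only [Z, dif_pos h]
    have h1 : t + a ∉ Z F := ht3 F (Finset.mem_powerset.2 hF) a ha
    rw [e, Set.mem_setOf_eq, add_comm t a] at h1
    have h2 : Nat.find h ≤ s := Nat.find_min' h hs
    have down : ∀ k m : ℕ, Rich c (m + k) (insert (a + t) F) → Rich c m (insert (a + t) F) := by
      intro k
      induction k with
      | zero => intro m hm; exact hm
      | succ k ih =>
        intro m hm
        apply ih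
        exact Rich_pred c hm
    intro hr
    apply h1
    apply down (s - Nat.find h)
    rw [Nat.add_sub_cancel' h2]
    exact hr

end Pool.Agent.H92.BH
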