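import Pool.Agent.H92.BH.RDefs

/-!
[H92 BH RCOL]  Colours by an ultrafilter.

Proof.  If `B` is finite take `F = B` and the pigeonhole principle (or treat it like the infinite case).  In general: for every finite `F ⊆ B` the set
`A F = {N | ∀ a ∈ F, (N + a).Prime}` is infinite; these sets have the finite intersection property together with the cofinite sets
(`A F ∩ A F' = A (F ∪ F')`), so there is an ultrafilter `V ≤ cofinite` containing all of them (`Filter.NeBot` of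
`⨅ F, 𝓟 (A F) ⊓ cofinite`, `Ultrafilter.of`).  For `a ∈ B` let `κ a` be the colour `i` with `{N | c (N + a) = i} ∈ V` (finitely many colours,
`Ultrafilter` pigeonhole: `Ultrafilter.finite_sUnion_mem_iff` or `Ultrafilter.eventually_exists_mem_iff`).  For a finite `F ⊆ B` the set
`{N | ∀ a ∈ F, (N + a).Prime ∧ c (N + a) = κ a}` is in `V`, so it is infinite.
-/

namespace Pool.Agent.H92.BH

open Filter

theorem colours {r : ℕ} (c : ℕ → Fin r) (B : Set ℕ)
    (hB : ∀ F : Finset ℕ, ↑F ⊆ B → {N : ℕ | ∀ a ∈ F, (N + a).Prime}.Infinite) :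
    ∃ κ : ℕ → Fin r, ∀ F : Finset ℕ, ↑F ⊆ B →
      {N : ℕ | ∀ a ∈ F, (N + a).Prime ∧ c (N + a) = κ a}.Infinite := by
  classical
  have hch : ∀ p : {F : Finset ℕ // (↑F : Set ℕ) ⊆ B} × ℕ,
      ∃ N : ℕ, p.2 ≤ N ∧ ∀ a ∈ p.1.1, (N + a).Prime := by
    intro p
    obtain ⟨N, hN, h⟩ := (hB p.1.1 p.1.2).exists_gt p.2
    exact ⟨N, h.le, hN⟩
  choose N hN hNp using hch
  haveI : Nonempty ({F : Finset ℕ // (↑F : Set ℕ) ⊆ B} × ℕ) := ⟨(⟨∅, by simp⟩, 0)⟩
  haveI : IsDirectedOrder ({F : Finset ℕ // (↑F : Set ℕ) ⊆ B} × ℕ) := by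
    refine ⟨fun F F' => ⟨(⟨F.1.1 ∪ F'.1.1, ?_⟩, max F.2 F'.2), ⟨?_, ?_⟩, ⟨?_, ?_⟩⟩⟩
    · rw [Finset.coe_union]
      exact Set.union_subset F.1.2 F'.1.2
    · exact Finset.subset_union_left
    · exact le_max_left _ _
    · exact Finset.subset_union_right
    · exact le_max_right _ _
  obtain ⟨V, hV⟩ : ∃ V : Ultrafilter ℕ, V = (Ultrafilter.of
    (atTop : Filter ({F : Finset ℕ // (↑F : Set ℕ) ⊆ B} × ℕ))).map N := ⟨_, rfl⟩
  have hVmem : ∀ S : Set ℕ, (∀ᶠ p in (atTop : Filter ({F : Finset ℕ // (↑F : Set ℕ) ⊆ B} × ℕ)),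
      N p ∈ S) → S ∈ V := by
    intro S hS
    rw [hV, Ultrafilter.mem_map]
    exact Ultrafilter.of_le _ hS
  have hprime : ∀ a ∈ B, {M : ℕ | (M + a).Prime} ∈ V := by
    intro a ha
    apply hVmem
    have haB : (↑({a} : Finset ℕ) : Set ℕ) ⊆ B := by
      intro x hx
      rw [Finset.coe_singleton, Set.mem_singleton_iff] at hx
      rw [hx]
      exact ha
    filter_upwards [eventually_ge_atTop
      ((⟨{a}, haB⟩, 0) : {F : Finset ℕ // (↑F : Set ℕ) ⊆ B} × ℕ)] with p hp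
    exact hNp p a (hp.1 (Finset.mem_singleton_self a))
  have hbig : ∀ n : ℕ, {M : ℕ | n ≤ M} ∈ V := by
    intro n
    apply hVmem
    filter_upwards [eventually_ge_atTop
      ((⟨∅, by simp⟩, n) : {F : Finset ℕ // (↑F : Set ℕ) ⊆ B} × ℕ)] with p hp
    exact le_trans hp.2 (hN p)
  have hcol : ∀ a : ℕ, ∃ i : Fin r, {M : ℕ | c (M + a) = i} ∈ V := by
    intro a
    obtain ⟨i, hi⟩ := Ultrafilter.eq_pure_of_finite (V.map (fun M => c (M + a)))
    refine ⟨i, ?_⟩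
    have h1 : ({i} : Set (Fin r)) ∈ V.map (fun M => c (M + a)) := by
      rw [hi]
      exact Ultrafilter.mem_pure.2 rfl
    rw [Ultrafilter.mem_map] at h1
    exact h1
  choose κ hκ using hcol
  refine ⟨κ, fun F hF => ?_⟩
  have hmem : {M : ℕ | ∀ a ∈ F, (M + a).Prime ∧ c (M + a) = κ a} ∈ V := by
    have h1 : {M : ℕ | ∀ a ∈ F, (M + a).Prime ∧ c (M + a) = κ a} =
        ⋂ a ∈ F, ({M : ℕ | (M + a).Prime} ∩ {M : ℕ | c (M + a) = κ a}) := by
      ext M
      simp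
    rw [h1]
    rw [← Ultrafilter.mem_coe, Filter.biInter_finset_mem]
    intro a ha
    exact Filter.inter_mem (hprime a (hF ha)) (hκ a)
  intro hfin
  obtain ⟨n, hn⟩ := hfin.bddAbove
  have h2 := Filter.inter_mem hmem (hbig (n + 1))
  obtain ⟨M, hM1, hM2⟩ := V.nonempty_of_mem h2
  have h3 := hn hM1
  have h4 : n + 1 ≤ M := hM2
  omega

end Pool.Agent.H92.BH
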