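import Pool.Agent.H92.BH.Defs

/-!
MP_8923e7_nt, theorem T2w (rich differences in a Bohr neighbourhood of 0).  Definitions only.
-/

namespace Pool.Agent.H92.BH

open Filter

/-- infinitely many `N` for which all `N + a`, `a ∈ F`, are primes of the same colour -/
def GoodC {r : ℕ} (c : ℕ → Fin r) (F : Finset ℕ) : Prop :=
  ∃ i : Fin r, {N : ℕ | ∀ a ∈ F, (N + a).Prime ∧ c (N + a) = i}.Infinite

/-- positive upper density of a set of natural numbers -/
def UD (Y : Set ℕ) : Prop :=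
  ∃ δ : ℝ, 0 < δ ∧ ∃ᶠ X : ℕ in atTop, δ * X ≤ ((Y ∩ Set.Iio X).ncard : ℝ)

/-- `F` can be extended `s` times, each time by a set of new elements of positive upper density -/
def Rich {r : ℕ} (c : ℕ → Fin r) : ℕ → Finset ℕ → Prop
  | 0, F => GoodC c F
  | s + 1, F => UD {y | Rich c s (insert y F)}

/-- `0` and `h` lie in an infinite set all of whose finite subsets are good, with one colour -/
def InfGood {r : ℕ} (c : ℕ → Fin r) (h : ℕ) : Prop :=
  ∃ (i : Fin r) (B : Set ℕ), B.Infinite ∧ 0 ∈ B ∧ h ∈ B ∧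
    ∀ F : Finset ℕ, ↑F ⊆ B → {N : ℕ | ∀ a ∈ F, (N + a).Prime ∧ c (N + a) = i}.Infinite

/-- the differences which are not rich, with sign -/
def badC {r : ℕ} (c : ℕ → Fin r) : Set ℤ :=
  {d | d ≠ 0 ∧ ¬ (InfGood c d.natAbs ∧ ∀ s, Rich c s {0, d.natAbs})}

end Pool.Agent.H92.BH
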