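import Pool.Agent.H92.BH.RDefs

/-!
[H92 BH RUD]  Sets of upper density zero.

Proofs.
* `UD_mono`: monotone.
* `UD_shift`: if `{y | y + x ∈ Z}` has `UD` then `Z` has: `y < X` goes to `y + x < X + x`, so
  `|Z ∩ Iio (X+x)| ≥ δ X ≥ (δ/2)(X + x)` for large `X`.
* `UD_shift'`: if `Y` has `UD` then `{y | y + x ∈ Y}` has: remove the elements `< x`: `|{y | y + x ∈ Y} ∩ Iio X| ≥
  |Y ∩ Iio X| - x ≥ δ X - x ≥ (δ/2) X` for large `X`.
* `exists_avoid`: a finite union of sets without `UD` has no `UD` (`rud_not_union`), and the multiples of `W`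
  beyond `t₀` have `UD` (`rud_multiples`).
-/

namespace Pool.Agent.H92.BH

open Filter

theorem rud_fin (Y : Set ℕ) (X : ℕ) : (Y ∩ Set.Iio X).Finite :=
  (Set.finite_Iio X).subset Set.inter_subset_right

lemma UD_mono {Y Z : Set ℕ} (h : Y ⊆ Z) (hY : UD Y) : UD Z := by
  obtain ⟨δ, hδ, hf⟩ := hY
  refine ⟨δ, hδ, hf.mono (fun X hX => hX.trans ?_)⟩
  exact_mod_cast Set.ncard_le_ncard (Set.inter_subset_inter_left _ h) (rud_fin Z X)

lemma UD_shift {Z : Set ℕ} (x : ℕ) (h : UD {y | y + x ∈ Z}) : UD Z := by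
  obtain ⟨δ, hδ, hf⟩ := h
  refine ⟨δ / 2, by positivity, ?_⟩
  refine (tendsto_add_atTop_nat x).frequently ((hf.and_eventually (eventually_ge_atTop x)).mono ?_)
  rintro X ⟨hX, hxX⟩
  have h1 : ({y | y + x ∈ Z} ∩ Set.Iio X).ncard ≤ (Z ∩ Set.Iio (X + x)).ncard := by
    apply Set.ncard_le_ncard_of_injOn (fun y => y + x)
    · rintro y ⟨hy, hyX⟩
      exact ⟨hy, by simpa using hyX⟩
    · intro a _ b _ hab
      exact Nat.add_right_cancel hab
  have h2 : (({y | y + x ∈ Z} ∩ Set.Iio X).ncard : ℝ) ≤ ((Z ∩ Set.Iio (X + x)).ncard : ℝ) := by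
    exact_mod_cast h1
  have h3 : (x : ℝ) ≤ X := by exact_mod_cast hxX
  push_cast
  nlinarith

lemma UD_shift' {Y : Set ℕ} (x : ℕ) (h : UD Y) : UD {y | y + x ∈ Y} := by
  obtain ⟨δ, hδ, hf⟩ := h
  refine ⟨δ / 2, by positivity, ?_⟩
  obtain ⟨N, hN⟩ := exists_nat_ge (2 * x / δ)
  refine (hf.and_eventually (eventually_ge_atTop N)).mono ?_
  rintro X ⟨hX, hNX⟩
  have h1 : Y ∩ Set.Iio X ⊆ Set.Iio x ∪ (fun y => y + x) '' ({y | y + x ∈ Y} ∩ Set.Iio X) := by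
    rintro y ⟨hy, hyX⟩
    rcases lt_or_ge y x with h2 | h2
    · exact Or.inl h2
    · right
      refine ⟨y - x, ⟨?_, ?_⟩, Nat.sub_add_cancel h2⟩
      · change y - x + x ∈ Y
        rw [Nat.sub_add_cancel h2]
        exact hy
      · exact lt_of_le_of_lt (Nat.sub_le y x) hyX
  have h2 : (Y ∩ Set.Iio X).ncard ≤ x + ({y | y + x ∈ Y} ∩ Set.Iio X).ncard := by
    calc (Y ∩ Set.Iio X).ncard
        ≤ (Set.Iio x ∪ (fun y => y + x) '' ({y | y + x ∈ Y} ∩ Set.Iio X)).ncard :=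
          Set.ncard_le_ncard h1 ((Set.finite_Iio x).union ((rud_fin _ X).image _))
      _ ≤ (Set.Iio x).ncard + ((fun y => y + x) '' ({y | y + x ∈ Y} ∩ Set.Iio X)).ncard :=
          Set.ncard_union_le _ _
      _ ≤ x + ({y | y + x ∈ Y} ∩ Set.Iio X).ncard := by
          apply Nat.add_le_add
          · rw [← Finset.coe_range, Set.ncard_coe_finset, Finset.card_range]
          · exact Set.ncard_image_le (rud_fin _ X)
  have h3 : ((Y ∩ Set.Iio X).ncard : ℝ) ≤ x + (({y | y + x ∈ Y} ∩ Set.Iio X).ncard : ℝ) := by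
    exact_mod_cast h2
  have h4 : 2 * (x : ℝ) / δ ≤ X := hN.trans (by exact_mod_cast hNX)
  rw [div_le_iff₀ hδ] at h4
  linarith

lemma UD_nonempty {Y : Set ℕ} (h : UD Y) : Y.Nonempty := by
  obtain ⟨δ, hδ, hf⟩ := h
  rw [Set.nonempty_iff_ne_empty]
  rintro rfl
  obtain ⟨X, hX, hX1⟩ := (hf.and_eventually (eventually_ge_atTop 1)).exists
  rw [Set.empty_inter, Set.ncard_empty, Nat.cast_zero] at hX
  have h1 : (1 : ℝ) ≤ X := by exact_mod_cast hX1
  nlinarith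

theorem rud_not_union {A B : Set ℕ} (hA : ¬ UD A) (hB : ¬ UD B) : ¬ UD (A ∪ B) := by
  rintro ⟨δ, hδ, hf⟩
  have h1 : ∃ᶠ X : ℕ in atTop, (δ / 2 * X ≤ ((A ∩ Set.Iio X).ncard : ℝ)) ∨
      (δ / 2 * X ≤ ((B ∩ Set.Iio X).ncard : ℝ)) := by
    refine hf.mono (fun X hX => ?_)
    have h2 : ((A ∪ B) ∩ Set.Iio X).ncard ≤ (A ∩ Set.Iio X).ncard + (B ∩ Set.Iio X).ncard := by
      rw [Set.union_inter_distrib_right]
      exact Set.ncard_union_le _ _
    have h3 : (((A ∪ B) ∩ Set.Iio X).ncard : ℝ) ≤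
        ((A ∩ Set.Iio X).ncard : ℝ) + ((B ∩ Set.Iio X).ncard : ℝ) := by exact_mod_cast h2
    by_contra hc
    push Not at hc
    linarith [hc.1, hc.2]
  rcases frequently_or_distrib.1 h1 with h | h
  · exact hA ⟨δ / 2, by positivity, h⟩
  · exact hB ⟨δ / 2, by positivity, h⟩

theorem rud_not_biUnion {κ : Type} (s : Finset κ) (A : κ → Set ℕ) (h : ∀ i ∈ s, ¬ UD (A i)) :
    ¬ UD (⋃ i ∈ s, A i) := by
  classical
  induction s using Finset.induction_on with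
  | empty =>
    intro hU
    obtain ⟨x, hx⟩ := UD_nonempty hU
    simp at hx
  | insert a s ha ih =>
    rw [Finset.set_biUnion_insert]
    exact rud_not_union (h a (Finset.mem_insert_self a s))
      (ih (fun i hi => h i (Finset.mem_insert_of_mem hi)))

theorem rud_multiples (W : ℕ) (hW : 0 < W) (t₀ : ℕ) : UD {t | t₀ ≤ t ∧ W ∣ t} := by
  have hW' : (0 : ℝ) < W := by exact_mod_cast hW
  refine ⟨1 / (2 * W), by positivity, ?_⟩
  have ht : Tendsto (fun m : ℕ => W * m) atTop atTop :=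
    tendsto_atTop_mono (fun m => Nat.le_mul_of_pos_left m hW) tendsto_id
  refine ht.frequently (Eventually.frequently ?_)
  filter_upwards [eventually_ge_atTop (2 * t₀)] with m hm
  have h1 : (Finset.Ico t₀ m).card ≤ ({t | t₀ ≤ t ∧ W ∣ t} ∩ Set.Iio (W * m)).ncard := by
    rw [← Set.ncard_coe_finset]
    apply Set.ncard_le_ncard_of_injOn (fun k => W * k)
    · intro k hk
      simp only [Finset.coe_Ico, Set.mem_Ico] at hk
      refine ⟨⟨hk.1.trans (Nat.le_mul_of_pos_left k hW), dvd_mul_right W k⟩, ?_⟩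
      exact Nat.mul_lt_mul_of_pos_left hk.2 hW
    · intro a _ b _ hab
      exact Nat.eq_of_mul_eq_mul_left hW hab
  rw [Nat.card_Ico] at h1
  have h2 : (m : ℝ) - t₀ ≤ (({t | t₀ ≤ t ∧ W ∣ t} ∩ Set.Iio (W * m)).ncard : ℝ) := by
    have h3 : m ≤ ({t | t₀ ≤ t ∧ W ∣ t} ∩ Set.Iio (W * m)).ncard + t₀ := by omega
    have h4 : (m : ℝ) ≤ (({t | t₀ ≤ t ∧ W ∣ t} ∩ Set.Iio (W * m)).ncard : ℝ) + t₀ := by
      exact_mod_cast h3
    linarith
  have h5 : 2 * (t₀ : ℝ) ≤ m := by exact_mod_cast hm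
  have h6 : 1 / (2 * (W : ℝ)) * ((W * m : ℕ) : ℝ) = m / 2 := by
    push_cast
    field_simp
  rw [h6]
  linarith

/-- avoiding finitely many sets of upper density zero by a translate of a finite set -/
theorem exists_avoid {ι : Type} (s : Finset ι) (Z : ι → Set ℕ) (hZ : ∀ i ∈ s, ¬ UD (Z i))
    (C : Finset ℕ) (W : ℕ) (hW : 0 < W) (t₀ : ℕ) :
    ∃ t : ℕ, t₀ ≤ t ∧ W ∣ t ∧ ∀ i ∈ s, ∀ a ∈ C, t + a ∉ Z i := by
  by_contra hc
  push Not at hc
  have h1 : ¬ UD (⋃ p ∈ s ×ˢ C, {t | t + p.2 ∈ Z p.1}) := by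
    apply rud_not_biUnion
    rintro ⟨i, a⟩ hp hU
    exact hZ i (Finset.mem_product.1 hp).1 (UD_shift a hU)
  apply h1
  refine UD_mono ?_ (rud_multiples W hW t₀)
  rintro t ⟨ht, hWt⟩
  obtain ⟨i, hi, a, ha, hta⟩ := hc t ht hWt
  simp only [Set.mem_iUnion]
  exact ⟨(i, a), Finset.mem_product.2 ⟨hi, ha⟩, hta⟩

end Pool.Agent.H92.BH
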