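import Pool.Agent.H92.BH.Spec
import Pool.Agent.H92.BH.Atom
import Pool.Agent.H92.BH.Split

/-!
[H92 BH REC]  Recurrence: many differences `d ∈ D` inside `S` with a common element.

Proof.  `S` has `UBDge S δ`, `δ > 0`.  Take `σ` from `spec`, `κ = (σ {0}).toReal ≥ δ^2 > 0` (`atom_zero`), and `J, α, ρ, g` from
`split`.  By hypothesis `D ∩ Boh α ρ` has `UBDge` with some `δ' > 0`.  Put `ε' = κ δ' / 4`.  Given `M₀`, let `M₁` be from `split` for
`ε = κ δ'/8`; there are `M ≥ max M₀ M₁`, `M > 0`, and `A` with `δ' M ≤ cnt (D ∩ Boh α ρ) A M`.  Let `E` be the finite set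
`(A, A+M] ∩ D ∩ Boh α ρ`.  Then `∑_{d ∈ E} Re σ^(d) ≥ (κ/2) |E| - ∑ g ≥ (κ/2) δ' M - (κ δ'/8) M = (3/8) κ δ' M`.
Apply the approximation of `spec` with `M' = |A| + M` (so `|d| ≤ M'` on `E`) and `η = κ δ'/8`: a window `(a, a+L]` with
`corr S a L d ≥ Re σ^(d) - η`, so `∑_{d ∈ E} corr S a L d ≥ (3/8) κ δ' M - η M = (1/4) κ δ' M`.  Multiply by `L` and exchange:
`∑_{n ∈ (a,a+L], n ∈ S} #{d ∈ E : n + d ∈ S} ≥ ε' M L`, so some `n ∈ S` has `#{...} ≥ ε' M` (at most `L` values of `n`).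
-/

namespace Pool.Agent.H92.BH

open MeasureTheory

theorem recur {D S : Set ℤ}
    (hD : ∀ (J : ℕ) (α : Fin J → ℝ) (ρ : ℝ), 0 < ρ → UBD (D ∩ Boh α ρ)) (hS : UBD S) :
    ∃ ε : ℝ, 0 < ε ∧ ∀ M₀ : ℕ, ∃ M : ℕ, M₀ ≤ M ∧ 0 < M ∧ ∃ (A : ℤ) (b : ℤ), b ∈ S ∧
      ε * M ≤ cnt {d | d ∈ D ∧ b + d ∈ S} A M := by
  classical
  obtain ⟨δ, hδ, hS⟩ := hS
  obtain ⟨σ, hfin, hmass, happ⟩ := spec hS
  have hκ0 := atom_zero hδ σ happ
  have hκ : 0 < (σ {0}).toReal := lt_of_lt_of_le (by positivity) hκ0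
  obtain ⟨J, α, ρ, g, hρ, hg0, hre, hav⟩ := split σ hκ
  obtain ⟨δ', hδ', hE⟩ := hD J α ρ hρ
  generalize (σ {0}).toReal = κ at hκ0 hκ hre
  refine ⟨κ * δ' / 4, by positivity, fun M₀ => ?_⟩
  obtain ⟨M₁, hM₁⟩ := hav (κ * δ' / 8) (by positivity)
  obtain ⟨M, hM, hMpos, A, hA⟩ := hE (max M₀ M₁)
  obtain ⟨L, -, hL, a, -, happ'⟩ := happ (A.natAbs + M) (κ * δ' / 8) (by positivity) 0
  have hMr : (0 : ℝ) < M := by exact_mod_cast hMpos
  have hLr : (0 : ℝ) < L := by exact_mod_cast hL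
  set E : Finset ℤ := (Finset.Ioc A (A + M)).filter (fun d => d ∈ D ∩ Boh α ρ) with hEdef
  have hEcard : δ' * M ≤ (E.card : ℝ) := by
    unfold cnt at hA
    convert hA
  have hEcard' : (E.card : ℝ) ≤ M := by
    have h1 : E.card ≤ (Finset.Ioc A (A + M)).card := Finset.card_filter_le _ _
    rw [Int.card_Ioc] at h1
    have h2 : (A + (M : ℤ) - A).toNat = M := by simp
    rw [h2] at h1
    exact_mod_cast h1
  have hcorr : ∀ d ∈ E, κ / 2 - g d - κ * δ' / 8 ≤ corr S a L d := by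
    intro d hd
    obtain ⟨hd1, hd2⟩ := Finset.mem_filter.1 hd
    rw [Finset.mem_Ioc] at hd1
    have h1 := hre d hd2.2
    have h2 : |d| ≤ ((A.natAbs + M : ℕ) : ℤ) := by
      push_cast
      rw [abs_le]
      have h3 := neg_abs_le A
      have h4 := le_abs_self A
      constructor <;> omega
    have h3 := (Complex.abs_re_le_norm _).trans (happ' d h2)
    rw [Complex.sub_re, Complex.ofReal_re] at h3
    have h4 := (abs_le.1 h3).2
    linarith
  have hsumg : ∑ d ∈ E, g d ≤ κ * δ' / 8 * M :=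
    (Finset.sum_le_sum_of_subset_of_nonneg (Finset.filter_subset _ _)
      (fun d _ _ => hg0 d)).trans (hM₁ M ((le_max_right _ _).trans hM) A)
  have hsum : κ * δ' / 4 * M ≤ ∑ d ∈ E, corr S a L d := by
    have h1 : ∑ d ∈ E, (κ / 2 - g d - κ * δ' / 8) ≤ ∑ d ∈ E, corr S a L d :=
      Finset.sum_le_sum hcorr
    rw [Finset.sum_sub_distrib, Finset.sum_sub_distrib, Finset.sum_const, Finset.sum_const,
      nsmul_eq_mul, nsmul_eq_mul] at h1
    have h2 : κ / 2 * (δ' * M) ≤ κ / 2 * (E.card : ℝ) := by gcongr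
    have h3 : κ * δ' / 8 * (E.card : ℝ) ≤ κ * δ' / 8 * M := by gcongr
    nlinarith
  set W : Finset ℤ := (Finset.Ioc a (a + L)).filter (fun n => n ∈ S) with hW
  have hWcard : (W.card : ℝ) ≤ L := by
    have h1 : W.card ≤ (Finset.Ioc a (a + L)).card := Finset.card_filter_le _ _
    rw [Int.card_Ioc] at h1
    have h2 : (a + (L : ℤ) - a).toNat = L := by simp
    rw [h2] at h1
    exact_mod_cast h1
  have hexch : ∑ d ∈ E, corr S a L d * L = ∑ n ∈ W, ((E.filter (fun d => n + d ∈ S)).card : ℝ) := by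
    have h1 : ∀ d ∈ E, corr S a L d * L =
        ∑ n ∈ W, (if n + d ∈ S then (1 : ℝ) else 0) := by
      intro d _
      rw [Finset.sum_boole, hW, Finset.filter_filter]
      unfold corr
      rw [div_mul_cancel₀ _ hLr.ne']
    rw [Finset.sum_congr rfl h1, Finset.sum_comm]
    refine Finset.sum_congr rfl fun n _ => ?_
    rw [Finset.sum_boole]
  have htot : κ * δ' / 4 * M * L ≤ ∑ n ∈ W, ((E.filter (fun d => n + d ∈ S)).card : ℝ) := by
    rw [← hexch, ← Finset.sum_mul]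
    gcongr
  have hpos : 0 < κ * δ' / 4 * M * L := by positivity
  have hWne : W.Nonempty := by
    rw [Finset.nonempty_iff_ne_empty]
    intro h
    rw [h, Finset.sum_empty] at htot
    linarith
  obtain ⟨b, hb, hb2⟩ := Finset.exists_le_of_sum_le (s := W) (f := fun _ => κ * δ' / 4 * M)
    (g := fun n => ((E.filter (fun d => n + d ∈ S)).card : ℝ)) hWne (by
      rw [Finset.sum_const, nsmul_eq_mul]
      refine le_trans ?_ htot
      rw [mul_comm]
      gcongr)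
  refine ⟨M, (le_max_left _ _).trans hM, hMpos, A, b, (Finset.mem_filter.1 hb).2, hb2.trans ?_⟩
  unfold cnt
  have h5 : (E.filter (fun d => b + d ∈ S)).card ≤
      ((Finset.Ioc A (A + M)).filter (fun d => d ∈ {d | d ∈ D ∧ b + d ∈ S})).card := by
    apply Finset.card_le_card
    intro d hd
    obtain ⟨h6, h7⟩ := Finset.mem_filter.1 hd
    obtain ⟨h8, h9⟩ := Finset.mem_filter.1 h6
    exact Finset.mem_filter.2 ⟨h8, h9.1, h7⟩
  have h6 : ((E.filter (fun d => b + d ∈ S)).card : ℝ) ≤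
      (((Finset.Ioc A (A + M)).filter (fun d => d ∈ {d | d ∈ D ∧ b + d ∈ S})).card : ℝ) := by
    exact_mod_cast h5
  refine h6.trans (le_of_eq ?_)
  congr!

end Pool.Agent.H92.BH
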