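import Pool.Agent.H92.BH.RUd

/-!
MP_8923e7_nt, theorem T2*.  Stages and families of good sets.
-/

namespace Pool.Agent.H92.BH

open Filter

/-- the stages of the coinductive notion of a richly extendable finite set -/
def St {r : ℕ} (c : ℕ → Fin r) (α : Ordinal.{0}) (F : Finset ℕ) : Prop :=
  GoodC c F ∧ ∀ β : Ordinal.{0}, ∀ _h : β < α, UD {y | St c β (insert y F)}
termination_by α

lemma St_iff {r : ℕ} (c : ℕ → Fin r) (α : Ordinal.{0}) (F : Finset ℕ) :
    St c α F ↔ GoodC c F ∧ ∀ β < α, UD {y | St c β (insert y F)} := by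
  rw [St]

/-- `{0, h}` belongs to a family of good finite sets in which every member has extensions by a set of new
elements of positive upper density -/
def FamGood {r : ℕ} (c : ℕ → Fin r) (h : ℕ) : Prop :=
  ∃ 𝓕 : Set (Finset ℕ), {0, h} ∈ 𝓕 ∧ ∀ F ∈ 𝓕, GoodC c F ∧ UD {y | insert y F ∈ 𝓕}

/-- the differences without such a family, with sign -/
def badF {r : ℕ} (c : ℕ → Fin r) : Set ℤ := {d | d ≠ 0 ∧ ¬ FamGood c d.natAbs}

lemma St_anti {r : ℕ} (c : ℕ → Fin r) {α β : Ordinal.{0}} (h : β ≤ α) {F : Finset ℕ}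
    (hF : St c α F) : St c β F := by
  rw [St_iff] at hF ⊢
  exact ⟨hF.1, fun γ hγ => hF.2 γ (hγ.trans_le h)⟩

/-- if `{0, h}` survives all stages there is a family -/
lemma famGood_of_St {r : ℕ} (c : ℕ → Fin r) (h : ℕ) (hh : ∀ α, St c α {0, h}) :
    FamGood c h := by
  classical
  have hst : ∃ α₀ : Ordinal.{0}, ∀ F : Finset ℕ, St c α₀ F → ∀ α, St c α F := by
    let f : Finset ℕ → Ordinal.{0} := fun F => if hF : ∃ α, ¬ St c α F then hF.choose else 0
    refine ⟨⨆ F, f F, fun F hF α => ?_⟩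
    by_contra hnot
    have hex : ∃ α, ¬ St c α F := ⟨α, hnot⟩
    have h1 : f F = hex.choose := dif_pos hex
    have h2 : f F ≤ ⨆ F, f F := Ordinal.le_iSup f F
    have h3 := St_anti c h2 hF
    rw [h1] at h3
    exact hex.choose_spec h3
  obtain ⟨α₀, hα₀⟩ := hst
  refine ⟨{F | St c α₀ F}, hh α₀, fun F hF => ?_⟩
  have h1 := (St_iff c _ _).mp (hα₀ F hF (Order.succ α₀))
  exact ⟨h1.1, h1.2 α₀ (Order.lt_succ α₀)⟩

lemma GoodC_mono' {r : ℕ} (c : ℕ → Fin r) {F G : Finset ℕ} (h : F ⊆ G) (hG : GoodC c G) :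
    GoodC c F := by
  obtain ⟨i, hi⟩ := hG
  refine ⟨i, hi.mono ?_⟩
  intro N hN a ha
  exact hN a (h ha)

/-- translation -/
lemma St_shift {r : ℕ} (c : ℕ → Fin r) (x : ℕ) (α : Ordinal.{0}) :
    ∀ F : Finset ℕ, St c α (F.image (fun a => a + x)) → St c α F := by
  induction α using WellFoundedLT.induction with
  | _ α ih =>
    intro F hF
    rw [St_iff] at hF ⊢
    refine ⟨?_, fun β hβ => ?_⟩
    · obtain ⟨i, hi⟩ := hF.1
      refine ⟨i, Set.infinite_of_injOn_mapsTo (f := fun N => N + x)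
        (fun a _ b _ hab => Nat.add_right_cancel hab) ?_ hi⟩
      intro N hN a ha
      have h2 := hN (a + x) (Finset.mem_image_of_mem _ ha)
      have h3 : N + (a + x) = N + x + a := by ring
      rw [h3] at h2
      exact h2
    · have h1 := UD_shift' x (hF.2 β hβ)
      refine UD_mono ?_ h1
      intro y hy
      have hy : St c β (insert (y + x) (F.image (fun a => a + x))) := hy
      refine ih β hβ (insert y F) ?_
      rw [Finset.image_insert]
      exact hy

end Pool.Agent.H92.BH
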