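import Pool.Agent.H92.BH.RBlkA
import Pool.Agent.H92.BH.SDefs

/-!
[H92 BH SBLKB]  One block, version with ordinal stages.
-/

namespace Pool.Agent.H92.BH

open Filter

theorem stepS {D : Set ℤ} (h0 : (0 : ℤ) ∉ D) (hsym : ∀ d ∈ D, -d ∈ D)
    (hD : ∀ (J : ℕ) (α : Fin J → ℝ) (ρ : ℝ), 0 < ρ → UBD (D ∩ Boh α ρ)) {r : ℕ} (c : ℕ → Fin r)
    (G : Finset ℕ) (l : ℕ) :
    ∃ H : Finset ℕ, H.card = 2 ^ l ∧ Disjoint G H ∧
      (∀ x ∈ H, (G.card + 2 ^ l + 2).factorial ∣ x) ∧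
      (∀ x ∈ H, ∀ y ∈ H, x < y → ((y - x : ℕ) : ℤ) ∈ D) ∧
      ∀ F ⊆ G, GoodC c F → ∀ α : Ordinal.{0}, ¬ St c α F →
        ∀ y ∈ H, ∃ β < α, ¬ St c β (insert y F) := by
  classical
  have hW : 0 < (G.card + 2 ^ l + 2).factorial := Nat.factorial_pos _
  obtain ⟨C, hC1, hC2, hC3⟩ := big_cliques h0 hsym hD (2 ^ l) ((G.card + 2 ^ l + 2).factorial) hW
  -- for `F` good and not in all stages choose the smallest stage
  have hZex : ∀ F : Finset ℕ, ∃ Z : Set ℕ, ¬ UD Z ∧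
      (GoodC c F → ∀ α : Ordinal.{0}, ¬ St c α F → ∃ β < α, Z = {y | St c β (insert y F)}) := by
    intro F
    by_cases h : GoodC c F ∧ ∃ α : Ordinal.{0}, ¬ St c α F
    · obtain ⟨hg, hex⟩ := h
      obtain ⟨α₀, hα₀, hmin⟩ := WellFounded.has_min (wellFounded_lt (α := Ordinal.{0}))
        {α | ¬ St c α F} hex
      have h1 : ¬ St c α₀ F := hα₀
      rw [St_iff] at h1
      push Not at h1
      obtain ⟨β, hβ, hβ2⟩ := h1 hg
      refine ⟨{y | St c β (insert y F)}, hβ2, fun _ α hα => ⟨β, ?_, rfl⟩⟩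
      exact hβ.trans_le (not_lt.mp (hmin α hα))
    · refine ⟨∅, fun hu => Set.not_nonempty_empty (UD_nonempty hu), fun hg α hα => ?_⟩
      exact absurd ⟨hg, α, hα⟩ h
  choose Z hZ1 hZ2 using hZex
  obtain ⟨t, ht1, ht2, ht3⟩ := exists_avoid G.powerset Z (fun F _ => hZ1 F) C _ hW (G.sup id + 1)
  refine ⟨C.image (fun a => a + t), ?_, ?_, ?_, ?_, ?_⟩
  · rw [Finset.card_image_of_injective _ (add_left_injective t)]
    exact hC1
  · rw [Finset.disjoint_left]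
    intro x hx hx2
    rw [Finset.mem_image] at hx2
    obtain ⟨a, _, rfl⟩ := hx2
    have h1 : a + t ≤ G.sup id := Finset.le_sup (f := id) hx
    omega
  · intro x hx
    rw [Finset.mem_image] at hx
    obtain ⟨a, ha, rfl⟩ := hx
    exact dvd_add (hC2 a ha) ht2
  · intro x hx y hy hxy
    rw [Finset.mem_image] at hx hy
    obtain ⟨a, ha, rfl⟩ := hx
    obtain ⟨b, hb, rfl⟩ := hy
    have h1 : b + t - (a + t) = b - a := by omega
    rw [h1]
    exact hC3 a ha b hb (by omega)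
  · intro F hF hg α hα y hy
    rw [Finset.mem_image] at hy
    obtain ⟨a, ha, rfl⟩ := hy
    obtain ⟨β, hβ, e⟩ := hZ2 F hg α hα
    have h1 : t + a ∉ Z F := ht3 F (Finset.mem_powerset.2 hF) a ha
    rw [e, Set.mem_ofPred_eq, add_comm t a] at h1
    exact ⟨β, hβ, h1⟩

end Pool.Agent.H92.BH
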