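import Pool.Agent.H92.BH.SBlk
import Pool.Agent.H92.BH.RCol
import Pool.Agent.H21.MT.Core1

/-!
[H92 BH SMAIN]  Theorem T2*.
-/

namespace Pool.Agent.H92.BH

open Filter

lemma badF_zero {r : ℕ} (c : ℕ → Fin r) : (0 : ℤ) ∉ badF c := fun h => h.1 rfl

lemma badF_symm {r : ℕ} (c : ℕ → Fin r) : ∀ d ∈ badF c, -d ∈ badF c := by
  intro d hd
  refine ⟨neg_ne_zero.mpr hd.1, ?_⟩
  rw [Int.natAbs_neg]
  exact hd.2

/-- the main contradiction -/
theorem not_denseS {r : ℕ} (c : ℕ → Fin r)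
    (hD : ∀ (J : ℕ) (α : Fin J → ℝ) (ρ : ℝ), 0 < ρ → UBD (badF c ∩ Boh α ρ)) : False := by
  classical
  obtain ⟨H, hcard, hdisj, hadm, hdiff, hinv⟩ := blocksS (badF_zero c) (badF_symm c) hD c
    (fun j => (20 + (r + 1) * 10 ^ 12) * 2 ^ j)
  have hl : ∀ j : ℕ, 20 * 2 ^ j ≤ (20 + (r + 1) * 10 ^ 12) * 2 ^ j := by
    intro j
    exact Nat.mul_le_mul_right _ (Nat.le_add_right _ _)
  obtain ⟨B, hB1, hB2, hB3⟩ := Pool.Agent.H21.MT.core1 H _ hcard hdisj hl hadm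
  obtain ⟨κ, hκ⟩ := colours c B hB2
  -- a pair of one colour in infinitely many blocks
  have hpair : ∀ j ∈ {j : ℕ | (1 / 10 ^ 12 : ℝ) *
      (((20 + (r + 1) * 10 ^ 12) * 2 ^ j : ℕ) / 2 ^ j) ≤
        ((H j).filter (fun a => a ∈ B)).card},
      ∃ i : Fin r, ∃ x ∈ H j, ∃ y ∈ H j, x ∈ B ∧ y ∈ B ∧ κ x = i ∧ κ y = i ∧ x < y := by
    intro j hj
    have hj : (1 / 10 ^ 12 : ℝ) * (((20 + (r + 1) * 10 ^ 12) * 2 ^ j : ℕ) / 2 ^ j) ≤
        ((H j).filter (fun a => a ∈ B)).card := hj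
    have h1 : (r : ℝ) < ((H j).filter (fun a => a ∈ B)).card := by
      refine lt_of_lt_of_le ?_ hj
      push_cast
      rw [mul_div_assoc, div_self (by positivity), mul_one]
      have : (0 : ℝ) ≤ r := Nat.cast_nonneg r
      linarith
    have h2 : r < ((H j).filter (fun a => a ∈ B)).card := by exact_mod_cast h1
    obtain ⟨x, hx, y, hy, hxy, hxyκ⟩ :=
      Finset.exists_ne_map_eq_of_card_lt_of_maps_to (t := (Finset.univ : Finset (Fin r)))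
        (f := κ) (by simpa using h2) (fun a _ => Finset.mem_univ _)
    obtain ⟨hx1, hx2⟩ := Finset.mem_filter.mp hx
    obtain ⟨hy1, hy2⟩ := Finset.mem_filter.mp hy
    rcases lt_or_gt_of_ne hxy with h | h
    · exact ⟨κ x, x, hx1, y, hy1, hx2, hy2, rfl, hxyκ.symm, h⟩
    · exact ⟨κ y, y, hy1, x, hx1, hy2, hx2, rfl, hxyκ, h⟩
  have hcol : ∃ i : Fin r, {j : ℕ | ∃ x ∈ H j, ∃ y ∈ H j, x ∈ B ∧ y ∈ B ∧ κ x = i ∧ κ y = i ∧
      x < y}.Infinite := by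
    by_contra hcon
    push Not at hcon
    refine hB3 ((Set.finite_iUnion fun i => hcon i).subset ?_)
    intro j hj
    obtain ⟨i, hi⟩ := hpair j hj
    exact Set.mem_iUnion.mpr ⟨i, hi⟩
  obtain ⟨i, hS⟩ := hcol
  set S : Set ℕ := {j : ℕ | ∃ x ∈ H j, ∃ y ∈ H j, x ∈ B ∧ y ∈ B ∧ κ x = i ∧ κ y = i ∧ x < y}
    with hSdef
  set Bi : Set ℕ := {a | a ∈ B ∧ κ a = i} with hBi
  have hgood : ∀ F : Finset ℕ, ↑F ⊆ Bi →
      {N : ℕ | ∀ a ∈ F, (N + a).Prime ∧ c (N + a) = i}.Infinite := by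
    intro F hF
    refine (hκ F (fun a ha => (hF ha).1)).mono ?_
    intro N hN a ha
    have h1 := hN a ha
    exact ⟨h1.1, h1.2.trans (hF (Finset.mem_coe.mpr ha)).2⟩
  -- every finite subset is in every stage
  have hst : ∀ α : Ordinal.{0}, ∀ F : Finset ℕ, ↑F ⊆ Bi → St c α F := by
    intro α
    induction α using WellFoundedLT.induction with
    | _ α ih =>
      intro F hF
      by_contra hnot
      have hj : ∀ x ∈ F, ∃ j, x ∈ H j := fun x hx => hB1 x (hF (Finset.mem_coe.mpr hx)).1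
      choose! jf hjf using hj
      obtain ⟨j, hjS, hjgt⟩ := hS.exists_gt (F.sup jf)
      obtain ⟨x, hx, y, hy, hxB, hyB, hxi, hyi, hxy⟩ := hjS
      have h1 : ∀ x ∈ F, ∃ i' < j, x ∈ H i' := fun x hx =>
        ⟨jf x, lt_of_le_of_lt (Finset.le_sup hx) hjgt, hjf x hx⟩
      obtain ⟨β, hβ, hβ2⟩ := hinv j F h1 ⟨i, hgood F hF⟩ α hnot y hy
      refine hβ2 (ih β hβ (insert y F) ?_)
      intro a ha
      rcases Finset.mem_insert.mp (Finset.mem_coe.mp ha) with rfl | ha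
      · exact ⟨hyB, hyi⟩
      · exact hF (Finset.mem_coe.mpr ha)
  -- the contradiction
  obtain ⟨j, hjS⟩ := hS.nonempty
  obtain ⟨x, hx, y, hy, hxB, hyB, hxi, hyi, hxy⟩ := hjS
  have hd := hdiff j x hx y hy hxy
  refine hd.2 ?_
  rw [Int.natAbs_natCast]
  refine famGood_of_St c _ (fun α => ?_)
  refine St_shift c x α _ ?_
  refine hst α _ ?_
  intro a ha
  obtain ⟨b, hb, rfl⟩ := Finset.mem_image.mp (Finset.mem_coe.mp ha)
  rcases Finset.mem_insert.mp hb with rfl | hb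
  · simp only [zero_add]
    exact ⟨hxB, hxi⟩
  · rw [Finset.mem_singleton.mp hb]
    simp only [Nat.sub_add_cancel hxy.le]
    exact ⟨hyB, hyi⟩

open Classical in
theorem bohr_fam {r : ℕ} (c : ℕ → Fin r) :
    ∃ (J : ℕ) (α : Fin J → ℝ) (ρ : ℝ), 0 < ρ ∧
    ∀ ε : ℝ, 0 < ε → ∃ L₀ : ℕ, ∀ L : ℕ, L₀ ≤ L → ∀ a : ℕ,
      (((Finset.Ioc a (a + L)).filter (fun h : ℕ =>
        (∀ i, ∃ m : ℤ, |(h : ℝ) * α i - m| < ρ) ∧ ¬ FamGood c h)).card : ℝ) ≤ ε * L := by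
  have hex : ∃ (J : ℕ) (α : Fin J → ℝ) (ρ : ℝ), 0 < ρ ∧ ¬ UBD (badF c ∩ Boh α ρ) := by
    by_contra hcon
    push Not at hcon
    exact not_denseS c hcon
  obtain ⟨J, α, ρ, hρ, hnot⟩ := hex
  refine ⟨J, α, ρ, hρ, fun ε hε => ?_⟩
  have hnot2 : ¬ UBDge (badF c ∩ Boh α ρ) ε := fun h => hnot ⟨ε, hε, h⟩
  unfold UBDge at hnot2
  push Not at hnot2
  obtain ⟨L₀, hL₀⟩ := hnot2
  refine ⟨max L₀ 1, fun L hL a => ?_⟩
  have hLpos : 0 < L := lt_of_lt_of_le one_pos ((le_max_right _ _).trans hL)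
  have h1 := hL₀ L ((le_max_left _ _).trans hL) hLpos (a : ℤ)
  refine le_trans ?_ h1.le
  unfold cnt
  refine Nat.cast_le.mpr ?_
  refine Finset.card_le_card_of_injOn (fun h : ℕ => (h : ℤ)) ?_
    (fun x _ y _ hxy => Nat.cast_injective (R := ℤ) hxy)
  intro h hh
  simp only [Finset.coe_filter, Finset.mem_Ioc, Set.mem_ofPred_eq] at hh ⊢
  obtain ⟨⟨ha, hb⟩, hboh, hbad⟩ := hh
  refine ⟨⟨by exact_mod_cast ha, by exact_mod_cast hb⟩, ⟨?_, ?_⟩, ?_⟩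
  · have : 0 < h := by omega
    exact_mod_cast this.ne'
  · rw [Int.natAbs_natCast]
    exact hbad
  · intro i
    obtain ⟨m, hm⟩ := hboh i
    exact ⟨m, by simpa using hm⟩

end Pool.Agent.H92.BH
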